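import Mathlib
import Pool.Agent.MP_88b4a2_lc.Defs

/-! Back-and-forth systems extracted from the bijective pebble game, and the basic transfers. -/

namespace Pool.Agent.MP_88b4a2_lc

namespace GrL

/-- A back-and-forth system between two groups: lists of pairs that are good for Duplicator. -/
structure BF (G K : Type) [Group G] [Group K] (k : ℕ) where
  E : List (G × K) → Prop
  mono : ∀ {l l'}, l ⊆ l' → E l' → E l
  eq_iff : ∀ {l a a' b b'}, E l → (a, a') ∈ l → (b, b') ∈ l → (a = b ↔ a' = b')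
  mul_iff : ∀ {l a a' b b' c c'}, E l → (a, a') ∈ l → (b, b') ∈ l → (c, c') ∈ l →
    (a * b = c ↔ a' * b' = c')
  ext : ∀ {l}, E l → l.length ≤ k → ∃ f : G ≃ K, ∀ g, E ((g, f g) :: l)
  big : 8 ≤ k

theorem winsIn_succ {G K : Type} [Group G] [Group K] {n : ℕ} (hn : 0 < n) :
    ∀ (r : ℕ) (p : Fin n → Option (G × K)), WinsIn r p → WinsIn (r + 1) p := by
  intro r
  induction r with
  | zero => intro p h; exact Or.inl h
  | succ r ih =>
    intro p h
    rcases h with h | ⟨i, h⟩
    · exact Or.inl h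
    · refine Or.inr ⟨i, fun f => ?_⟩
      obtain ⟨g, hg⟩ := h f
      exact ⟨g, ih _ hg⟩

theorem winsIn_mono {G K : Type} [Group G] [Group K] {n : ℕ} (hn : 0 < n)
    {r r' : ℕ} (h : r ≤ r') (p : Fin n → Option (G × K)) (hw : WinsIn r p) : WinsIn r' p := by
  induction h with
  | refl => exact hw
  | step _ ih => exact winsIn_succ hn _ _ ih

/-- The back-and-forth system of the positions that Spoiler never wins. -/
def ofGame (G K : Type) [Group G] [Group K] [Finite G] [Finite K] (k : ℕ) (hk : 8 ≤ k) :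
    BF G K k where
  E l := ∃ p : Fin (k + 1) → Option (G × K), (∀ r, ¬ WinsIn r p) ∧ ∀ x ∈ l, ∃ i, p i = some x
  mono := by
    rintro l l' h ⟨p, hp, hl⟩
    exact ⟨p, hp, fun x hx => hl x (h hx)⟩
  eq_iff := by
    rintro l a a' b b' ⟨p, hp, hl⟩ ha hb
    obtain ⟨i, hi⟩ := hl _ ha
    obtain ⟨j, hj⟩ := hl _ hb
    have h0 : IsoOnPebbles p := not_not.mp (hp 0)
    exact h0.1 i j _ _ hi hj
  mul_iff := by
    rintro l a a' b b' c c' ⟨p, hp, hl⟩ ha hb hc
    obtain ⟨i, hi⟩ := hl _ ha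
    obtain ⟨j, hj⟩ := hl _ hb
    obtain ⟨m, hm⟩ := hl _ hc
    have h0 : IsoOnPebbles p := not_not.mp (hp 0)
    exact h0.2 i j m _ _ _ hi hj hm
  ext := by
    classical
    rintro l ⟨p, hp, hl⟩ hlen
    choose! idx hidx using hl
    obtain ⟨i, hi⟩ : ∃ i : Fin (k + 1), i ∉ l.toFinset.image idx := by
      by_contra hcon
      push Not at hcon
      have h1 : (Finset.univ : Finset (Fin (k + 1))).card ≤ (l.toFinset.image idx).card :=
        Finset.card_le_card fun x _ => hcon x
      have h2 := Finset.card_image_le (s := l.toFinset) (f := idx)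
      have h3 := List.toFinset_card_le l
      simp only [Finset.card_univ, Fintype.card_fin] at h1
      omega
    have key : ∃ f : G ≃ K, ∀ g r, ¬ WinsIn r (Function.update p i (some (g, f g))) := by
      by_contra hcon
      push Not at hcon
      choose g r hgr using hcon
      have : Finite (G ≃ K) :=
        Finite.of_injective (fun f : G ≃ K => (f : G → K)) DFunLike.coe_injective
      obtain ⟨R, hR⟩ := (Set.finite_range r).bddAbove
      exact hp (R + 1) (Or.inr ⟨i, fun f => ⟨g f,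
        winsIn_mono (Nat.succ_pos k) (hR ⟨f, rfl⟩) _ (hgr f)⟩⟩)
    obtain ⟨f, hf⟩ := key
    refine ⟨f, fun g => ⟨_, hf g, fun x hx => ?_⟩⟩
    rcases List.mem_cons.mp hx with rfl | hx
    · exact ⟨i, by simp⟩
    · refine ⟨idx x, ?_⟩
      have hne : idx x ≠ i := fun h =>
        hi (Finset.mem_image.mpr ⟨x, List.mem_toFinset.mpr hx, h⟩)
      rw [Function.update_of_ne hne]
      exact hidx x hx
  big := hk

variable {G K : Type} [Group G] [Group K] {k : ℕ}

theorem mem_swap {l : List (G × K)} {a : G} {a' : K} (h : (a, a') ∈ l) :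
    (a', a) ∈ l.map Prod.swap := List.mem_map.mpr ⟨_, h, rfl⟩

namespace BF

/-- The reversed system. -/
def symm (B : BF G K k) : BF K G k where
  E l := B.E (l.map Prod.swap)
  mono h h' := B.mono (List.map_subset _ h) h'
  eq_iff h ha hb := (B.eq_iff h (mem_swap ha) (mem_swap hb)).symm
  mul_iff h ha hb hc := (B.mul_iff h (mem_swap ha) (mem_swap hb) (mem_swap hc)).symm
  ext := by
    intro l h hl
    obtain ⟨f, hf⟩ := B.ext h (by simpa using hl)
    refine ⟨f.symm, fun g => ?_⟩
    have := hf (f.symm g)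
    simpa using this
  big := B.big

variable (B : BF G K k)

theorem swap {l : List (G × K)} (h : B.E l) : B.symm.E (l.map Prod.swap) := by
  show B.E _
  simpa [List.map_map] using h

theorem unswap {l : List (G × K)} {a : G} {a' : K} (h : B.symm.E ((a', a) :: l.map Prod.swap)) :
    B.E ((a, a') :: l) := by
  have h1 : B.E _ := h
  simpa [List.map_map] using h1

theorem extB {l : List (G × K)} (h : B.E l) (l₀ : List (G × K)) (h₀ : l₀ ⊆ l)
    (hl : l₀.length ≤ 8) : ∃ f : G ≃ K, ∀ g, B.E ((g, f g) :: l₀) :=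
  B.ext (B.mono h₀ h) (hl.trans B.big)

theorem fw {l : List (G × K)} (h : B.E l) (l₀ : List (G × K)) (h₀ : l₀ ⊆ l)
    (hl : l₀.length ≤ 8) (g : G) : ∃ g', B.E ((g, g') :: l₀) := by
  obtain ⟨f, hf⟩ := B.extB h l₀ h₀ hl
  exact ⟨_, hf g⟩

theorem bw {l : List (G × K)} (h : B.E l) (l₀ : List (G × K)) (h₀ : l₀ ⊆ l)
    (hl : l₀.length ≤ 8) (g' : K) : ∃ g, B.E ((g, g') :: l₀) := by
  obtain ⟨f, hf⟩ := B.extB h l₀ h₀ hl
  exact ⟨f.symm g', by simpa using hf (f.symm g')⟩

theorem one {l : List (G × K)} (h : B.E l) {a : G} {a' : K} (ha : (a, a') ∈ l) :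
    a = 1 ↔ a' = 1 := by
  have := B.mul_iff h ha ha ha
  simpa using this

theorem pow (n : ℕ) : ∀ {l : List (G × K)} (_ : B.E l) {a b : G} {a' b' : K}
    (_ : (a, a') ∈ l) (_ : (b, b') ∈ l), a ^ n = b → a' ^ n = b' := by
  induction n with
  | zero =>
    intro l h a b a' b' ha hb hab
    rw [pow_zero] at hab ⊢
    exact ((B.one h hb).mp hab.symm).symm
  | succ n ih =>
    intro l h a b a' b' ha hb hab
    obtain ⟨c', hc⟩ := B.fw h [(a, a'), (b, b')] (by simp [*]) (by simp) (a ^ n)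
    have h1 : a' ^ n = c' := ih hc (a := a) (b := a ^ n) (by simp) (by simp) rfl
    rw [pow_succ] at hab ⊢
    rw [h1]
    exact (B.mul_iff hc (a := a ^ n) (b := a) (c := b) (by simp) (by simp) (by simp)).mp hab

theorem inv {l : List (G × K)} (h : B.E l) {a b : G} {a' b' : K}
    (ha : (a, a') ∈ l) (hb : (b, b') ∈ l) (hab : a⁻¹ = b) : a'⁻¹ = b' := by
  obtain ⟨c', hc⟩ := B.fw h [(a, a'), (b, b')] (by simp [*]) (by simp) 1
  have h1 : c' = 1 := (B.one hc (a := 1) (by simp)).mp rfl
  have h2 := (B.mul_iff hc (a := a) (a' := a') (b := b) (b' := b') (c := 1) (c' := c')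
    (by simp) (by simp) (by simp)).mp (by rw [← hab, mul_inv_cancel])
  rw [h1] at h2
  exact inv_eq_of_mul_eq_one_right h2

theorem zpow (n : ℤ) {l : List (G × K)} (h : B.E l) {a b : G} {a' b' : K}
    (ha : (a, a') ∈ l) (hb : (b, b') ∈ l) (hab : a ^ n = b) : a' ^ n = b' := by
  cases n with
  | ofNat n =>
    simp only [Int.ofNat_eq_natCast, zpow_natCast] at hab ⊢
    exact B.pow n h ha hb hab
  | negSucc n =>
    rw [zpow_negSucc] at hab ⊢
    obtain ⟨c', hc⟩ := B.fw h [(a, a'), (b, b')] (by simp [*]) (by simp) (a ^ (n + 1))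
    have h1 : a' ^ (n + 1) = c' := B.pow _ hc (a := a) (b := a ^ (n + 1)) (by simp) (by simp) rfl
    rw [h1]
    exact B.inv hc (a := a ^ (n + 1)) (b := b) (by simp) (by simp) hab

theorem pow_one' (n : ℕ) {l : List (G × K)} (h : B.E l) {a : G} {a' : K}
    (ha : (a, a') ∈ l) (hab : a ^ n = 1) : a' ^ n = 1 := by
  obtain ⟨c', hc⟩ := B.fw h [(a, a')] (by simp [*]) (by simp) 1
  have h1 : c' = 1 := (B.one hc (a := 1) (by simp)).mp rfl
  rw [← h1]
  exact B.pow n hc (a := a) (b := 1) (by simp) (by simp) hab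

theorem pow_one_iff (n : ℕ) {l : List (G × K)} (h : B.E l) {a : G} {a' : K}
    (ha : (a, a') ∈ l) : a ^ n = 1 ↔ a' ^ n = 1 :=
  ⟨B.pow_one' n h ha, B.symm.pow_one' n (B.swap h) (mem_swap ha)⟩

theorem conj {l : List (G × K)} (h : B.E l) {g a b : G} {g' a' b' : K} (hg : (g, g') ∈ l)
    (ha : (a, a') ∈ l) (hb : (b, b') ∈ l) (hab : g * a * g⁻¹ = b) : g' * a' * g'⁻¹ = b' := by
  obtain ⟨c', hc⟩ := B.fw h [(g, g'), (a, a'), (b, b')] (by simp [*]) (by simp) (g * a)
  have h1 := (B.mul_iff hc (a := g) (a' := g') (b := a) (b' := a') (c := g * a) (c' := c')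
    (by simp) (by simp) (by simp)).mp rfl
  have h2 := (B.mul_iff hc (a := b) (a' := b') (b := g) (b' := g') (c := g * a) (c' := c')
    (by simp) (by simp) (by simp)).mp (by rw [← hab]; simp)
  rw [h1, ← h2]; simp

end BF

/-- The group-theoretic shape of a coprime extension of abelian groups. -/
structure Ctx (G : Type) [Group G] (ν μ : ℕ) : Prop where
  comm : ∀ x y : G, x ^ ν = 1 → y ^ ν = 1 → x * y = y * x
  cmt : ∀ x y : G, (x * y * x⁻¹ * y⁻¹) ^ ν = 1
  cardV : Nat.card {x : G // x ^ ν = 1} = ν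
  cardG : Nat.card G = ν * μ
  cop : μ.Coprime ν

theorem Ctx.transfer {ν μ : ℕ} (B : BF G K k) (h0 : B.E []) (hc : Ctx G ν μ) : Ctx K ν μ := by
  obtain ⟨f, hf⟩ := B.extB h0 [] (by simp) (by simp)
  refine ⟨fun x' y' hx hy => ?_, fun x' y' => ?_, ?_, ?_, hc.cop⟩
  · obtain ⟨x, h1⟩ := B.bw h0 [] (by simp) (by simp) x'
    obtain ⟨y, h2⟩ := B.bw h1 [(x, x')] (by simp) (by simp) y'
    have hx1 := (B.pow_one_iff ν h2 (a := x) (a' := x') (by simp)).mpr hx
    have hy1 := (B.pow_one_iff ν h2 (a := y) (a' := y') (by simp)).mpr hy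
    have h3 := B.conj h2 (g := x) (g' := x') (a := y) (a' := y') (b := y) (b' := y')
      (by simp) (by simp) (by simp) (by rw [hc.comm x y hx1 hy1]; simp)
    rw [← mul_inv_eq_iff_eq_mul]; exact h3
  · obtain ⟨x, h1⟩ := B.bw h0 [] (by simp) (by simp) x'
    obtain ⟨y, h2⟩ := B.bw h1 [(x, x')] (by simp) (by simp) y'
    obtain ⟨c', h3⟩ := B.fw h2 [(x, x'), (y, y')] (by simp) (by simp) (x * y * x⁻¹)
    obtain ⟨d', h4⟩ := B.fw h3 [(x, x'), (y, y'), (x * y * x⁻¹, c')] (by simp) (by simp)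
      (x * y * x⁻¹ * y⁻¹)
    have h5 := B.conj h4 (g := x) (g' := x') (a := y) (a' := y') (b := x * y * x⁻¹) (b' := c')
      (by simp) (by simp) (by simp) rfl
    have h6 := (B.mul_iff h4 (a := x * y * x⁻¹ * y⁻¹) (a' := d') (b := y) (b' := y')
      (c := x * y * x⁻¹) (c' := c') (by simp) (by simp) (by simp)).mp (by simp)
    have h7 := B.pow_one' ν h4 (a := x * y * x⁻¹ * y⁻¹) (a' := d') (by simp) (hc.cmt x y)
    rw [h5, ← h6]; simpa using h7
  · rw [← hc.cardV]
    symm
    rw [hc.cardV]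
    conv_lhs => rw [← hc.cardV]
    exact Nat.card_congr (f.subtypeEquiv fun g => B.pow_one_iff ν (hf g) (by simp))
  · rw [← hc.cardG]; exact (Nat.card_congr f).symm

theorem ctx_semidirect (H N : Type) [CommGroup H] [CommGroup N] [Finite H] [Finite N]
    (θ : H →* MulAut N) (hc : (Nat.card H).Coprime (Nat.card N)) :
    Ctx (N ⋊[θ] H) (Nat.card N) (Nat.card H) := by
  have key : ∀ x : N ⋊[θ] H, x ^ Nat.card N = 1 ↔ x.right = 1 := by
    intro x
    constructor
    · intro hx
      have h1 : x.right ^ Nat.card N = 1 := by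
        have := congrArg (SemidirectProduct.rightHom (φ := θ)) hx
        rw [map_pow, map_one] at this
        exact this
      have h2 : orderOf x.right ∣ Nat.card N := orderOf_dvd_of_pow_eq_one h1
      have h3 : orderOf x.right ∣ Nat.card H := orderOf_dvd_natCard _
      exact orderOf_eq_one_iff.mp (Nat.eq_one_of_dvd_coprimes hc h3 h2)
    · intro hx
      have : x = SemidirectProduct.inl x.left := by ext <;> simp [hx]
      rw [this, ← map_pow, pow_card_eq_one', map_one]
  refine ⟨fun x y hx hy => ?_, fun x y => ?_, ?_, ?_, hc⟩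
  · rw [key] at hx hy
    ext <;> simp [hx, hy, mul_comm]
  · rw [key]; simp
  · refine Nat.card_congr
      { toFun := fun x => x.1.left
        invFun := fun n => ⟨SemidirectProduct.inl n, (key _).mpr (by simp)⟩
        left_inv := fun x => ?_
        right_inv := fun n => by simp }
    have := (key _).mp x.2
    apply Subtype.ext
    ext <;> simp [this]
  · rw [← Nat.card_prod]
    exact Nat.card_congr SemidirectProduct.equivProd

end GrL

end Pool.Agent.MP_88b4a2_lc
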