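import Mathlib

/-! Lovasz-type lemmas: finite modules with the same numbers of homomorphisms from every
test module are isomorphic. -/

namespace Pool.Agent.MP_88b4a2_lc

namespace Lovasz

/-- Moebius-type inversion over a finite poset. -/
theorem moebius {L S S' : Type} [PartialOrder L] [Finite L] [Finite S] [Finite S']
    (k : S → L) (k' : S' → L)
    (h : ∀ K : L, Nat.card {s // K ≤ k s} = Nat.card {s // K ≤ k' s}) (K : L) :
    Nat.card {s // k s = K} = Nat.card {s // k' s = K} := by
  classical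
  have key : ∀ {T : Type} [Finite T] (t : T → L) (K : L),
      Nat.card {s // K ≤ t s} = Nat.card {s // t s = K} +
        ∑ K' ∈ (Set.toFinite {K' | K < K'}).toFinset, Nat.card {s // t s = K'} := by
    intro T _ t K
    have := Fintype.ofFinite T
    simp only [Nat.card_eq_fintype_card, Fintype.card_subtype]
    rw [← Finset.card_biUnion, ← Finset.card_union_of_disjoint]
    · congr 1
      ext s
      simp only [Finset.mem_filter, Finset.mem_univ, true_and, Finset.mem_union,
        Finset.mem_biUnion, Set.Finite.mem_toFinset, Set.mem_ofPred_eq]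
      constructor
      · intro hs
        rcases hs.eq_or_lt with h1 | h1
        · exact Or.inl h1.symm
        · exact Or.inr ⟨_, h1, rfl⟩
      · rintro (h1 | ⟨K', h1, h2⟩)
        · exact h1.ge
        · exact h2 ▸ h1.le
    · rw [Finset.disjoint_left]
      intro s hs hs'
      simp only [Finset.mem_filter, Finset.mem_univ, true_and, Finset.mem_biUnion,
        Set.Finite.mem_toFinset, Set.mem_ofPred_eq] at hs hs'
      obtain ⟨K', h1, h2⟩ := hs'
      rw [← h2, hs] at h1
      exact lt_irrefl _ h1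
    · intro K1 _ K2 _ hne
      simp only [Function.onFun]
      rw [Finset.disjoint_left]
      intro s hs hs'
      simp only [Finset.mem_filter, Finset.mem_univ, true_and] at hs hs'
      exact hne (hs.symm.trans hs')
  induction K using WellFoundedGT.induction with
  | ind K ih =>
    have h1 := key k K
    have h2 := key k' K
    have h3 : ∑ K' ∈ (Set.toFinite {K' | K < K'}).toFinset, Nat.card {s // k s = K'} =
        ∑ K' ∈ (Set.toFinite {K' | K < K'}).toFinset, Nat.card {s // k' s = K'} := by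
      refine Finset.sum_congr rfl fun K' hK' => ih K' ?_
      simpa using hK'
    have h4 := h K
    omega

section General

variable {R : Type} [CommRing R]

/-- Homomorphisms over a base module. -/
abbrev HomOver {X M C : Type} [AddCommGroup X] [Module R X] [AddCommGroup M] [Module R M]
    [AddCommGroup C] [Module R C] (ξ : X →ₗ[R] C) (f : M →ₗ[R] C) : Type :=
  {φ : X →ₗ[R] M // ∀ x, f (φ x) = ξ x}

theorem finite_hom (X M : Type) [AddCommGroup X] [Module R X] [AddCommGroup M] [Module R M]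
    [Finite X] [Finite M] : Finite (X →ₗ[R] M) :=
  Finite.of_injective (fun φ : X →ₗ[R] M => (φ : X → M)) DFunLike.coe_injective

theorem card_ker_ge {X M C : Type} [AddCommGroup X] [Module R X] [AddCommGroup M] [Module R M]
    [AddCommGroup C] [Module R C] (ξ : X →ₗ[R] C) (f : M →ₗ[R] C) (K : Submodule R X)
    (hK : K ≤ LinearMap.ker ξ) :
    Nat.card {φ : HomOver ξ f // K ≤ LinearMap.ker φ.1} = Nat.card (HomOver (K.liftQ ξ hK) f) := by
  refine Nat.card_congr
    { toFun := fun φ => ⟨K.liftQ φ.1.1 φ.2, fun x => ?_⟩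
      invFun := fun ψ => ⟨⟨ψ.1 ∘ₗ K.mkQ, fun x => ?_⟩, fun x hx => ?_⟩
      left_inv := fun φ => ?_
      right_inv := fun ψ => ?_ }
  · obtain ⟨x, rfl⟩ := K.mkQ_surjective x
    simpa using φ.1.2 x
  · simpa using ψ.2 (K.mkQ x)
  · have : K.mkQ x = 0 := by simpa using hx
    simp only [LinearMap.mem_ker, LinearMap.comp_apply, this, map_zero]
  · ext x
    simp
  · apply Subtype.ext
    apply Submodule.linearMap_qext
    ext x
    simp

theorem exists_inj (I : Ideal R) {M M' C : Type} [AddCommGroup M] [Module R M]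
    [AddCommGroup M'] [Module R M'] [AddCommGroup C] [Module R C] [Finite M] [Finite M']
    (f : M →ₗ[R] C) (f' : M' →ₗ[R] C) (hM : ∀ r ∈ I, ∀ x : M, r • x = 0)
    (hH : ∀ (X : Type) [AddCommGroup X] [Module R X] [Finite X] (ξ : X →ₗ[R] C),
      (∀ r ∈ I, ∀ x : X, r • x = 0) → Nat.card (HomOver ξ f) = Nat.card (HomOver ξ f')) :
    ∃ φ : M →ₗ[R] M', Function.Injective φ ∧ ∀ x, f' (φ x) = f x := by
  have := finite_hom (R := R) M M
  have := finite_hom (R := R) M M'
  have : Finite (Submodule R M) :=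
    Finite.of_injective (fun K : Submodule R M => (K : Set M)) SetLike.coe_injective
  have h := moebius (fun φ : HomOver f f => LinearMap.ker φ.1)
    (fun φ : HomOver f f' => LinearMap.ker φ.1) (fun K => ?_) ⊥
  · have h1 : 0 < Nat.card {φ : HomOver f f // LinearMap.ker φ.1 = ⊥} := by
      rw [Nat.card_pos_iff]
      exact ⟨⟨⟨⟨LinearMap.id, fun _ => rfl⟩, LinearMap.ker_id⟩⟩, inferInstance⟩
    rw [h, Nat.card_pos_iff] at h1
    obtain ⟨⟨⟨⟨φ, hφ⟩, hk⟩⟩, -⟩ := h1
    exact ⟨φ, LinearMap.ker_eq_bot.1 hk, hφ⟩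
  · by_cases hK : K ≤ LinearMap.ker f
    · rw [card_ker_ge f f K hK, card_ker_ge f f' K hK]
      have : Finite (M ⧸ K) := Finite.of_surjective _ K.mkQ_surjective
      refine hH _ _ fun r hr x => ?_
      obtain ⟨x, rfl⟩ := K.mkQ_surjective x
      rw [← map_smul, hM r hr, map_zero]
    · have e1 : IsEmpty {φ : HomOver f f // K ≤ LinearMap.ker φ.1} := by
        refine ⟨fun φ => hK fun x hx => ?_⟩
        have := φ.2 hx
        rw [LinearMap.mem_ker] at this ⊢
        rw [← φ.1.2 x, this, map_zero]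
      have e2 : IsEmpty {φ : HomOver f f' // K ≤ LinearMap.ker φ.1} := by
        refine ⟨fun φ => hK fun x hx => ?_⟩
        have := φ.2 hx
        rw [LinearMap.mem_ker] at this ⊢
        rw [← φ.1.2 x, this, map_zero]
      rw [Nat.card_of_isEmpty, Nat.card_of_isEmpty]

theorem exists_equiv (I : Ideal R) {M M' C : Type} [AddCommGroup M] [Module R M]
    [AddCommGroup M'] [Module R M'] [AddCommGroup C] [Module R C] [Finite M] [Finite M']
    (f : M →ₗ[R] C) (f' : M' →ₗ[R] C) (hM : ∀ r ∈ I, ∀ x : M, r • x = 0)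
    (hM' : ∀ r ∈ I, ∀ x : M', r • x = 0)
    (hH : ∀ (X : Type) [AddCommGroup X] [Module R X] [Finite X] (ξ : X →ₗ[R] C),
      (∀ r ∈ I, ∀ x : X, r • x = 0) → Nat.card (HomOver ξ f) = Nat.card (HomOver ξ f')) :
    ∃ α : M ≃ₗ[R] M', ∀ x, f' (α x) = f x := by
  obtain ⟨φ, hφ, hf⟩ := exists_inj I f f' hM hH
  obtain ⟨ψ, hψ, -⟩ := exists_inj I f' f hM' fun X _ _ _ ξ hX => (hH X ξ hX).symm
  have hb : Function.Bijective φ := by
    refine hφ.bijective_of_nat_card_le ?_
    exact Nat.card_le_card_of_injective ψ hψ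
  exact ⟨LinearEquiv.ofBijective φ hb, hf⟩

/-- Counting homomorphisms out of a direct sum of a cyclic module and a complement. -/
theorem card_split (I : Ideal R) {X M C : Type} [AddCommGroup X] [Module R X]
    [AddCommGroup M] [Module R M] [AddCommGroup C] [Module R C]
    (ξ : X →ₗ[R] C) (f : M →ₗ[R] C) (hM : ∀ r ∈ I, ∀ m : M, r • m = 0)
    (x : X) (Y : Submodule R X) (hc : IsCompl (R ∙ x) Y) (a : R) (ha : a • x = 0)
    (hann : ∀ r : R, r • x = 0 → ∃ r', r - a * r' ∈ I) :
    Nat.card (HomOver ξ f) =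
      Nat.card {m : M // a • m = 0 ∧ f m = ξ x} * Nat.card (HomOver (ξ ∘ₗ Y.subtype) f) := by
  rw [← Nat.card_prod]
  refine Nat.card_congr (Equiv.ofBijective (fun φ => (⟨φ.1 x, ?_, φ.2 x⟩,
    ⟨φ.1 ∘ₗ Y.subtype, fun y => φ.2 y⟩)) ⟨?_, ?_⟩)
  · rw [← map_smul, ha, map_zero]
  · intro φ ψ hφψ
    have e1 : φ.1 x = ψ.1 x := congrArg (fun t => t.1.1) hφψ
    have e2 : φ.1 ∘ₗ Y.subtype = ψ.1 ∘ₗ Y.subtype := congrArg (fun t => t.2.1) hφψ
    apply Subtype.ext
    ext z
    have hz : z ∈ (R ∙ x) ⊔ Y := by rw [hc.sup_eq_top]; trivial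
    obtain ⟨u, hu, y, hy, rfl⟩ := Submodule.mem_sup.1 hz
    obtain ⟨r, rfl⟩ := Submodule.mem_span_singleton.1 hu
    have h2 : φ.1 y = ψ.1 y := LinearMap.congr_fun e2 (⟨y, hy⟩ : Y)
    rw [map_add, map_add, map_smul, map_smul, e1, h2]
  · rintro ⟨⟨m, hm, hfm⟩, ⟨ψ, hψ⟩⟩
    have hle : Ideal.torsionOf R X x ≤ LinearMap.ker (LinearMap.toSpanSingleton R M m) := by
      intro r hr
      rw [Ideal.mem_torsionOf_iff] at hr
      obtain ⟨r', hr'⟩ := hann r hr
      have h1 := hM _ hr' m
      rw [LinearMap.mem_ker, LinearMap.toSpanSingleton_apply]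
      rw [sub_smul, mul_comm, mul_smul, hm, smul_zero, sub_zero] at h1
      exact h1
    let χ : (R ∙ x) →ₗ[R] M :=
      (Submodule.liftQ _ (LinearMap.toSpanSingleton R M m) hle) ∘ₗ
        (Ideal.quotTorsionOfEquivSpanSingleton R X x).symm.toLinearMap
    have hχ : χ ⟨x, Submodule.mem_span_singleton_self x⟩ = m := by
      have h1 : (Ideal.quotTorsionOfEquivSpanSingleton R X x).symm
          ⟨x, Submodule.mem_span_singleton_self x⟩ = Submodule.Quotient.mk 1 := by
        rw [LinearEquiv.symm_apply_eq, Ideal.quotTorsionOfEquivSpanSingleton_apply_mk, one_smul]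
      simp only [χ, LinearMap.comp_apply, LinearEquiv.coe_coe, h1, Submodule.liftQ_apply,
        LinearMap.toSpanSingleton_apply, one_smul]
    have hx : LinearMap.ofIsCompl hc χ ψ x = m := by
      rw [← hχ]
      exact LinearMap.ofIsCompl_apply_left hc ⟨x, Submodule.mem_span_singleton_self x⟩
    have hy : ∀ y : Y, LinearMap.ofIsCompl hc χ ψ y = ψ y := fun y =>
      LinearMap.ofIsCompl_apply_right hc y
    refine ⟨⟨LinearMap.ofIsCompl hc χ ψ, fun z => ?_⟩, ?_⟩
    · have hz : z ∈ (R ∙ x) ⊔ Y := by rw [hc.sup_eq_top]; trivial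
      obtain ⟨u, hu, y, hy', rfl⟩ := Submodule.mem_sup.1 hz
      obtain ⟨r, rfl⟩ := Submodule.mem_span_singleton.1 hu
      have h2 := hy ⟨y, hy'⟩
      have h3 := hψ ⟨y, hy'⟩
      simp only [LinearMap.comp_apply, Submodule.subtype_apply] at h2 h3
      rw [map_add, map_add, map_add, map_smul, map_smul, map_smul, hx, hfm, h2, h3]
    · simp only [Prod.mk.injEq, Subtype.mk.injEq]
      refine ⟨hx, ?_⟩
      ext y
      exact hy y

/-- The splitting of a cyclic summand of maximal order in the local case. -/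
theorem exists_compl (I : Ideal R) (p : R)
    (hloc : ∀ r : R, (∃ u, u * r - 1 ∈ I) ∨ ∃ r', r - p * r' ∈ I)
    {X : Type} [AddCommGroup X] [Module R X] [Finite X] (hX : ∀ r ∈ I, ∀ z : X, r • z = 0)
    (c : ℕ) (hc : ∀ z : X, p ^ (c + 1) • z = 0) (x : X) (hx : p ^ c • x ≠ 0) :
    ∃ Y : Submodule R X, IsCompl (R ∙ x) Y := by
  have : Finite (Submodule R X) :=
    Finite.of_injective (fun K : Submodule R X => (K : Set X)) SetLike.coe_injective
  have hunit : ∀ (u r : R) (z : X), u * r - 1 ∈ I → u • r • z = z := by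
    intro u r z h
    have := hX _ h z
    rw [sub_smul, one_smul, mul_smul, sub_eq_zero] at this
    exact this
  have hdiv : ∀ (r r' : R) (z : X), r - p * r' ∈ I → r • z = r' • p • z := by
    intro r r' z h
    have := hX _ h z
    rw [sub_smul, mul_comm, mul_smul, sub_eq_zero] at this
    exact this
  obtain ⟨Y, hY, hmax⟩ := (Set.toFinite {Y : Submodule R X | Disjoint (R ∙ x) Y}).exists_maximal
    ⟨⊥, disjoint_bot_right⟩
  have hY : Disjoint (R ∙ x) Y := hY
  refine ⟨Y, hY, ?_⟩
  rw [codisjoint_iff, eq_top_iff]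
  have step : ∀ z : X, p • z ∈ (R ∙ x) ⊔ Y → z ∈ (R ∙ x) ⊔ Y := by
    intro z hz
    by_contra hzS
    obtain ⟨u, hu, y, hy, hpz⟩ := Submodule.mem_sup.1 hz
    obtain ⟨r, rfl⟩ := Submodule.mem_span_singleton.1 hu
    have h0 : p ^ c • r • x = 0 := by
      have h1 : p ^ c • r • x + p ^ c • y = 0 := by
        rw [← smul_add, hpz, ← mul_smul, ← pow_succ, hc]
      have h2 : p ^ c • r • x ∈ Y := by
        rw [eq_neg_of_add_eq_zero_left h1]
        exact Y.neg_mem (Y.smul_mem _ hy)
      exact (Submodule.disjoint_def.1 hY) _ (Submodule.smul_mem _ _ hu) h2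
    rcases hloc r with ⟨u, hu'⟩ | ⟨r', hr'⟩
    · apply hx
      rw [← hunit u r x hu', smul_comm, h0, smul_zero]
    · have hz'Y : p • (z - r' • x) ∈ Y := by
        have : p • (z - r' • x) = y := by
          rw [smul_sub, ← hpz, hdiv r r' x hr', smul_comm p r' x]
          abel
        rw [this]
        exact hy
      have hz'S : z - r' • x ∉ (R ∙ x) ⊔ Y := by
        intro h
        apply hzS
        have h2 : r' • x ∈ (R ∙ x) ⊔ Y :=
          Submodule.mem_sup_left (Submodule.smul_mem _ _ (Submodule.mem_span_singleton_self x))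
        simpa using Submodule.add_mem _ h h2
      have hdisj : Disjoint (R ∙ x) (Y ⊔ R ∙ (z - r' • x)) := by
        rw [Submodule.disjoint_def]
        intro w hw hw'
        obtain ⟨y', hy', v, hv, hw2⟩ := Submodule.mem_sup.1 hw'
        obtain ⟨t, rfl⟩ := Submodule.mem_span_singleton.1 hv
        rcases hloc t with ⟨u, hu'⟩ | ⟨t', ht'⟩
        · exfalso
          apply hz'S
          rw [← hunit u t (z - r' • x) hu']
          apply Submodule.smul_mem
          have : t • (z - r' • x) = w - y' := by rw [← hw2]; abel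
          rw [this]
          exact Submodule.sub_mem _ (Submodule.mem_sup_left hw) (Submodule.mem_sup_right hy')
        · refine (Submodule.disjoint_def.1 hY) _ hw ?_
          rw [← hw2, hdiv t t' _ ht']
          exact Y.add_mem hy' (Y.smul_mem _ hz'Y)
      have hle := hmax hdisj le_sup_left
      apply hz'S
      exact Submodule.mem_sup_right
        (hle (Submodule.mem_sup_right (Submodule.mem_span_singleton_self _)))
  have all : ∀ (j : ℕ) (z : X), p ^ j • z ∈ (R ∙ x) ⊔ Y → z ∈ (R ∙ x) ⊔ Y := by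
    intro j
    induction j with
    | zero => intro z hz; simpa using hz
    | succ j ih =>
      intro z hz
      apply ih
      apply step
      rwa [← mul_smul, ← pow_succ']
  intro z _
  apply all (c + 1)
  rw [hc]
  exact Submodule.zero_mem _

theorem ann_local (I : Ideal R) (p : R)
    (hloc : ∀ r : R, (∃ u, u * r - 1 ∈ I) ∨ ∃ r', r - p * r' ∈ I)
    {X : Type} [AddCommGroup X] [Module R X] (hX : ∀ r ∈ I, ∀ z : X, r • z = 0)
    (c : ℕ) (x : X) (hx : p ^ c • x ≠ 0) (r : R) (hr : r • x = 0) :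
    ∃ r', r - p ^ (c + 1) * r' ∈ I := by
  have key : ∀ j ≤ c + 1, ∃ r', r - p ^ j * r' ∈ I := by
    intro j
    induction j with
    | zero => intro _; exact ⟨r, by simp⟩
    | succ j ih =>
      intro hj
      obtain ⟨r', hr'⟩ := ih (by omega)
      rcases hloc r' with ⟨u, hu⟩ | ⟨r'', hr''⟩
      · exfalso
        apply hx
        have h1 := hX _ hr' x
        rw [sub_smul, hr, zero_sub, neg_eq_zero] at h1
        have h2 := hX _ hu (p ^ j • x)
        rw [sub_smul, one_smul, mul_smul, ← mul_smul r', mul_comm r', h1, smul_zero, zero_sub,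
          neg_eq_zero] at h2
        obtain ⟨d, rfl⟩ : ∃ d, c = d + j := ⟨c - j, by omega⟩
        rw [pow_add, mul_smul, h2, smul_zero]
      · refine ⟨r'', ?_⟩
        have : r - p ^ (j + 1) * r'' = (r - p ^ j * r') + p ^ j * (r' - p * r'') := by ring
        rw [this]
        exact I.add_mem hr' (I.mul_mem_left _ hr'')
  exact key _ le_rfl

theorem card_local (I : Ideal R) (p : R) (a : ℕ) (hp : p ^ a ∈ I)
    (hloc : ∀ r : R, (∃ u, u * r - 1 ∈ I) ∨ ∃ r', r - p * r' ∈ I)
    {M M' C : Type} [AddCommGroup M] [Module R M]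
    [AddCommGroup M'] [Module R M'] [AddCommGroup C] [Module R C]
    (f : M →ₗ[R] C) (f' : M' →ₗ[R] C) (hM : ∀ r ∈ I, ∀ x : M, r • x = 0)
    (hM' : ∀ r ∈ I, ∀ x : M', r • x = 0)
    (h : ∀ (b : ℕ) (c : C), Nat.card {m : M // p ^ b • m = 0 ∧ f m = c} =
      Nat.card {m : M' // p ^ b • m = 0 ∧ f' m = c}) (n : ℕ) :
    ∀ (X : Type) [AddCommGroup X] [Module R X] [Finite X] (ξ : X →ₗ[R] C), Nat.card X = n →
      (∀ r ∈ I, ∀ x : X, r • x = 0) → Nat.card (HomOver ξ f) = Nat.card (HomOver ξ f') := by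
  classical
  induction n using Nat.strong_induction_on with
  | _ n ih =>
    intro X _ _ _ ξ hn hX
    have hex : ∃ j : ℕ, ∀ z : X, p ^ j • z = 0 := ⟨a, hX _ hp⟩
    have hspec := Nat.find_spec hex
    rcases hj : Nat.find hex with _ | c
    · rw [hj] at hspec
      have hz : ∀ z : X, z = 0 := by simpa using hspec
      have u1 : Nat.card (HomOver ξ f) = 1 := by
        rw [Nat.card_eq_one_iff_exists]
        refine ⟨⟨0, fun x => by simp [hz x]⟩, fun φ => ?_⟩
        apply Subtype.ext
        ext x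
        simp [hz x]
      have u2 : Nat.card (HomOver ξ f') = 1 := by
        rw [Nat.card_eq_one_iff_exists]
        refine ⟨⟨0, fun x => by simp [hz x]⟩, fun φ => ?_⟩
        apply Subtype.ext
        ext x
        simp [hz x]
      rw [u1, u2]
    · rw [hj] at hspec
      have hmin := Nat.find_min hex (m := c) (by omega)
      push Not at hmin
      obtain ⟨x, hx⟩ := hmin
      obtain ⟨Y, hY⟩ := exists_compl I p hloc hX c hspec x hx
      have hann := ann_local I p hloc hX c x hx
      rw [card_split I ξ f hM x Y hY _ (hspec x) hann,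
        card_split I ξ f' hM' x Y hY _ (hspec x) hann, h]
      congr 1
      have hxY : x ∉ Y := by
        intro hxY
        have := (Submodule.disjoint_def.1 hY.disjoint) x (Submodule.mem_span_singleton_self x) hxY
        apply hx
        rw [this, smul_zero]
      have hlt : Nat.card Y < n := by
        rw [← hn]
        exact Finite.card_subtype_lt hxY
      refine ih _ hlt Y _ rfl fun r hr y => ?_
      apply Subtype.ext
      simpa using hX r hr y

end General

/-- Counting homomorphisms out of a finite abelian group. -/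
theorem card_int {X M C : Type} [AddCommGroup X] [AddCommGroup M] [AddCommGroup C]
    (ξ : X →ₗ[ℤ] C) (f : M →+ C) {ι : Type} [Fintype ι] [DecidableEq ι] (n : ι → ℕ)
    (e : X ≃+ DirectSum ι fun i => ZMod (n i)) :
    Nat.card (HomOver ξ f.toIntLinearMap) =
      ∏ i, Nat.card {m : M // n i • m = 0 ∧
        f m = ξ (e.symm (DirectSum.of (fun i => ZMod (n i)) i 1))} := by
  rw [← Nat.card_pi]
  have hext : ∀ {N : Type} [AddCommGroup N] (φ ψ : X →+ N),
      (∀ i, φ (e.symm (DirectSum.of (fun i => ZMod (n i)) i 1)) =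
        ψ (e.symm (DirectSum.of (fun i => ZMod (n i)) i 1))) → φ = ψ := by
    intro N _ φ ψ hi
    have : φ.comp e.symm.toAddMonoidHom = ψ.comp e.symm.toAddMonoidHom := by
      refine DirectSum.addHom_ext fun i y => ?_
      obtain ⟨k, rfl⟩ := ZMod.intCast_surjective y
      have hk : ((k : ℤ) : ZMod (n i)) = k • (1 : ZMod (n i)) := by simp
      rw [hk, map_zsmul, map_zsmul, map_zsmul]
      exact congrArg _ (hi i)
    ext x
    simpa using DFunLike.congr_fun this (e x)
  refine Nat.card_congr (Equiv.ofBijective (fun φ i =>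
    ⟨φ.1 (e.symm (DirectSum.of (fun i => ZMod (n i)) i 1)), ?_, φ.2 _⟩) ⟨?_, ?_⟩)
  · rw [← map_nsmul, ← map_nsmul, ← map_nsmul]
    simp
  · intro φ ψ hφψ
    have := hext φ.1.toAddMonoidHom ψ.1.toAddMonoidHom fun i =>
      congrArg Subtype.val (congrFun hφψ i)
    apply Subtype.ext
    ext x
    exact DFunLike.congr_fun this x
  · intro m
    let g : ∀ i, ZMod (n i) →+ M := fun i =>
      ZMod.lift (n i) ⟨zmultiplesHom M (m i).1, by simpa using (m i).2.1⟩
    have hg : ∀ i, g i 1 = (m i).1 := by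
      intro i
      have h1 : g i ((1 : ℤ) : ZMod (n i)) = (m i).1 := by
        simp only [g, ZMod.lift_coe]
        simp
      rwa [Int.cast_one] at h1
    let φ : X →+ M := (DirectSum.toAddMonoid g).comp e.toAddMonoidHom
    have hφ : ∀ i, φ (e.symm (DirectSum.of (fun i => ZMod (n i)) i 1)) = (m i).1 := by
      intro i
      simp [φ, hg]
    have hf : f.comp φ = ξ.toAddMonoidHom := by
      refine hext _ _ fun i => ?_
      rw [AddMonoidHom.comp_apply, hφ]
      exact (m i).2.2
    refine ⟨⟨φ.toIntLinearMap, fun x => DFunLike.congr_fun hf x⟩, ?_⟩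
    funext i
    exact Subtype.ext (hφ i)

end Lovasz

theorem lovasz_abelian {Q Q' C : Type} [AddCommGroup Q] [AddCommGroup Q'] [AddCommGroup C]
    [Finite Q] [Finite Q'] (f : Q →+ C) (f' : Q' →+ C)
    (h : ∀ (p r : ℕ) (c : C), p.Prime →
      Nat.card {x : Q // p ^ r • x = 0 ∧ f x = c} = Nat.card {x : Q' // p ^ r • x = 0 ∧ f' x = c}) :
    ∃ α : Q ≃+ Q', ∀ x, f' (α x) = f x := by
  classical
  obtain ⟨α, hα⟩ := Lovasz.exists_equiv (⊥ : Ideal ℤ) f.toIntLinearMap f'.toIntLinearMap
    (by simp) (by simp) (fun X _ inst _ ξ _ => by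
      obtain rfl : inst = AddCommGroup.toIntModule X := Subsingleton.elim _ _
      obtain ⟨ι, _, p, hp, e, ⟨φ⟩⟩ := AddCommGroup.equiv_directSum_zmod_of_finite X
      rw [Lovasz.card_int ξ f _ φ, Lovasz.card_int ξ f' _ φ]
      exact Finset.prod_congr rfl fun i _ => h _ _ _ (hp i))
  exact ⟨α.toAddEquiv, hα⟩

theorem modIso {R M M' : Type} [CommRing R] [AddCommGroup M] [AddCommGroup M'] [Module R M]
    [Module R M'] [Finite M] [Finite M'] (I : Ideal R) (p : R) (a : ℕ) (hp : p ^ a ∈ I)
    (hloc : ∀ r : R, (∃ u, u * r - 1 ∈ I) ∨ ∃ r', r - p * r' ∈ I)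
    (hM : ∀ r ∈ I, ∀ x : M, r • x = 0) (hM' : ∀ r ∈ I, ∀ x : M', r • x = 0)
    (h : ∀ b : ℕ, Nat.card {x : M // p ^ b • x = 0} = Nat.card {x : M' // p ^ b • x = 0}) :
    Nonempty (M ≃ₗ[R] M') := by
  obtain ⟨α, -⟩ := Lovasz.exists_equiv I (0 : M →ₗ[R] PUnit) (0 : M' →ₗ[R] PUnit) hM hM'
    (fun X _ _ _ ξ hX => Lovasz.card_local I p a hp hloc _ _ hM hM' (fun b c => by
      simpa [Subsingleton.elim _ c] using h b) _ X ξ rfl hX)
  exact ⟨α⟩

end Pool.Agent.MP_88b4a2_lc
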