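import Mathlib
import Pool.Agent.MP_88b4a2_lc.Jobs.GLGame
import Pool.Agent.MP_88b4a2_lc.Jobs.Lovasz

/-! The module-theoretic model of a coprime extension of abelian groups. -/

namespace Pool.Agent.MP_88b4a2_lc

namespace GrL

theorem exists_pow_idem (R : Type) [CommRing R] [Finite R] :
    ∃ t : ℕ, 0 < t ∧ ∀ r : R, r ^ t * r ^ t = r ^ t := by
  classical
  have h1 : ∀ r : R, ∃ a b : ℕ, 0 < b ∧ r ^ (a + b) = r ^ a := by
    intro r
    obtain ⟨a, b, hab, h⟩ := Finite.exists_ne_map_eq_of_infinite (fun n : ℕ => r ^ n)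
    rcases lt_or_gt_of_ne hab with h' | h'
    · exact ⟨a, b - a, by omega, by rw [Nat.add_sub_cancel' h'.le]; exact h.symm⟩
    · exact ⟨b, a - b, by omega, by rw [Nat.add_sub_cancel' h'.le]; exact h⟩
  choose a b hb hab using h1
  have := Fintype.ofFinite R
  refine ⟨∏ r, ((a r + 1) * b r), Finset.prod_pos fun r _ => Nat.mul_pos (by omega) (hb r),
    fun r => ?_⟩
  obtain ⟨c, hc⟩ := Finset.dvd_prod_of_mem (fun r => (a r + 1) * b r) (Finset.mem_univ r)
  have hpos : 0 < ∏ r, ((a r + 1) * b r) :=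
    Finset.prod_pos fun r _ => Nat.mul_pos (by omega) (hb r)
  have hc0 : 0 < c := by
    rcases Nat.eq_zero_or_pos c with h | h
    · rw [hc, h] at hpos; simp at hpos
    · exact h
  have key : ∀ n, r ^ (a r + b r * n) = r ^ a r := by
    intro n
    induction n with
    | zero => simp
    | succ n ih => rw [Nat.mul_succ, ← add_assoc, add_right_comm, pow_add, hab, ← pow_add, ih]
  rw [hc]
  obtain ⟨d, hd⟩ : ∃ d, (a r + 1) * b r * c = a r + d := by
    refine ⟨(a r + 1) * b r * c - a r, ?_⟩
    have : a r + 1 ≤ (a r + 1) * b r * c := by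
      rw [mul_assoc]; exact Nat.le_mul_of_pos_right _ (Nat.mul_pos (hb r) hc0)
    omega
  have h2 : (a r + 1) * b r * c + (a r + 1) * b r * c = a r + b r * ((a r + 1) * c) + d := by
    have : b r * ((a r + 1) * c) = (a r + 1) * b r * c := by ring
    rw [this]; omega
  rw [← pow_add, h2, pow_add, key, ← pow_add, hd]

theorem exists_idem (R : Type) [CommRing R] [Finite R] [Fintype (MaximalSpectrum R)] :
    ∃ (t : ℕ) (e : MaximalSpectrum R → R), (∀ j, e j * e j = e j) ∧
      (∀ i j, i ≠ j → e i * e j = 0) ∧ ∑ j, e j = 1 ∧ (∀ j, 1 - e j ∈ j.asIdeal) ∧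
      ∀ j, ∀ r ∈ j.asIdeal, r ^ t * e j = 0 := by
  classical
  obtain ⟨t, ht, hid⟩ := exists_pow_idem R
  have hz : ∀ x : R, x * x = x → (∀ j : MaximalSpectrum R, x ∈ j.asIdeal) → x = 0 := by
    intro x hx hj
    by_contra hne
    have hnu : (Ideal.span {1 - x}) ≠ ⊤ := by
      rw [Ne, Ideal.span_singleton_eq_top]
      intro hu
      apply hne
      have : (1 - x) * x = 0 := by rw [sub_mul, one_mul, hx, sub_self]
      exact (hu.mul_right_eq_zero).mp this
    obtain ⟨m, hm, hle⟩ := Ideal.exists_le_maximal _ hnu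
    have h1 : 1 - x ∈ m := hle (Ideal.mem_span_singleton_self _)
    have h2 : x ∈ m := hj ⟨m, hm⟩
    exact hm.ne_top ((Ideal.eq_top_iff_one _).mpr (by simpa using m.add_mem h1 h2))
  have hsep : ∀ i j : MaximalSpectrum R, ∃ x, x ∉ j.asIdeal ∧ (i ≠ j → x ∈ i.asIdeal) := by
    intro i j
    by_cases h : i = j
    · exact ⟨1, fun h1 => j.isMaximal.ne_top ((Ideal.eq_top_iff_one _).mpr h1),
        fun h' => absurd h h'⟩
    · by_contra hcon
      push Not at hcon
      have hle : i.asIdeal ≤ j.asIdeal := fun x hx => by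
        by_contra hx'
        exact (hcon x hx').2 hx
      exact h (MaximalSpectrum.ext (i.isMaximal.eq_of_le j.isMaximal.ne_top hle))
  choose x hx hx' using hsep
  let e : MaximalSpectrum R → R := fun j => (∏ i, x i j) ^ t
  have he1 : ∀ j, e j * e j = e j := fun j => hid _
  have he2 : ∀ j, e j ∉ j.asIdeal := by
    intro j h
    have hp := j.isMaximal.isPrime
    obtain ⟨i, -, hi⟩ := (Ideal.IsPrime.prod_mem_iff (hp := hp)).mp (hp.mem_of_pow_mem _ h)
    exact hx i j hi
  have he3 : ∀ i j, i ≠ j → e j ∈ i.asIdeal := by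
    intro i j h
    exact Ideal.pow_mem_of_mem _ (Ideal.prod_mem _ (Finset.mem_univ i) (hx' i j h)) _ ht
  have he4 : ∀ j, 1 - e j ∈ j.asIdeal := by
    intro j
    have : (1 - e j) * e j ∈ j.asIdeal := by
      rw [sub_mul, one_mul, he1, sub_self]; exact zero_mem _
    exact (j.isMaximal.isPrime.mem_or_mem this).resolve_right (he2 j)
  have he5 : ∀ i j, i ≠ j → e i * e j = 0 := by
    intro i j h
    refine hz _ (by rw [mul_mul_mul_comm, he1, he1]) fun m => ?_
    by_cases hm : m = i
    · exact Ideal.mul_mem_left _ _ (he3 _ _ (hm ▸ h))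
    · exact Ideal.mul_mem_right _ _ (he3 _ _ hm)
  have he6 : ∀ j, e j * ∑ i, e i = e j := by
    intro j
    rw [Finset.mul_sum, Finset.sum_eq_single j (fun i _ hi => he5 _ _ hi.symm) (by simp), he1]
  refine ⟨t, e, he1, he5, ?_, he4, fun j r hr => ?_⟩
  · symm
    rw [← sub_eq_zero]
    refine hz _ ?_ fun m => ?_
    · have : (∑ i, e i) * ∑ i, e i = ∑ i, e i := by
        rw [Finset.sum_mul]; exact Finset.sum_congr rfl fun i _ => he6 i
      linear_combination this
    · rw [← Finset.add_sum_erase _ _ (Finset.mem_univ m), ← sub_sub]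
      exact m.asIdeal.sub_mem (he4 m) (Ideal.sum_mem _ fun i hi =>
        he3 _ _ (Finset.ne_of_mem_erase hi).symm)
  · refine hz _ (by rw [mul_mul_mul_comm, he1, hid]) fun m => ?_
    by_cases hm : m = j
    · exact Ideal.mul_mem_right _ _ (Ideal.pow_mem_of_mem _ (hm ▸ hr) _ ht)
    · exact Ideal.mul_mem_left _ _ (he3 _ _ hm)

theorem gen_closure {A Q : Type} [Ring A] [Monoid Q] (τ : Q →* A) :
    AddSubgroup.closure (Set.range (τ.codRestrict (Subring.closure (Set.range τ))
      (fun q => Subring.subset_closure ⟨q, rfl⟩))) = ⊤ := by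
  rw [eq_top_iff]
  rintro ⟨x, hx⟩ -
  have h1 : x ∈ AddSubgroup.closure (Set.range τ) := by
    have := Subring.mem_closure_iff.mp hx
    rwa [← MonoidHom.coe_mrange, Submonoid.closure_eq] at this
  have hm : ∀ y, y ∈ AddSubgroup.closure (Set.range τ) → y ∈ Subring.closure (Set.range τ) := by
    intro y hy
    refine Subring.mem_closure_iff.mpr (AddSubgroup.closure_mono Submonoid.subset_closure hy)
  induction h1 using AddSubgroup.closure_induction with
  | mem y hy =>
    obtain ⟨q, rfl⟩ := hy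
    exact AddSubgroup.subset_closure ⟨q, rfl⟩
  | zero => exact zero_mem _
  | add y z hy hz ihy ihz => exact add_mem (ihy (hm _ hy)) (ihz (hm _ hz))
  | neg y hy ih => exact neg_mem (ih (hm _ hy))

theorem frob {S Q : Type} [CommRing S] [Monoid Q] (τ : Q →* S)
    (hgen : AddSubgroup.closure (Set.range τ) = ⊤) (p N : ℕ) (hp : p.Prime)
    (hq : ∀ q : Q, q ^ p ^ N = q) (s : S) : ∃ s', s ^ p ^ N = s + p * s' := by
  have hs : s ∈ AddSubgroup.closure (Set.range τ) := hgen ▸ AddSubgroup.mem_top s
  have hpos : p ^ N ≠ 0 := pow_ne_zero _ hp.ne_zero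
  induction hs using AddSubgroup.closure_induction with
  | mem y hy =>
    obtain ⟨q, rfl⟩ := hy
    exact ⟨0, by rw [← map_pow, hq]; simp⟩
  | zero => exact ⟨0, by rw [zero_pow hpos]; simp⟩
  | add y z _ _ ihy ihz =>
    obtain ⟨y', hy'⟩ := ihy
    obtain ⟨z', hz'⟩ := ihz
    obtain ⟨r, hr⟩ := exists_add_pow_prime_pow_eq hp y z N
    exact ⟨y' + z' + y * z * r, by rw [hr, hy', hz']; ring⟩
  | neg y _ ih =>
    obtain ⟨y', hy'⟩ := ih
    obtain ⟨r, hr⟩ := exists_add_pow_prime_pow_eq hp y (-y) N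
    rw [add_neg_cancel, zero_pow hpos, hy'] at hr
    exact ⟨-y' + y * y * r, by linear_combination -hr⟩

/-- A model of the group: an abelian normal subgroup `V` as a faithful module over a
commutative ring `R` spanned by the image of the abelian quotient `Q`, with its blocks `J`. -/
structure Md (G V R Q J : Type) [Group G] [AddCommGroup V] [CommRing R] [Module R V]
    [CommGroup Q] [Fintype J] (ν μ : ℕ) where
  ι : V → G
  π : G →* Q
  ρ : Q →* R
  mx : J → Ideal R
  e : J → R
  t : ℕ
  ι_add : ∀ v w, ι (v + w) = ι v * ι w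
  ι_inj : Function.Injective ι
  mem_iff : ∀ g, g ^ ν = 1 ↔ ∃ v, ι v = g
  π_surj : Function.Surjective π
  π_eq_one : ∀ g, π g = 1 ↔ g ^ ν = 1
  conj : ∀ g v, ι (ρ (π g) • v) = g * ι v * g⁻¹
  gen : AddSubgroup.closure (Set.range ρ) = ⊤
  faithful : ∀ r : R, (∀ v : V, r • v = 0) → r = 0
  cardQ : Nat.card Q = μ
  cardV : Nat.card V = ν
  cop : μ.Coprime ν
  max : ∀ j, (mx j).IsMaximal
  e_mul : ∀ j, e j * e j = e j
  e_orth : ∀ i j, i ≠ j → e i * e j = 0
  e_sum : ∑ j, e j = 1
  e_one : ∀ j, 1 - e j ∈ mx j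
  e_nil : ∀ j, ∀ r ∈ mx j, r ^ t * e j = 0

theorem exists_md (G : Type) [Group G] [Finite G] {ν μ : ℕ} (hc : Ctx G ν μ) :
    ∃ (V R Q J : Type) (_ : AddCommGroup V) (_ : CommRing R) (_ : Module R V) (_ : CommGroup Q)
      (_ : Fintype J) (_ : Finite V) (_ : Finite R) (_ : Finite Q),
      Nonempty (Md G V R Q J ν μ) := by
  classical
  let W : Subgroup G :=
    { carrier := {x | x ^ ν = 1}
      mul_mem' := fun {a b} ha hb => by
        have h : Commute a b := hc.comm a b ha hb
        show (a * b) ^ ν = 1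
        rw [h.mul_pow, ha, hb, one_mul]
      one_mem' := one_pow _
      inv_mem' := fun {a} ha => by
        show a⁻¹ ^ ν = 1
        rw [inv_pow, ha, inv_one] }
  have hW : ∀ x, x ∈ W ↔ x ^ ν = 1 := fun _ => Iff.rfl
  haveI hN : W.Normal := ⟨fun n hn g => by
    rw [hW] at hn ⊢
    rw [conj_pow, hn]; simp⟩
  letI iW : CommGroup W :=
    { (inferInstance : Group W) with
      mul_comm := fun a b => Subtype.ext (hc.comm _ _ a.2 b.2) }
  letI iQ : CommGroup (G ⧸ W) :=
    { (inferInstance : Group (G ⧸ W)) with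
      mul_comm := fun a b => by
        obtain ⟨a, rfl⟩ := QuotientGroup.mk_surjective a
        obtain ⟨b, rfl⟩ := QuotientGroup.mk_surjective b
        rw [← QuotientGroup.mk_mul, ← QuotientGroup.mk_mul, QuotientGroup.eq, hW]
        simpa [mul_assoc] using hc.cmt b⁻¹ a⁻¹ }
  let c : G →* AddMonoid.End (Additive W) :=
    { toFun := fun g => MonoidHom.toAdditive (MulAut.conjNormal (H := W) g).toMonoidHom
      map_one' := by rw [map_one]; rfl
      map_mul' := fun a b => by rw [map_mul]; rfl }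
  have hcv : ∀ g (v : Additive W), ((c g v).toMul : G) = g * (v.toMul : G) * g⁻¹ := by
    intro g v; rfl
  have hker : W ≤ c.ker := by
    intro g hg
    rw [MonoidHom.mem_ker]
    refine AddMonoidHom.ext fun v => ?_
    apply Additive.toMul.injective
    apply Subtype.ext
    refine (hcv g v).trans ?_
    rw [hc.comm g _ hg v.toMul.2, mul_inv_cancel_right]
    rfl
  let cQ : G ⧸ W →* AddMonoid.End (Additive W) := QuotientGroup.lift W c hker
  let R := Subring.closure (Set.range cQ)
  have hcomm : IsMulCommutative R := Subring.isMulCommutative_closure (by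
    rintro _ ⟨a, rfl⟩ _ ⟨b, rfl⟩
    rw [← map_mul, ← map_mul, mul_comm])
  letI iR : CommRing R := { (inferInstance : Ring R) with mul_comm := hcomm.is_comm.comm }
  have hfE : Finite (AddMonoid.End (Additive W)) :=
    Finite.of_injective (fun f : Additive W →+ Additive W => (f : Additive W → Additive W))
      DFunLike.coe_injective
  have hfR : Finite R := inferInstance
  have hfI : Finite (Ideal R) :=
    Finite.of_injective (fun K : Ideal R => (K : Set R)) SetLike.coe_injective
  have hfJ : Finite (MaximalSpectrum R) :=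
    Finite.of_injective (fun j : MaximalSpectrum R => j.asIdeal) fun _ _ h => MaximalSpectrum.ext h
  letI iJ := Fintype.ofFinite (MaximalSpectrum R)
  obtain ⟨t, e, h1, h2, h3, h4, h5⟩ := exists_idem R
  have hcW : Nat.card W = ν := hc.cardV
  have hν : ν ≠ 0 := by rw [← hcW]; exact Nat.card_pos.ne'
  refine ⟨Additive W, R, G ⧸ W, MaximalSpectrum R, inferInstance, iR,
    (inferInstance : Module R (Additive W)), iQ, iJ, inferInstance, hfR, inferInstance,
    ⟨{ ι := fun v => (v.toMul : G)
       π := QuotientGroup.mk' W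
       ρ := cQ.codRestrict R (fun q => Subring.subset_closure ⟨q, rfl⟩)
       mx := fun j => j.asIdeal
       e := e
       t := t
       ι_add := fun _ _ => rfl
       ι_inj := fun a b h => Additive.toMul.injective (Subtype.ext h)
       mem_iff := fun g => ⟨fun h => ⟨Additive.ofMul ⟨g, h⟩, rfl⟩, ?_⟩
       π_surj := QuotientGroup.mk'_surjective W
       π_eq_one := fun g => QuotientGroup.eq_one_iff g
       conj := fun g v => hcv g v
       gen := gen_closure cQ
       faithful := fun r hr => Subtype.ext (AddMonoidHom.ext hr)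
       cardQ := ?_
       cardV := hcW
       cop := hc.cop
       max := fun j => j.isMaximal
       e_mul := h1
       e_orth := h2
       e_sum := h3
       e_one := h4
       e_nil := h5 }⟩⟩
  · rintro ⟨v, rfl⟩
    exact v.toMul.2
  · have := Subgroup.card_eq_card_quotient_mul_card_subgroup W
    rw [hc.cardG, hcW, mul_comm] at this
    exact (Nat.eq_of_mul_eq_mul_right (Nat.pos_of_ne_zero hν) this).symm

end GrL

end Pool.Agent.MP_88b4a2_lc
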