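import Mathlib
import Pool.Agent.MP_88b4a2_lc.Jobs.GLAlg

/-! Blocks, simple elements, characters and the gluing of module isomorphisms. -/

namespace Pool.Agent.MP_88b4a2_lc

namespace GrL

namespace Md

variable {G V R Q J : Type} [Group G] [AddCommGroup V] [CommRing R] [Module R V]
  [CommGroup Q] [Fintype J] {ν μ : ℕ} (M : Md G V R Q J ν μ)

theorem ι_zero : M.ι 0 = 1 := by
  have := M.ι_add 0 0
  rw [add_zero] at this
  exact left_eq_mul.mp this

theorem ι_eq_one {v : V} : M.ι v = 1 ↔ v = 0 := by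
  rw [← M.ι_zero]; exact M.ι_inj.eq_iff

theorem ι_neg (v : V) : M.ι (-v) = (M.ι v)⁻¹ := by
  have := M.ι_add v (-v)
  rw [add_neg_cancel, M.ι_zero] at this
  exact (inv_eq_of_mul_eq_one_right this.symm).symm

theorem ι_nsmul (n : ℕ) (v : V) : M.ι (n • v) = M.ι v ^ n := by
  induction n with
  | zero => simp [M.ι_zero]
  | succ n ih => rw [succ_nsmul, M.ι_add, ih, pow_succ]

theorem π_ι (v : V) : M.π (M.ι v) = 1 := (M.π_eq_one _).mpr ((M.mem_iff _).mpr ⟨v, rfl⟩)

theorem ext_e {v w : V} (h : ∀ j, M.e j • v = M.e j • w) : v = w := by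
  rw [← one_smul R v, ← one_smul R w, ← M.e_sum, Finset.sum_smul, Finset.sum_smul]
  exact Finset.sum_congr rfl fun j _ => h j

theorem e_e (j : J) (v : V) : M.e j • M.e j • v = M.e j • v := by rw [← mul_smul, M.e_mul]

theorem e_e_ne {i j : J} (h : i ≠ j) (v : V) : M.e i • M.e j • v = 0 := by
  rw [← mul_smul, M.e_orth i j h, zero_smul]

theorem exists_comp (w : J → V) : ∃ n : V, ∀ j, M.e j • n = M.e j • w j := by
  classical
  refine ⟨∑ j, M.e j • w j, fun j => ?_⟩
  rw [Finset.smul_sum, Finset.sum_eq_single j (fun i _ hi => M.e_e_ne hi.symm _) (by simp),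
    M.e_e]

/-- A nonzero element killed by the maximal ideal of the block `j`. -/
def IsS (j : J) (y : V) : Prop := y ≠ 0 ∧ ∀ r ∈ M.mx j, r • y = 0

variable {M}

theorem IsS.ann {j : J} {y : V} (h : M.IsS j y) (r : R) : r • y = 0 ↔ r ∈ M.mx j := by
  refine ⟨fun hr => ?_, h.2 r⟩
  by_contra hm
  obtain ⟨u, c, hc, h1⟩ := (M.max j).exists_inv hm
  apply h.1
  rw [← one_smul R y, ← h1, add_smul, mul_smul, hr, h.2 c hc]; simp

theorem IsS.e_self {j : J} {y : V} (h : M.IsS j y) : M.e j • y = y := by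
  have := h.2 _ (M.e_one j)
  rw [sub_smul, one_smul, sub_eq_zero] at this
  exact this.symm

theorem IsS.e_ne {i j : J} {y : V} (h : M.IsS j y) (hij : i ≠ j) : M.e i • y = 0 := by
  rw [← h.e_self, M.e_e_ne hij]

theorem IsS.uniq {i j : J} {y : V} (h : M.IsS j y) (h' : M.IsS i y) : i = j := by
  by_contra hij
  exact h.1 (by rw [← h'.e_self, h.e_ne hij])

theorem IsS.smul {j : J} {y : V} (h : M.IsS j y) {r : R} (hr : r • y ≠ 0) : M.IsS j (r • y) :=
  ⟨hr, fun s hs => by rw [smul_comm, h.2 s hs, smul_zero]⟩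

variable (M)

theorem supp_iff [Finite V] (j : J) (v : V) : M.e j • v ≠ 0 ↔ ∃ r : R, M.IsS j (r • v) := by
  constructor
  · intro hv
    have hne : {n | ∃ r : R, r • M.e j • v ≠ 0 ∧
        n = (Set.range fun s : R => s • r • M.e j • v).ncard}.Nonempty :=
      ⟨_, 1, by simpa using hv, rfl⟩
    obtain ⟨n, ⟨r, hr, rfl⟩, hmin⟩ := Nat.lt_wfRel.wf.has_min _ hne
    refine ⟨r * M.e j, by rwa [mul_smul], fun s hs => ?_⟩
    by_contra hcon
    rw [mul_smul, ← mul_smul s r] at hcon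
    have hsub : (Set.range fun u : R => u • (s * r) • M.e j • v) ⊆
        Set.range fun u : R => u • r • M.e j • v := by
      rintro _ ⟨u, rfl⟩
      exact ⟨u * s, by simp only [mul_smul]⟩
    have heq := Set.eq_of_subset_of_ncard_le hsub (not_lt.mp (hmin _ ⟨s * r, hcon, rfl⟩))
    obtain ⟨u, hu⟩ : r • M.e j • v ∈ Set.range fun u : R => u • (s * r) • M.e j • v := by
      rw [heq]; exact ⟨1, one_smul _ _⟩
    have hit : ∀ n : ℕ, (u * s) ^ n • r • M.e j • v = r • M.e j • v := by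
      intro n
      induction n with
      | zero => simp
      | succ n ih =>
        rw [pow_succ, mul_smul, mul_smul u s, ← mul_smul s r]
        simp only at hu
        rw [hu, ih]
    apply hr
    rw [← hit M.t, smul_comm, ← mul_smul _ (M.e j), M.e_nil j _ (Ideal.mul_mem_left _ _ hs)]
    simp
  · rintro ⟨r, hr⟩ h0
    apply hr.1
    rw [← hr.e_self, smul_comm, h0, smul_zero]

/-- A generator of a simple submodule. -/
def Simple (R : Type) {V : Type} [CommRing R] [AddCommGroup V] [Module R V] (z : V) : Prop :=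
  z ≠ 0 ∧ ∀ w, (∃ r : R, r • z = w) → w ≠ 0 → ∃ s : R, s • w = z

theorem simple_iff [Finite V] (z : V) : Simple R z ↔ ∃ j, M.IsS j z := by
  constructor
  · rintro ⟨h0, h⟩
    obtain ⟨j, hj⟩ : ∃ j, M.e j • z ≠ 0 := by
      by_contra hcon
      push Not at hcon
      exact h0 (M.ext_e fun j => by rw [hcon, smul_zero])
    obtain ⟨r, hr⟩ := (M.supp_iff j z).mp hj
    obtain ⟨s, hs⟩ := h _ ⟨r, rfl⟩ hr.1
    exact ⟨j, hs ▸ hr.smul (by rw [hs]; exact h0)⟩
  · rintro ⟨j, hj⟩
    refine ⟨hj.1, ?_⟩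
    rintro _ ⟨r, rfl⟩ hr
    obtain ⟨u, c, hc, h1⟩ := (M.max j).exists_inv (fun h => hr (hj.2 r h))
    refine ⟨u, ?_⟩
    conv_rhs => rw [← one_smul R z, ← h1, add_smul, mul_smul, hj.2 c hc, add_zero]

theorem same_iff [Finite V] {i j : J} {y z : V} (hy : M.IsS j y) (hz : M.IsS i z) :
    i = j ↔ (y + z = 0 ∨ Simple R (y + z)) := by
  constructor
  · rintro rfl
    by_cases h : y + z = 0
    · exact Or.inl h
    · exact Or.inr ((M.simple_iff _).mpr ⟨i, h, fun r hr => by
        rw [smul_add, hy.2 r hr, hz.2 r hr, add_zero]⟩)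
  · intro h
    by_contra hij
    have h1 : M.e j • (y + z) = y := by rw [smul_add, hy.e_self, hz.e_ne (Ne.symm hij), add_zero]
    have h2 : M.e i • (y + z) = z := by rw [smul_add, hz.e_self, hy.e_ne hij, zero_add]
    rcases h with h | h
    · rw [h, smul_zero] at h1
      exact hy.1 h1.symm
    · obtain ⟨l, hl⟩ := (M.simple_iff _).mp h
      by_cases hlj : j = l
      · rw [hl.e_ne (hlj ▸ hij)] at h2
        exact hz.1 h2.symm
      · rw [hl.e_ne hlj] at h1
        exact hy.1 h1.symm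

theorem exists_isS [Finite V] (j : J) : ∃ y, M.IsS j y := by
  obtain ⟨v, hv⟩ : ∃ v : V, M.e j • v ≠ 0 := by
    by_contra hcon
    push Not at hcon
    have h0 := M.faithful _ hcon
    have h1 := M.e_one j
    rw [h0, sub_zero] at h1
    exact (M.max j).ne_top ((Ideal.eq_top_iff_one _).mpr h1)
  obtain ⟨r, hr⟩ := (M.supp_iff j v).mp hv
  exact ⟨_, hr⟩

/-- The character of the block `j`. -/
def χ (j : J) : Q →* (R ⧸ M.mx j)ˣ :=
  ((Ideal.Quotient.mk (M.mx j)).toMonoidHom.comp M.ρ).toHomUnits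

theorem χ_eq (j : J) (q q' : Q) : M.χ j q = M.χ j q' ↔ M.ρ q - M.ρ q' ∈ M.mx j := by
  rw [← Units.val_inj, ← Ideal.Quotient.eq]
  rfl

theorem IsS.χ_iff {M : Md G V R Q J ν μ} {j : J} {y : V} (h : M.IsS j y) (q q' : Q) :
    M.χ j q = M.χ j q' ↔ M.ρ q • y = M.ρ q' • y := by
  rw [M.χ_eq, ← h.ann, sub_smul, sub_eq_zero]

theorem exists_gen [Finite R] (j : J) : ∃ g : Q, ∀ q, ∃ a : ℤ, M.χ j q = M.χ j g ^ a := by
  haveI := (M.max j).isPrime
  haveI : Finite (R ⧸ M.mx j) := Finite.of_surjective _ Ideal.Quotient.mk_surjective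
  obtain ⟨⟨_, g, rfl⟩, hg⟩ := IsCyclic.exists_generator (α := (M.χ j).range)
  refine ⟨g, fun q => ?_⟩
  obtain ⟨a, ha⟩ := hg ⟨_, q, rfl⟩
  exact ⟨a, (congrArg Subtype.val ha).symm⟩

/-- Every block component of `n0` generates a simple module. -/
def Full (n0 : V) : Prop := ∀ j, M.IsS j (M.e j • n0)

/-- On the block `j` the element `n` is the translate of `n0` by `q`. -/
def At (n0 n : V) (j : J) (q : Q) : Prop := M.e j • n = M.ρ q • M.e j • n0

/-- Base data: a full vector and its translate by generators of the character images. -/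
structure Base (n0 n1 : V) (g : J → Q) : Prop where
  full : M.Full n0
  at1 : ∀ j, M.At n0 n1 j (g j)
  gen : ∀ j q, ∃ a : ℤ, M.χ j q = M.χ j (g j) ^ a

theorem At.uniq {M : Md G V R Q J ν μ} {n0 n : V} (hf : M.Full n0) {j : J} {q q' : Q}
    (h : M.At n0 n j q) (h' : M.At n0 n j q') : M.χ j q = M.χ j q' :=
  ((hf j).χ_iff q q').mpr (h.symm.trans h')

theorem At.congr {M : Md G V R Q J ν μ} {n0 n : V} (hf : M.Full n0) {j : J} {q q' : Q}
    (h : M.At n0 n j q) (h' : M.χ j q = M.χ j q') : M.At n0 n j q' :=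
  Eq.trans h (((hf j).χ_iff q q').mp h')

theorem exists_vec (n0 : V) (q : J → Q) : ∃ n, ∀ j, M.At n0 n j (q j) := by
  obtain ⟨n, hn⟩ := M.exists_comp fun j => M.ρ (q j) • n0
  exact ⟨n, fun j => by rw [At, hn, smul_comm]⟩

theorem at_all {n0 n : V} {q : Q} : (∀ j, M.At n0 n j q) ↔ n = M.ρ q • n0 := by
  constructor
  · intro h
    exact M.ext_e fun j => by rw [h j, smul_comm]
  · rintro rfl j
    rw [At, smul_comm]

theorem exists_base [Finite V] [Finite R] : ∃ n0 n1 g, M.Base n0 n1 g := by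
  choose y hy using M.exists_isS
  choose g hg using M.exists_gen
  obtain ⟨n0, h0⟩ := M.exists_comp y
  obtain ⟨n1, h1⟩ := M.exists_vec n0 g
  exact ⟨n0, n1, g, fun j => by rw [h0, (hy j).e_self]; exact hy j, h1, hg⟩

theorem exists_log (j : J) (g : Q) (hg : ∀ q, ∃ a : ℤ, M.χ j q = M.χ j g ^ a) (m : ℕ)
    (hm : orderOf (M.χ j g) = m) :
    ∃ L : Additive Q →+ ZMod m, ∀ (q : Q) (a : ℤ),
      M.χ j q = M.χ j g ^ a ↔ L (Additive.ofMul q) = (a : ZMod m) := by
  choose a ha using hg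
  have key : ∀ (q : Q) (b : ℤ), M.χ j q = M.χ j g ^ b ↔ (a q : ZMod m) = (b : ZMod m) := by
    intro q b
    rw [ha q, zpow_eq_zpow_iff_modEq, hm, ZMod.intCast_eq_intCast_iff]
  refine ⟨AddMonoidHom.mk' (fun q => (a q.toMul : ZMod m)) fun x y => ?_, key⟩
  rw [← Int.cast_add, ← key, toMul_add, map_mul, zpow_add, ← ha, ← ha]

theorem exists_section [Finite G] : ∃ s : Q →* G, ∀ q, M.π (s q) = q := by
  have hk : Nat.card M.π.ker = ν := by
    refine Eq.trans (Nat.card_congr (Equiv.ofBijective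
      (fun v : V => (⟨M.ι v, M.π_ι v⟩ : M.π.ker)) ⟨fun a b h => ?_, fun x => ?_⟩)).symm M.cardV
    · exact M.ι_inj (congrArg Subtype.val h)
    · obtain ⟨v, hv⟩ := (M.mem_iff _).mp ((M.π_eq_one _).mp x.2)
      exact ⟨v, Subtype.ext hv⟩
  have hi : M.π.ker.index = μ := by
    rw [Subgroup.index_ker, MonoidHom.range_eq_top.mpr M.π_surj, Subgroup.card_top, M.cardQ]
  obtain ⟨H, hH⟩ := Subgroup.exists_right_complement'_of_coprime (N := M.π.ker)
    (by rw [hk, hi]; exact M.cop.symm)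
  have hb : Function.Bijective (M.π.comp H.subtype) := by
    constructor
    · rw [injective_iff_map_eq_one]
      intro x hx
      exact Subtype.ext (Subgroup.disjoint_def.mp hH.disjoint hx x.2)
    · intro q
      obtain ⟨g, rfl⟩ := M.π_surj q
      obtain ⟨⟨n, h⟩, hnh⟩ := hH.2 g
      refine ⟨h, ?_⟩
      have hn : M.π n = 1 := n.2
      rw [← hnh]
      simp [hn]
  refine ⟨H.subtype.comp (MulEquiv.ofBijective _ hb).symm.toMonoidHom, fun q => ?_⟩
  exact (MulEquiv.ofBijective _ hb).apply_symm_apply q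

theorem bij_section {s : Q →* G} (hs : ∀ q, M.π (s q) = q) :
    Function.Bijective fun x : V × Q => M.ι x.1 * s x.2 := by
  constructor
  · rintro ⟨v, q⟩ ⟨w, r⟩ h
    have h1 := congrArg M.π h
    simp only [map_mul, M.π_ι, hs, one_mul] at h1
    subst h1
    simp only [mul_left_inj] at h
    rw [M.ι_inj h]
  · intro g
    obtain ⟨v, hv⟩ := (M.mem_iff (g * (s (M.π g))⁻¹)).mp ((M.π_eq_one _).mp (by simp [hs]))
    exact ⟨(v, M.π g), by simp [hv]⟩

theorem mul_section {s : Q →* G} (hs : ∀ q, M.π (s q) = q) (v w : V) (q r : Q) :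
    M.ι v * s q * (M.ι w * s r) = M.ι (v + M.ρ q • w) * s (q * r) := by
  have := M.conj (s q) w
  rw [hs] at this
  rw [M.ι_add, this, map_mul]
  group

section Two

variable {K V' R' Q' J' : Type} [Group K] [AddCommGroup V'] [CommRing R'] [Module R' V']
  [CommGroup Q'] [Fintype J'] (M' : Md K V' R' Q' J' ν μ)

theorem iso_of [Finite G] [Finite K] (α : Q ≃* Q') (β : V ≃+ V')
    (h : ∀ q v, β (M.ρ q • v) = M'.ρ (α q) • β v) : Nonempty (G ≃* K) := by
  obtain ⟨s, hs⟩ := M.exists_section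
  obtain ⟨s', hs'⟩ := M'.exists_section
  let E := Equiv.ofBijective _ (M.bij_section hs)
  let E' := Equiv.ofBijective _ (M'.bij_section hs')
  let F : G ≃ K := E.symm.trans ((β.toEquiv.prodCongr α.toEquiv).trans E')
  have hF : ∀ v q, F (M.ι v * s q) = M'.ι (β v) * s' (α q) := by
    intro v q
    have : E.symm (M.ι v * s q) = (v, q) := E.symm_apply_apply (v, q)
    simp only [F, Equiv.trans_apply, this]
    rfl
  refine ⟨⟨F, fun x y => ?_⟩⟩
  obtain ⟨⟨v, q⟩, rfl⟩ := (M.bij_section hs).2 x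
  obtain ⟨⟨w, r⟩, rfl⟩ := (M.bij_section hs).2 y
  show F (M.ι v * s q * (M.ι w * s r)) = F (M.ι v * s q) * F (M.ι w * s r)
  rw [M.mul_section hs, hF, hF, hF, M'.mul_section hs', map_add, h, map_mul]

theorem local_iso [Finite V] [Finite V'] [Finite R] [Finite Q] (α : Q ≃* Q') (j : J) (j' : J')
    (hker : ∀ x ∈ AddSubgroup.closure (Set.range (M.ρ.prod (M'.ρ.comp α.toMonoidHom))),
      (x.1 ∈ M.mx j ↔ x.2 ∈ M'.mx j'))
    (hcount : ∀ n : ℕ, Nat.card {v : V // M.e j • v = v ∧ n • v = 0} =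
      Nat.card {v : V' // M'.e j' • v = v ∧ n • v = 0}) :
    ∃ b : V →+ V', (∀ q v, b (M.ρ q • v) = M'.ρ (α q) • b v) ∧
      (∀ v, M'.e j' • b v = b v) ∧ ∀ v, b v = 0 → M.e j • v = 0 := by
  set τ := M.ρ.prod (M'.ρ.comp α.toMonoidHom) with hτ
  let S := Subring.closure (Set.range τ)
  let τS : Q →* S := τ.codRestrict S (fun q => Subring.subset_closure ⟨q, rfl⟩)
  have hgen : AddSubgroup.closure (Set.range τS) = ⊤ := gen_closure τ
  let φ : S →+* R := (RingHom.fst R R').comp S.subtype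
  let φ' : S →+* R' := (RingHom.snd R R').comp S.subtype
  have hk : ∀ s : S, φ s ∈ M.mx j ↔ φ' s ∈ M'.mx j' := by
    intro s
    have := Subring.mem_closure_iff.mp s.2
    rw [← MonoidHom.coe_mrange, Submonoid.closure_eq] at this
    exact hker _ this
  have hsurj : Function.Surjective φ := by
    intro r
    have hr : r ∈ AddSubgroup.closure (Set.range M.ρ) := M.gen ▸ AddSubgroup.mem_top r
    induction hr using AddSubgroup.closure_induction with
    | mem y hy =>
      obtain ⟨q, rfl⟩ := hy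
      exact ⟨τS q, rfl⟩
    | zero => exact ⟨0, map_zero _⟩
    | add y z _ _ hy hz =>
      obtain ⟨a, rfl⟩ := hy
      obtain ⟨b, rfl⟩ := hz
      exact ⟨a + b, map_add _ _ _⟩
    | neg y _ hy =>
      obtain ⟨a, rfl⟩ := hy
      exact ⟨-a, map_neg _ _⟩
  let N : Submodule R V := LinearMap.eqLocus (M.e j • LinearMap.id) LinearMap.id
  let N' : Submodule R' V' := LinearMap.eqLocus (M'.e j' • LinearMap.id) LinearMap.id
  have hN : ∀ v, v ∈ N ↔ M.e j • v = v := fun v => Iff.rfl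
  have hN' : ∀ v, v ∈ N' ↔ M'.e j' • v = v := fun v => Iff.rfl
  letI : Module S N := Module.compHom N φ
  letI : Module S N' := Module.compHom N' φ'
  have hs : ∀ (s : S) (x : N), ((s • x : N) : V) = φ s • (x : V) := fun _ _ => rfl
  have hs' : ∀ (s : S) (x : N'), ((s • x : N') : V') = φ' s • (x : V') := fun _ _ => rfl
  let I : Ideal S := Module.annihilator S N ⊓ Module.annihilator S N'
  have hnil : ∀ s : S, φ s ∈ M.mx j → ∀ T, M.t + M'.t ≤ T → s ^ T ∈ I := by
    intro s h T hT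
    refine ⟨Module.mem_annihilator.mpr fun x => Subtype.ext ?_,
      Module.mem_annihilator.mpr fun x => Subtype.ext ?_⟩
    · obtain ⟨d, rfl⟩ : ∃ d, T = d + M.t := ⟨T - M.t, by omega⟩
      rw [hs, ← (hN _).mp x.2, map_pow, pow_add, ← mul_smul, mul_assoc, M.e_nil j _ h]
      simp
    · obtain ⟨d, rfl⟩ : ∃ d, T = d + M'.t := ⟨T - M'.t, by omega⟩
      rw [hs', ← (hN' _).mp x.2, map_pow, pow_add, ← mul_smul, mul_assoc,
        M'.e_nil j' _ ((hk s).mp h)]
      simp
  haveI := (M.max j).isPrime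
  haveI : Finite (R ⧸ M.mx j) := Finite.of_surjective _ Ideal.Quotient.mk_surjective
  obtain ⟨p, hpc⟩ := CharP.exists (R ⧸ M.mx j)
  have hp : p.Prime := CharP.char_is_prime (R ⧸ M.mx j) p
  have hpm : (p : R) ∈ M.mx j := by
    rw [← Ideal.Quotient.eq_zero_iff_mem, map_natCast]; exact CharP.cast_eq_zero _ p
  have hν : (ν : R) = 0 := M.faithful _ fun v => by
    rw [Nat.cast_smul_eq_nsmul, ← M.cardV]; exact card_nsmul_eq_zero'
  have hpν : p ∣ ν := by
    rw [← CharP.cast_eq_zero_iff (R ⧸ M.mx j) p, ← map_natCast (Ideal.Quotient.mk (M.mx j)), hν,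
      map_zero]
  have hcop : p.Coprime μ := (Nat.Coprime.coprime_dvd_right hpν M.cop).symm
  have hμ : 0 < μ := M.cardQ ▸ Nat.card_pos
  set T := M.t + M'.t with hT
  have hq : ∀ q : Q, q ^ p ^ (μ.totient * T) = q := by
    intro q
    have h1 : p ^ (μ.totient * T) ≡ 1 [MOD μ] := by
      rw [pow_mul]
      simpa using (Nat.ModEq.pow_totient hcop).pow T
    have h2 : q ^ μ = 1 := M.cardQ ▸ pow_card_eq_one'
    have := pow_eq_pow_of_modEq h1 h2
    simpa using this
  have hbig : T ≤ p ^ (μ.totient * T) :=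
    (Nat.le_mul_of_pos_left T (Nat.totient_pos.mpr hμ)).trans (Nat.lt_pow_self hp.one_lt).le
  have hloc : ∀ r : S, (∃ u, u * r - 1 ∈ I) ∨ ∃ r', r - p * r' ∈ I := by
    intro r
    by_cases hr : φ r ∈ M.mx j
    · right
      obtain ⟨s', hs'⟩ := frob τS hgen p _ hp hq r
      refine ⟨-s', ?_⟩
      have : r - p * -s' = r ^ p ^ (μ.totient * T) := by rw [hs']; ring
      rw [this]
      exact hnil _ hr _ hbig
    · left
      obtain ⟨u, c, hc, h1⟩ := (M.max j).exists_inv hr
      obtain ⟨u, rfl⟩ := hsurj u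
      have h2 : φ (1 - u * r) ∈ M.mx j := by
        rw [map_sub, map_one, map_mul, ← h1]; simpa using hc
      refine ⟨(∑ i ∈ Finset.range T, (1 - u * r) ^ i) * u, ?_⟩
      have h3 := geom_sum_mul (1 - u * r) T
      have : (∑ i ∈ Finset.range T, (1 - u * r) ^ i) * u * r - 1 = -(1 - u * r) ^ T := by
        linear_combination -h3
      rw [this]
      exact I.neg_mem (hnil _ h2 T le_rfl)
  have hcnt : ∀ b : ℕ, Nat.card {x : N // (p : S) ^ b • x = 0} =
      Nat.card {x : N' // (p : S) ^ b • x = 0} := by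
    intro b
    have e1 : Nat.card {x : N // (p : S) ^ b • x = 0} =
        Nat.card {v : V // M.e j • v = v ∧ p ^ b • v = 0} := by
      refine Nat.card_congr ((Equiv.subtypeEquivRight fun x => ?_).trans
        (Equiv.subtypeSubtypeEquivSubtypeInter (fun v => M.e j • v = v) fun v => p ^ b • v = 0))
      rw [← Nat.cast_pow, Nat.cast_smul_eq_nsmul, Subtype.ext_iff]
      rfl
    have e2 : Nat.card {x : N' // (p : S) ^ b • x = 0} =
        Nat.card {v : V' // M'.e j' • v = v ∧ p ^ b • v = 0} := by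
      refine Nat.card_congr ((Equiv.subtypeEquivRight fun x => ?_).trans
        (Equiv.subtypeSubtypeEquivSubtypeInter (fun v => M'.e j' • v = v) fun v => p ^ b • v = 0))
      rw [← Nat.cast_pow, Nat.cast_smul_eq_nsmul, Subtype.ext_iff]
      rfl
    rw [e1, e2, hcount]
  obtain ⟨β⟩ := modIso (R := S) (M := N) (M' := N') I (p : S) T
    (hnil _ (by rwa [map_natCast]) T le_rfl) hloc
    (fun r hr => Module.mem_annihilator.mp hr.1) (fun r hr => Module.mem_annihilator.mp hr.2)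
    hcnt
  let P : V →+ N := AddMonoidHom.mk' (fun v => ⟨M.e j • v, (hN _).mpr (M.e_e j v)⟩)
    fun v w => Subtype.ext (smul_add _ _ _)
  refine ⟨N'.subtype.toAddMonoidHom.comp (β.toAddEquiv.toAddMonoidHom.comp P),
    fun q v => ?_, fun v => (hN' _).mp (β (P v)).2, fun v hv => ?_⟩
  · have h1 : P (M.ρ q • v) = τS q • P v := Subtype.ext (smul_comm _ _ _)
    show ((β (P (M.ρ q • v)) : N') : V') = M'.ρ (α q) • ((β (P v) : N') : V')
    rw [h1, map_smul, hs']
    rfl
  · have h1 : β (P v) = 0 := Subtype.ext hv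
    rw [map_eq_zero_iff _ β.injective] at h1
    exact congrArg Subtype.val h1

theorem glue [Finite V] [Finite V'] (α : Q ≃* Q') (σ : J ≃ J')
    (hb : ∀ j, ∃ b : V →+ V', (∀ q v, b (M.ρ q • v) = M'.ρ (α q) • b v) ∧
      (∀ v, M'.e (σ j) • b v = b v) ∧ ∀ v, b v = 0 → M.e j • v = 0) :
    ∃ β : V ≃+ V', ∀ q v, β (M.ρ q • v) = M'.ρ (α q) • β v := by
  classical
  choose b h1 h2 h3 using hb
  have hinj : Function.Injective (∑ j, b j : V →+ V') := by
    rw [injective_iff_map_eq_zero]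
    intro v hv
    refine M.ext_e fun j => ?_
    rw [smul_zero]
    apply h3
    have := congrArg (fun x => M'.e (σ j) • x) hv
    simp only [AddMonoidHom.finset_sum_apply, Finset.smul_sum, smul_zero] at this
    rw [Finset.sum_eq_single j (fun i _ hi => by
      rw [← h2 i v, M'.e_e_ne (fun h => hi (σ.injective h).symm)]) (by simp), h2] at this
    exact this
  have hbij : Function.Bijective (∑ j, b j : V →+ V') :=
    hinj.bijective_of_nat_card_le (by rw [M.cardV, M'.cardV])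
  refine ⟨AddEquiv.ofBijective _ hbij, fun q v => ?_⟩
  simp only [AddEquiv.ofBijective_apply, AddMonoidHom.finset_sum_apply, Finset.smul_sum, h1]

end Two

end Md

end GrL

end Pool.Agent.MP_88b4a2_lc
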