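import Mathlib
import Pool.Agent.MP_88b4a2_lc.Hall
import Pool.Agent.MP_88b4a2_lc.Jobs.GLMod

/-! Transfer of module-theoretic properties along a back-and-forth system. -/

namespace Pool.Agent.MP_88b4a2_lc

namespace GrL

variable {G V R Q J : Type} [Group G] [AddCommGroup V] [CommRing R] [Module R V]
  [CommGroup Q] [Fintype J] {ν μ : ℕ}
  {K V' R' Q' J' : Type} [Group K] [AddCommGroup V'] [CommRing R'] [Module R' V']
  [CommGroup Q'] [Fintype J'] {k : ℕ}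
  (M : Md G V R Q J ν μ) (M' : Md K V' R' Q' J' ν μ) (B : BF G K k) {l : List (G × K)}

theorem vext (h : B.E l) (hl : l.length ≤ k) :
    ∃ f : V ≃ V', ∀ v, B.E ((M.ι v, M'.ι (f v)) :: l) := by
  obtain ⟨f, hf⟩ := B.ext h hl
  have h1 : ∀ g, g ∈ Set.range M.ι ↔ f g ∈ Set.range M'.ι := fun g => by
    rw [Set.mem_range, Set.mem_range, ← M.mem_iff, ← M'.mem_iff]
    exact B.pow_one_iff ν (hf g) (by simp)
  refine ⟨(Equiv.ofInjective _ M.ι_inj).trans ((f.subtypeEquiv h1).trans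
    (Equiv.ofInjective _ M'.ι_inj).symm), fun v => ?_⟩
  have := hf (M.ι v)
  convert this using 3
  simp only [Equiv.trans_apply]
  rw [Equiv.apply_ofInjective_symm M'.ι_inj]
  rfl

theorem vfw (h : B.E l) (l₀ : List (G × K)) (h₀ : l₀ ⊆ l) (hl : l₀.length ≤ 8) (v : V) :
    ∃ v', B.E ((M.ι v, M'.ι v') :: l₀) := by
  obtain ⟨f, hf⟩ := vext M M' B (B.mono h₀ h) (hl.trans B.big)
  exact ⟨_, hf v⟩

theorem vbw (h : B.E l) (l₀ : List (G × K)) (h₀ : l₀ ⊆ l) (hl : l₀.length ≤ 8) (v' : V') :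
    ∃ v, B.E ((M.ι v, M'.ι v') :: l₀) := by
  obtain ⟨f, hf⟩ := vext M M' B (B.mono h₀ h) (hl.trans B.big)
  exact ⟨f.symm v', by simpa using hf (f.symm v')⟩

theorem fibre_π (x : G) : ({y | M.π y = M.π x} : Set G).ncard = ν := by
  refine Eq.trans ?_ M.cardV
  rw [← Nat.card_coe_set_eq]
  refine (Nat.card_congr (Equiv.ofBijective
    (fun v : V => (⟨M.ι v * x, by simp [M.π_ι]⟩ : ({y | M.π y = M.π x} : Set G)))
    ⟨fun a b h => ?_, fun y => ?_⟩)).symm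
  · exact M.ι_inj (mul_right_cancel (congrArg Subtype.val h))
  · have hy : M.π y.1 = M.π x := y.2
    obtain ⟨v, hv⟩ := (M.mem_iff (y.1 * x⁻¹)).mp ((M.π_eq_one _).mp (by simp [hy]))
    exact ⟨v, Subtype.ext (by simp [hv])⟩

theorem qext [Finite G] [Finite K] [Finite Q] [Finite Q'] (h : B.E l) (hl : l.length ≤ k) :
    ∃ c : Q ≃ Q', ∀ q, ∃ g g', M.π g = q ∧ M'.π g' = c q ∧ B.E ((g, g') :: l) := by
  obtain ⟨f, hf⟩ := B.ext h hl
  obtain ⟨c, hc⟩ := hall_fibre M.π M'.π M.π_surj M'.π_surj f fun x => by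
    rw [fibre_π, fibre_π]
  refine ⟨c, fun q => ?_⟩
  obtain ⟨x, h1, h2⟩ := hc q
  exact ⟨x, f x, h1, h2, hf x⟩

theorem t_zero (h : B.E l) {v : V} {v' : V'} (hv : (M.ι v, M'.ι v') ∈ l) : v = 0 ↔ v' = 0 := by
  rw [← M.ι_eq_one, ← M'.ι_eq_one]; exact B.one h hv

theorem t_add (h : B.E l) {v w z : V} {v' w' z' : V'} (hv : (M.ι v, M'.ι v') ∈ l)
    (hw : (M.ι w, M'.ι w') ∈ l) (hz : (M.ι z, M'.ι z') ∈ l) : v + w = z ↔ v' + w' = z' := by
  rw [← M.ι_inj.eq_iff, ← M'.ι_inj.eq_iff, M.ι_add, M'.ι_add]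
  exact B.mul_iff h hv hw hz

theorem t_neg (h : B.E l) {v w : V} {v' w' : V'} (hv : (M.ι v, M'.ι v') ∈ l)
    (hw : (M.ι w, M'.ι w') ∈ l) (hvw : -v = w) : -v' = w' := by
  apply M'.ι_inj
  rw [M'.ι_neg]
  exact B.inv h hv hw (by rw [← hvw, M.ι_neg])

theorem t_nsmul (n : ℕ) (h : B.E l) {v : V} {v' : V'} (hv : (M.ι v, M'.ι v') ∈ l) :
    n • v = 0 ↔ n • v' = 0 := by
  rw [← M.ι_eq_one, ← M'.ι_eq_one, M.ι_nsmul, M'.ι_nsmul]
  exact B.pow_one_iff n h hv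

theorem t_act (h : B.E l) {g : G} {g' : K} {v w : V} {v' w' : V'} (hg : (g, g') ∈ l)
    (hv : (M.ι v, M'.ι v') ∈ l) (hw : (M.ι w, M'.ι w') ∈ l) (hvw : M.ρ (M.π g) • v = w) :
    M'.ρ (M'.π g') • v' = w' := by
  apply M'.ι_inj
  rw [M'.conj]
  exact B.conj h hg hv hw (by rw [← hvw, M.conj])

theorem t_qpow (n : ℕ) (h : B.E l) {g : G} {g' : K} (hg : (g, g') ∈ l) :
    M.π g ^ n = 1 ↔ M'.π g' ^ n = 1 := by
  rw [← map_pow, ← map_pow, M.π_eq_one, M'.π_eq_one, ← pow_mul, ← pow_mul]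
  exact B.pow_one_iff _ h hg

theorem t_span (h : B.E l) {y z : V} {y' z' : V'} (hy : (M.ι y, M'.ι y') ∈ l)
    (hz : (M.ι z, M'.ι z') ∈ l) (hyz : ∃ r : R, r • y = z) : ∃ r' : R', r' • y' = z' := by
  obtain ⟨r, rfl⟩ := hyz
  have hr : r ∈ AddSubgroup.closure (Set.range M.ρ) := M.gen ▸ AddSubgroup.mem_top r
  induction hr using AddSubgroup.closure_induction generalizing l z' with
  | mem x hx =>
    obtain ⟨q, rfl⟩ := hx
    obtain ⟨g, rfl⟩ := M.π_surj q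
    obtain ⟨g', hg⟩ := B.fw h [(M.ι y, M'.ι y'), (M.ι (M.ρ (M.π g) • y), M'.ι z')]
      (by simp [*]) (by simp) g
    exact ⟨_, t_act M M' B hg (g := g) (g' := g') (v := y) (by simp) (by simp) (by simp) rfl⟩
  | zero => exact ⟨0, by rw [zero_smul, (t_zero M M' B h hz).mp (zero_smul _ _)]⟩
  | add a b _ _ iha ihb =>
    obtain ⟨u', hu⟩ := vfw M M' B h [(M.ι y, M'.ι y'), (M.ι ((a + b) • y), M'.ι z')]
      (by simp [*]) (by simp) (a • y)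
    obtain ⟨w', hw⟩ := vfw M M' B hu _ (List.Subset.refl _) (by simp) (b • y)
    obtain ⟨ra, hra⟩ := iha hw (z' := u') (by simp) (by simp)
    obtain ⟨rb, hrb⟩ := ihb hw (z' := w') (by simp) (by simp)
    refine ⟨ra + rb, ?_⟩
    rw [add_smul, hra, hrb]
    exact (t_add M M' B hw (v := a • y) (w := b • y) (z := (a + b) • y) (by simp) (by simp)
      (by simp)).mp (add_smul _ _ _).symm
  | neg a _ iha =>
    obtain ⟨u', hu⟩ := vfw M M' B h [(M.ι y, M'.ι y'), (M.ι ((-a) • y), M'.ι z')]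
      (by simp only [List.cons_subset, hy, hz, List.nil_subset, and_self]) (by simp) (a • y)
    obtain ⟨ra, hra⟩ := iha hu (z' := u') (by simp) (by simp)
    refine ⟨-ra, ?_⟩
    rw [neg_smul, hra]
    exact t_neg M M' B hu (v := a • y) (w := (-a) • y) (by simp) (by simp) (neg_smul _ _).symm

theorem t_simple (h : B.E l) {z : V} {z' : V'} (hz : (M.ι z, M'.ι z') ∈ l)
    (hs : Md.Simple R z) : Md.Simple R' z' := by
  refine ⟨fun h0 => hs.1 ((t_zero M M' B h hz).mpr h0), fun w' hw hw0 => ?_⟩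
  obtain ⟨w, h1⟩ := vbw M M' B h [(M.ι z, M'.ι z')] (by simp [*]) (by simp) w'
  have h2 := t_span M' M B.symm (B.swap h1) (y := z') (y' := z) (z := w') (z' := w)
    (by simp) (by simp) hw
  have h3 : w ≠ 0 := fun h0 => hw0 ((t_zero M M' B h1 (by simp)).mp h0)
  exact t_span M M' B h1 (by simp) (by simp) (hs.2 w h2 h3)

variable [Finite V] [Finite V']

theorem t_isS (h : B.E l) {y z : V} {y' z' : V'} (hy : (M.ι y, M'.ι y') ∈ l)
    (hz : (M.ι z, M'.ι z') ∈ l) {j : J} {j' : J'} (h1 : M.IsS j y) (h1' : M'.IsS j' y')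
    (h2 : M.IsS j z) : M'.IsS j' z' := by
  obtain ⟨i', hi⟩ := (M'.simple_iff _).mp
    (t_simple M M' B h hz ((M.simple_iff _).mpr ⟨j, h2⟩))
  obtain ⟨w', hw⟩ := vfw M M' B h [(M.ι y, M'.ι y'), (M.ι z, M'.ι z')]
    (by simp [*]) (by simp) (y + z)
  have h3 : y' + z' = w' := (t_add M M' B hw (v := y) (w := z) (z := y + z) (by simp) (by simp)
    (by simp)).mp rfl
  have h4 : i' = j' := by
    rw [M'.same_iff h1' hi, h3]
    rcases (M.same_iff h1 h2).mp rfl with h5 | h5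
    · exact Or.inl ((t_zero M M' B hw (by simp)).mp h5)
    · exact Or.inr (t_simple M M' B hw (by simp) h5)
  exact h4 ▸ hi

theorem t_pteq (h : B.E l) {y z : V} {y' z' : V'} (hy : (M.ι y, M'.ι y') ∈ l)
    (hz : (M.ι z, M'.ι z') ∈ l) {j i : J} {j' i' : J'} (h1 : M.IsS j y) (h1' : M'.IsS j' y')
    (h2 : M.IsS i z) (h2' : M'.IsS i' z') : j = i ↔ j' = i' := by
  constructor
  · rintro rfl
    exact h2'.uniq (t_isS M M' B h hy hz h1 h1' h2)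
  · rintro rfl
    exact h2.uniq (t_isS M' M B.symm (B.swap h) (mem_swap hy) (mem_swap hz) h1' h1 h2')

theorem t_supp (h : B.E l) {y n : V} {y' n' : V'} (hy : (M.ι y, M'.ι y') ∈ l)
    (hn : (M.ι n, M'.ι n') ∈ l) {j : J} {j' : J'} (h1 : M.IsS j y) (h1' : M'.IsS j' y')
    (h2 : M.e j • n ≠ 0) : M'.e j' • n' ≠ 0 := by
  obtain ⟨r, hr⟩ := (M.supp_iff j n).mp h2
  obtain ⟨w', hw⟩ := vfw M M' B h [(M.ι y, M'.ι y'), (M.ι n, M'.ι n')]
    (by simp [*]) (by simp) (r • n)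
  obtain ⟨r', hr'⟩ := t_span M M' B hw (y := n) (y' := n') (z := r • n) (z' := w')
    (by simp) (by simp) ⟨r, rfl⟩
  exact (M'.supp_iff j' n').mpr ⟨r', hr' ▸ t_isS M M' B hw (by simp) (by simp) h1 h1' hr⟩

theorem t_supp_iff (h : B.E l) {y n : V} {y' n' : V'} (hy : (M.ι y, M'.ι y') ∈ l)
    (hn : (M.ι n, M'.ι n') ∈ l) {j : J} {j' : J'} (h1 : M.IsS j y) (h1' : M'.IsS j' y') :
    M.e j • n = 0 ↔ M'.e j' • n' = 0 :=
  not_iff_not.mp ⟨t_supp M M' B h hy hn h1 h1',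
    t_supp M' M B.symm (B.swap h) (mem_swap hy) (mem_swap hn) h1' h1⟩

theorem t_eqj (h : B.E l) {y v w : V} {y' v' w' : V'} (hy : (M.ι y, M'.ι y') ∈ l)
    (hv : (M.ι v, M'.ι v') ∈ l) (hw : (M.ι w, M'.ι w') ∈ l) {j : J} {j' : J'}
    (h1 : M.IsS j y) (h1' : M'.IsS j' y') (h2 : M.e j • v = M.e j • w) :
    M'.e j' • v' = M'.e j' • w' := by
  obtain ⟨d', hd⟩ := vfw M M' B h [(M.ι y, M'.ι y'), (M.ι v, M'.ι v'), (M.ι w, M'.ι w')]
    (by simp [*]) (by simp) (v - w)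
  have h3 : d' + w' = v' := (t_add M M' B hd (v := v - w) (w := w) (z := v) (by simp) (by simp)
    (by simp)).mp (sub_add_cancel _ _)
  have h4 := (t_supp_iff M M' B hd (n := v - w) (n' := d') (by simp) (by simp) h1 h1').mp
    (by rw [smul_sub, h2, sub_self])
  rw [← h3, smul_add, h4, zero_add]

theorem t_at (h : B.E l) {y n0 n : V} {y' n0' n' : V'} {g : G} {g' : K}
    (hy : (M.ι y, M'.ι y') ∈ l) (h0 : (M.ι n0, M'.ι n0') ∈ l) (hn : (M.ι n, M'.ι n') ∈ l)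
    (hg : (g, g') ∈ l) {j : J} {j' : J'} (h1 : M.IsS j y) (h1' : M'.IsS j' y')
    (h2 : M.At n0 n j (M.π g)) : M'.At n0' n' j' (M'.π g') := by
  obtain ⟨w', hw⟩ := vfw M M' B h
    [(M.ι y, M'.ι y'), (M.ι n0, M'.ι n0'), (M.ι n, M'.ι n'), (g, g')]
    (by simp [*]) (by simp) (M.ρ (M.π g) • n0)
  have h3 := t_act M M' B hw (g := g) (g' := g') (v := n0) (v' := n0') (w' := w')
    (by simp) (by simp) (by simp) rfl
  have h4 := t_eqj M M' B hw (v := n) (v' := n') (w := M.ρ (M.π g) • n0) (w' := w')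
    (by simp) (by simp) (by simp) h1 h1' (by rw [h2, smul_comm])
  rw [Md.At, h4, ← h3, smul_comm]

omit [Finite V] [Finite V'] in
theorem t_χ (h : B.E l) {y : V} {y' : V'} {a b : G} {a' b' : K}
    (hy : (M.ι y, M'.ι y') ∈ l) (ha : (a, a') ∈ l) (hb : (b, b') ∈ l)
    {j : J} {j' : J'} (h1 : M.IsS j y) (h1' : M'.IsS j' y')
    (h2 : M.χ j (M.π a) = M.χ j (M.π b)) : M'.χ j' (M'.π a') = M'.χ j' (M'.π b') := by
  obtain ⟨w', hw⟩ := vfw M M' B h [(M.ι y, M'.ι y'), (a, a'), (b, b')]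
    (by simp [*]) (by simp) (M.ρ (M.π a) • y)
  rw [h1.χ_iff] at h2
  rw [h1'.χ_iff, t_act M M' B hw (g := a) (g' := a') (v := y) (v' := y') (w' := w')
    (by simp) (by simp) (by simp) rfl,
    t_act M M' B hw (g := b) (g' := b') (v := y) (v' := y') (w' := w')
    (by simp) (by simp) (by simp) h2.symm]

omit [Finite V] [Finite V'] in
theorem t_χpow (h : B.E l) {y : V} {y' : V'} {a b : G} {a' b' : K}
    (hy : (M.ι y, M'.ι y') ∈ l) (ha : (a, a') ∈ l) (hb : (b, b') ∈ l)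
    {j : J} {j' : J'} (h1 : M.IsS j y) (h1' : M'.IsS j' y') (n : ℤ)
    (h2 : M.χ j (M.π a) = M.χ j (M.π b) ^ n) :
    M'.χ j' (M'.π a') = M'.χ j' (M'.π b') ^ n := by
  obtain ⟨c', hc⟩ := B.fw h [(M.ι y, M'.ι y'), (a, a'), (b, b')]
    (by simp [*]) (by simp) (b ^ n)
  have h3 : b' ^ n = c' := B.zpow n hc (a := b) (b := b ^ n) (by simp) (by simp) rfl
  rw [← map_zpow, ← map_zpow] at h2 ⊢
  rw [h3]
  exact t_χ M M' B hc (by simp) (by simp) (by simp) h1 h1' h2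

theorem bw_isS (h : B.E l) (l₀ : List (G × K)) (h₀ : l₀ ⊆ l) (hl : l₀.length ≤ 8) (j' : J') :
    ∃ y y' j, M.IsS j y ∧ M'.IsS j' y' ∧ B.E ((M.ι y, M'.ι y') :: l₀) := by
  obtain ⟨y', hy'⟩ := M'.exists_isS j'
  obtain ⟨y, hy⟩ := vbw M M' B h l₀ h₀ hl y'
  obtain ⟨j, hj⟩ := (M.simple_iff y).mp (t_simple M' M B.symm (B.swap hy) (z := y') (z' := y)
    (by simp) ((M'.simple_iff _).mpr ⟨j', hy'⟩))
  exact ⟨y, y', j, hj, hy', hy⟩

theorem t_block (h : B.E l) {y v : V} {y' v' : V'} (hy : (M.ι y, M'.ι y') ∈ l)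
    (hv : (M.ι v, M'.ι v') ∈ l) {j : J} {j' : J'} (h1 : M.IsS j y) (h1' : M'.IsS j' y')
    (h2 : M.e j • v = v) : M'.e j' • v' = v' := by
  refine M'.ext_e fun i' => ?_
  by_cases hi : i' = j'
  · rw [hi, M'.e_e]
  · obtain ⟨z, z', i, h3, h3', hz⟩ := bw_isS M M' B h [(M.ι y, M'.ι y'), (M.ι v, M'.ι v')]
      (by simp [*]) (by simp) i'
    have h4 : i ≠ j := fun h5 => hi
      ((t_pteq M M' B hz (y := z) (z := y) (by simp) (by simp) h3 h3' h1 h1').mp h5)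
    rw [M'.e_e_ne hi, (t_supp_iff M M' B hz (n := v) (n' := v') (by simp) (by simp) h3 h3').mp
      (by rw [← h2, M.e_e_ne h4])]

theorem t_full (h : B.E l) {n0 : V} {n0' : V'} (h0 : (M.ι n0, M'.ι n0') ∈ l)
    (hf : M.Full n0) : M'.Full n0' := by
  intro j'
  obtain ⟨y, y', j, h1, h1', hy⟩ := bw_isS M M' B h [(M.ι n0, M'.ι n0')] (by simp [*])
    (by simp) j'
  obtain ⟨z', hz⟩ := vfw M M' B hy _ (List.Subset.refl _) (by simp) (M.e j • n0)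
  have h2 : M'.IsS j' z' := t_isS M M' B hz (by simp) (by simp) h1 h1' (hf j)
  have h3 := t_eqj M M' B hz (v := n0) (v' := n0') (w := M.e j • n0) (w' := z')
    (by simp) (by simp) (by simp) h1 h1' (M.e_e _ _).symm
  rw [h3, h2.e_self]
  exact h2

theorem t_base (h : B.E l) {n0 n1 : V} {n0' n1' : V'} (h0 : (M.ι n0, M'.ι n0') ∈ l)
    (h1 : (M.ι n1, M'.ι n1') ∈ l) {g : J → Q} (hb : M.Base n0 n1 g) :
    ∃ g', M'.Base n0' n1' g' := by
  have key : ∀ j', ∃ g' : Q', M'.At n0' n1' j' g' ∧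
      ∀ q, ∃ a : ℤ, M'.χ j' q = M'.χ j' g' ^ a := by
    intro j'
    obtain ⟨y, y', j, h2, h2', hy⟩ := bw_isS M M' B h [(M.ι n0, M'.ι n0'), (M.ι n1, M'.ι n1')]
      (by simp [*]) (by simp) j'
    obtain ⟨a, ha⟩ := M.π_surj (g j)
    obtain ⟨a', h3⟩ := B.fw hy _ (List.Subset.refl _) (by simp) a
    refine ⟨M'.π a', t_at M M' B h3 (n0 := n0) (n := n1) (g := a) (by simp) (by simp) (by simp)
      (by simp) h2 h2' (ha ▸ hb.at1 j), fun q' => ?_⟩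
    obtain ⟨b', rfl⟩ := M'.π_surj q'
    obtain ⟨b, h4⟩ := B.bw h3 _ (List.Subset.refl _) (by simp) b'
    obtain ⟨n, hn⟩ := hb.gen j (M.π b)
    exact ⟨n, t_χpow M M' B h4 (a := b) (b := a) (by simp) (by simp) (by simp) h2 h2' n
      (ha ▸ hn)⟩
  choose g' h2 h3 using key
  exact ⟨g', t_full M M' B h h0 hb.full, h2, h3⟩

section Base

variable {n0 n1 : V} {n0' n1' : V'} {g : J → Q} {g' : J' → Q'}

theorem t_gen (h : B.E l) (hb : M.Base n0 n1 g) (hb' : M'.Base n0' n1' g')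
    (h0 : (M.ι n0, M'.ι n0') ∈ l) (h1 : (M.ι n1, M'.ι n1') ∈ l)
    {y : V} {y' : V'} (hy : (M.ι y, M'.ι y') ∈ l) {j : J} {j' : J'}
    (h2 : M.IsS j y) (h2' : M'.IsS j' y') (l₀ : List (G × K)) (h₀ : l₀ ⊆ l)
    (hl : l₀.length ≤ 5) :
    ∃ a a', M.π a = g j ∧ M'.χ j' (M'.π a') = M'.χ j' (g' j') ∧
      B.E ((a, a') :: (M.ι y, M'.ι y') :: l₀) := by
  obtain ⟨a, ha⟩ := M.π_surj (g j)
  obtain ⟨a', h3⟩ := B.fw h ((M.ι y, M'.ι y') :: (M.ι n0, M'.ι n0') :: (M.ι n1, M'.ι n1') :: l₀)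
    (by simp [*]) (by simp; omega) a
  refine ⟨a, a', ha, Md.At.uniq hb'.full (t_at M M' B h3 (n0 := n0) (n := n1) (g := a)
    (by simp) (by simp) (by simp) (by simp) h2 h2' (ha ▸ hb.at1 j)) (hb'.at1 j'),
    B.mono ?_ h3⟩
  intro x hx
  simp only [List.mem_cons] at hx ⊢
  tauto

theorem t_pow_one (h : B.E l) (hb : M.Base n0 n1 g) (hb' : M'.Base n0' n1' g')
    (h0 : (M.ι n0, M'.ι n0') ∈ l) (h1 : (M.ι n1, M'.ι n1') ∈ l)
    {y : V} {y' : V'} (hy : (M.ι y, M'.ι y') ∈ l) {j : J} {j' : J'}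
    (h2 : M.IsS j y) (h2' : M'.IsS j' y') (n : ℕ) (hn : M.χ j (g j) ^ n = 1) :
    M'.χ j' (g' j') ^ n = 1 := by
  obtain ⟨a, a', ha, ha', h3⟩ := t_gen M M' B h hb hb' h0 h1 hy h2 h2' [] (by simp) (by simp)
  obtain ⟨c', h4⟩ := B.fw h3 _ (List.Subset.refl _) (by simp) 1
  have h5 : c' = 1 := (B.one h4 (a := 1) (by simp)).mp rfl
  have h6 := t_χpow M M' B h4 (a := 1) (a' := c') (b := a) (b' := a') (by simp) (by simp)
    (by simp) h2 h2' n (by rw [ha, zpow_natCast, hn, map_one, map_one])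
  rw [h5, map_one, map_one, ha', zpow_natCast] at h6
  exact h6.symm

theorem t_order (h : B.E l) (hb : M.Base n0 n1 g) (hb' : M'.Base n0' n1' g')
    (h0 : (M.ι n0, M'.ι n0') ∈ l) (h1 : (M.ι n1, M'.ι n1') ∈ l)
    {y : V} {y' : V'} (hy : (M.ι y, M'.ι y') ∈ l) {j : J} {j' : J'}
    (h2 : M.IsS j y) (h2' : M'.IsS j' y') :
    orderOf (M.χ j (g j)) = orderOf (M'.χ j' (g' j')) :=
  orderOf_eq_orderOf_iff.mpr fun n => ⟨t_pow_one M M' B h hb hb' h0 h1 hy h2 h2' n,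
    t_pow_one M' M B.symm (B.swap h) hb' hb (mem_swap h0) (mem_swap h1) (mem_swap hy) h2' h2 n⟩

theorem t_val (h : B.E l) (hb : M.Base n0 n1 g) (hb' : M'.Base n0' n1' g')
    (h0 : (M.ι n0, M'.ι n0') ∈ l) (h1 : (M.ι n1, M'.ι n1') ∈ l)
    {y n : V} {y' n' : V'} (hy : (M.ι y, M'.ι y') ∈ l) (hn : (M.ι n, M'.ι n') ∈ l)
    {j : J} {j' : J'} (h2 : M.IsS j y) (h2' : M'.IsS j' y') {a a' : ℤ}
    (h3 : M.At n0 n j (g j ^ a)) (h3' : M'.At n0' n' j' (g' j' ^ a')) :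
    a ≡ a' [ZMOD orderOf (M.χ j (g j))] := by
  obtain ⟨b, b', hb1, hb2, h4⟩ := t_gen M M' B h hb hb' h0 h1 hy h2 h2'
    [(M.ι n0, M'.ι n0'), (M.ι n, M'.ι n')] (by simp [*]) (by simp)
  obtain ⟨c', h5⟩ := B.fw h4 _ (List.Subset.refl _) (by simp) (b ^ a)
  have h6 : b' ^ a = c' := B.zpow a h5 (a := b) (b := b ^ a) (by simp) (by simp) rfl
  have h7 := t_at M M' B h5 (n0 := n0) (n0' := n0') (n := n) (n' := n') (g := b ^ a) (g' := c')
    (by simp) (by simp) (by simp) (by simp) h2 h2' (by rwa [map_zpow, hb1])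
  have h8 := Md.At.uniq hb'.full h7 h3'
  rw [← h6, map_zpow, map_zpow, map_zpow, hb2, zpow_eq_zpow_iff_modEq] at h8
  rwa [t_order M M' B h hb hb' h0 h1 hy h2 h2']

theorem t_vec (h : B.E l) (hl : l.length ≤ k) (hb : M.Base n0 n1 g) (hb' : M'.Base n0' n1' g')
    (h0 : (M.ι n0, M'.ι n0') ∈ l) (a : J → ℤ) :
    ∃ (a' : J' → ℤ) (n : V) (n' : V'), B.E ((M.ι n, M'.ι n') :: l) ∧
      (∀ j, M.At n0 n j (g j ^ a j)) ∧ (∀ j', M'.At n0' n' j' (g' j' ^ a' j')) ∧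
      ∀ D : ℕ, (∃ q : Q, q ^ D = 1 ∧ ∀ j, M.χ j q = M.χ j (g j) ^ a j) →
        ∃ q' : Q', q' ^ D = 1 ∧ ∀ j', M'.χ j' q' = M'.χ j' (g' j') ^ a' j' := by
  obtain ⟨n, hn⟩ := M.exists_vec n0 fun j => g j ^ a j
  obtain ⟨f, hf⟩ := vext M M' B h hl
  have h1 := hf n
  have key : ∀ j', ∃ a' : ℤ, M'.At n0' (f n) j' (g' j' ^ a') := by
    intro j'
    obtain ⟨y, y', j, h2, h2', hy⟩ := bw_isS M M' B h1
      [(M.ι n0, M'.ι n0'), (M.ι n, M'.ι (f n))] (by simp [*]) (by simp) j'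
    obtain ⟨b, hb1⟩ := M.π_surj (g j ^ a j)
    obtain ⟨b', h3⟩ := B.fw hy _ (List.Subset.refl _) (by simp) b
    have h4 := t_at M M' B h3 (n0 := n0) (n0' := n0') (n := n) (n' := f n) (g := b) (g' := b')
      (by simp) (by simp) (by simp) (by simp) h2 h2' (hb1 ▸ hn j)
    obtain ⟨a', ha'⟩ := hb'.gen j' (M'.π b')
    exact ⟨a', Md.At.congr hb'.full h4 (by rw [ha', map_zpow])⟩
  choose a' ha' using key
  refine ⟨a', n, f n, h1, hn, ha', ?_⟩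
  rintro D ⟨q, hq, hq'⟩
  obtain ⟨b, rfl⟩ := M.π_surj q
  obtain ⟨b', h3⟩ := B.fw h1 [(M.ι n0, M'.ι n0'), (M.ι n, M'.ι (f n))] (by simp [*]) (by simp) b
  have h4 : n = M.ρ (M.π b) • n0 := M.at_all.mp fun j =>
    Md.At.congr hb.full (hn j) (by rw [hq', map_zpow])
  have h5 := t_act M M' B h3 (g := b) (g' := b') (v := n0) (v' := n0') (w := n) (w' := f n)
    (by simp) (by simp) (by simp) h4.symm
  refine ⟨M'.π b', (t_qpow M M' B D h3 (by simp)).mp hq, fun j' => ?_⟩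
  rw [← map_zpow]
  exact Md.At.uniq hb'.full (M'.at_all.mpr h5.symm j') (ha' j')

end Base

end GrL

end Pool.Agent.MP_88b4a2_lc
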