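import Mathlib
import Pool.Agent.MP_88b4a2_lc.Defs
import Pool.Agent.MP_88b4a2_lc.SysDef
import Pool.Agent.MP_88b4a2_lc.Hall
import Pool.Agent.MP_88b4a2_lc.Jobs.Lovasz
import Pool.Agent.MP_88b4a2_lc.Jobs.GLTr

/-! The group layer: from the abstract theorem on systems to the pebble game on groups. -/

namespace Pool.Agent.MP_88b4a2_lc

namespace GrL

/-- The least common multiple of `1, ..., i`. -/
def DD (i : ℕ) : ℕ := (Finset.Icc 1 i).lcm id

theorem DD_mono {i i' : ℕ} (h : i ≤ i') : DD i ∣ DD i' :=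
  Finset.lcm_mono (Finset.Icc_subset_Icc_right h)

theorem dvd_DD {n : ℕ} (hn : 0 < n) : n ∣ DD n :=
  Finset.dvd_lcm (f := id) (Finset.mem_Icc.mpr ⟨hn, le_rfl⟩)

theorem exists_unit (p r : ℕ) (hp : p.Prime) :
    ∃ u : ℕ, u ≡ 1 [MOD p ^ r] ∧ DD (p ^ r) ∣ u * p ^ r := by
  set w := ∏ x ∈ Finset.Icc 1 (p ^ r), ordCompl[p] x with hw
  have hcop : w.Coprime (p ^ r) := by
    refine Nat.Coprime.pow_right _ (Nat.Coprime.prod_left fun x hx => ?_)
    exact (Nat.coprime_ordCompl hp (by have := (Finset.mem_Icc.mp hx).1; omega)).symm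
  have hpos : 0 < p ^ r := pow_pos hp.pos _
  refine ⟨w ^ (p ^ r).totient, Nat.ModEq.pow_totient hcop, ?_⟩
  refine Finset.lcm_dvd fun x hx => ?_
  obtain ⟨hx1, hx2⟩ := Finset.mem_Icc.mp hx
  have h1 : ordCompl[p] x ∣ w ^ (p ^ r).totient :=
    (Finset.dvd_prod_of_mem _ hx).trans (dvd_pow_self _ (Nat.totient_pos.mpr hpos).ne')
  have h2 : ordProj[p] x ∣ p ^ r := by
    refine pow_dvd_pow _ ((Nat.pow_le_pow_iff_right hp.one_lt).mp ?_)
    exact (Nat.le_of_dvd (by omega) (Nat.ordProj_dvd x p)).trans hx2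
  show x ∣ _
  rw [← Nat.ordProj_mul_ordCompl_eq_self x p, mul_comm]
  exact Nat.mul_dvd_mul h1 h2

theorem card_fibre {A C : Type} [AddCommGroup A] [AddCommGroup C] (f : A →+ C) (n : ℕ) (c : C)
    (x₀ : A) (h1 : n • x₀ = 0) (h2 : f x₀ = c) :
    Nat.card {x : A // n • x = 0 ∧ f x = c} = Nat.card {x : A // n • x = 0 ∧ f x = 0} := by
  refine Nat.card_congr ((Equiv.subRight x₀).subtypeEquiv fun x => ?_)
  simp [smul_sub, h1, h2, sub_eq_zero]

variable {G V R Q J : Type} [Group G] [AddCommGroup V] [CommRing R] [Module R V]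
  [CommGroup Q] [Fintype J] {ν μ : ℕ}
  {K V' R' Q' J' : Type} [Group K] [AddCommGroup V'] [CommRing R'] [Module R' V']
  [CommGroup Q'] [Fintype J'] {k : ℕ}
  (M : Md G V R Q J ν μ) (M' : Md K V' R' Q' J' ν μ) (B : BF G K k)

/-- Exponent vectors of the elements of order dividing `DD i`. -/
def Lam (g : J → Q) (i : ℕ) : AddSubgroup (J → ℤ) where
  carrier := {a | ∃ q : Q, q ^ DD i = 1 ∧ ∀ j, M.χ j q = M.χ j (g j) ^ a j}
  zero_mem' := ⟨1, one_pow _, fun j => by simp⟩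
  add_mem' := by
    rintro a b ⟨q, hq, h1⟩ ⟨r, hr, h2⟩
    exact ⟨q * r, by rw [mul_pow, hq, hr, one_mul], fun j => by
      rw [map_mul, h1, h2, Pi.add_apply, zpow_add]⟩
  neg_mem' := by
    rintro a ⟨q, hq, h1⟩
    exact ⟨q⁻¹, by rw [inv_pow, hq, inv_one], fun j => by
      rw [map_inv, h1, Pi.neg_apply, zpow_neg]⟩

theorem lam_mono (g : J → Q) : Monotone (Lam M g) := by
  rintro i i' h a ⟨q, hq, h1⟩
  obtain ⟨c, hc⟩ := DD_mono h
  exact ⟨q, by rw [hc, pow_mul, hq, one_pow], h1⟩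

theorem mem_lam (g : J → Q) (i : ℕ) (v : J → ℤ)
    (h : ∀ j, (orderOf (M.χ j (g j)) : ℤ) ∣ v j) : v ∈ Lam M g i :=
  ⟨1, one_pow _, fun j => by rw [map_one, orderOf_dvd_iff_zpow_eq_one.mp (h j)]⟩

variable [Finite V] [Finite V'] [Finite Q] [Finite Q']
  {n0 n1 : V} {n0' n1' : V'} {g : J → Q} {g' : J' → Q'}

theorem ext_pt {l : List (G × K)} (h : B.E l) (hl : l.length + 1 ≤ k) :
    ∃ b : J ≃ J', ∀ j, ∃ y y', M.IsS j y ∧ M'.IsS (b j) y' ∧ B.E ((M.ι y, M'.ι y') :: l) := by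
  classical
  obtain ⟨f, hf⟩ := vext M M' B h (by omega)
  have hs : ∀ v, (∃ j, M.IsS j v) ↔ ∃ j', M'.IsS j' (f v) := fun v => by
    rw [← M.simple_iff, ← M'.simple_iff]
    exact ⟨t_simple M M' B (hf v) (by simp),
      t_simple M' M B.symm (B.swap (hf v)) (z := f v) (z' := v) (by simp)⟩
  let p : {v // ∃ j, M.IsS j v} → J := fun x => x.2.choose
  let p' : {v // ∃ j, M'.IsS j v} → J' := fun x => x.2.choose
  have hp : ∀ x j, p x = j ↔ M.IsS j x.1 := fun x j =>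
    ⟨fun h => h ▸ x.2.choose_spec, fun h => h.uniq x.2.choose_spec⟩
  have hp' : ∀ x j, p' x = j ↔ M'.IsS j x.1 := fun x j =>
    ⟨fun h => h ▸ x.2.choose_spec, fun h => h.uniq x.2.choose_spec⟩
  obtain ⟨c, hc⟩ := hall_fibre p p'
    (fun j => by
      obtain ⟨y, hy⟩ := M.exists_isS j
      exact ⟨⟨y, j, hy⟩, (hp _ _).mpr hy⟩)
    (fun j => by
      obtain ⟨y, hy⟩ := M'.exists_isS j
      exact ⟨⟨y, j, hy⟩, (hp' _ _).mpr hy⟩)
    (f.subtypeEquiv hs) fun x => by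
      obtain ⟨f₁, hf₁⟩ := vext M M' B (hf x.1) (by simpa using hl)
      have hs₁ : ∀ v, (∃ j, M.IsS j v) ↔ ∃ j', M'.IsS j' (f₁ v) := fun v => by
        rw [← M.simple_iff, ← M'.simple_iff]
        exact ⟨t_simple M M' B (hf₁ v) (by simp),
          t_simple M' M B.symm (B.swap (hf₁ v)) (z := f₁ v) (z' := v) (by simp)⟩
      rw [← Nat.card_coe_set_eq, ← Nat.card_coe_set_eq]
      refine Nat.card_congr ((f₁.subtypeEquiv hs₁).subtypeEquiv fun z => ?_)
      exact t_pteq M M' B (hf₁ z.1) (y := z.1) (y' := f₁ z.1) (z := x.1) (z' := f x.1)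
        (by simp) (by simp) ((hp _ _).mp rfl) ((hp' ⟨_, (hs₁ _).mp z.2⟩ _).mp rfl)
        ((hp _ _).mp rfl) ((hp' ⟨_, (hs _).mp x.2⟩ _).mp rfl)
  refine ⟨c, fun j => ?_⟩
  obtain ⟨x, h1, h2⟩ := hc j
  exact ⟨x.1, f x.1, (hp _ _).mp h1, (hp' _ _).mp h2, hf _⟩

omit [Finite V] [Finite V'] [Finite Q] [Finite Q'] in
theorem rot {a b c : G × K} {l : List (G × K)} (h : B.E (c :: a :: b :: l)) :
    B.E (a :: b :: c :: l) := by
  refine B.mono (fun x hx => ?_) h
  simp only [List.mem_cons] at hx ⊢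
  tauto

/-- The abstract system attached to a back-and-forth system with matched base data. -/
noncomputable def toSys (κ : ℕ) (hk : κ + 3 ≤ k) (hb : M.Base n0 n1 g)
    (hb' : M'.Base n0' n1' g') : Sys J J' (G × K) κ where
  W l := B.E ((M.ι n0, M'.ι n0') :: (M.ι n1, M'.ι n1') :: l)
  Pt ω j j' := ∃ y y', ω = (M.ι y, M'.ι y') ∧ M.IsS j y ∧ M'.IsS j' y'
  m j := orderOf (M.χ j (g j))
  m' j := orderOf (M'.χ j (g' j))
  Λ := Lam M g
  Λ' := Lam M' g'
  m_pos j := by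
    rw [orderOf_pos_iff]
    exact (M.χ j).isOfFinOrder (isOfFinOrder_of_finite _)
  Λ_mono := lam_mono M g
  mem_Λ := mem_lam M g
  mem_Λ' := mem_lam M' g'
  mono l l' h := B.mono (List.cons_subset_cons _ (List.cons_subset_cons _ h))
  pt_m := by
    rintro _ j j' h ⟨y, y', rfl, h1, h1'⟩
    exact t_order M M' B h hb hb' (by simp) (by simp) (by simp) h1 h1'
  pt_eq := by
    rintro _ _ j j' i i' h ⟨y, y', rfl, h1, h1'⟩ ⟨z, z', rfl, h2, h2'⟩
    exact t_pteq M M' B h (by simp) (by simp) h1 h1' h2 h2'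
  extPt l h hl := by
    obtain ⟨b, hb⟩ := ext_pt M M' B h (by simp; omega)
    refine ⟨b, fun j => ?_⟩
    obtain ⟨y, y', h1, h2, h3⟩ := hb j
    exact ⟨_, ⟨y, y', rfl, h1, h2⟩, rot B h3⟩
  extSet l h hl S := by
    classical
    obtain ⟨n, hn⟩ := M.exists_comp fun j => if j ∈ S then n0 else 0
    obtain ⟨f, hf⟩ := vext M M' B h (by simp; omega)
    refine ⟨{j' | M'.e j' • f n ≠ 0}, _, rot B (hf n), ?_⟩
    rintro _ j j' h1 ⟨y, y', rfl, h2, h2'⟩
    rw [Set.mem_ofPred_eq, Ne, ← t_supp_iff M M' B h1 (n := n) (by simp) (by simp) h2 h2', hn]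
    by_cases hj : j ∈ S
    · simp only [hj, if_true, true_iff]
      exact (hb.full j).1
    · simp [hj]
  extVec l h hl a := by
    obtain ⟨a', n, n', h1, h2, h3, h4⟩ := t_vec M M' B h (by simp; omega) hb hb' (by simp) a
    refine ⟨a', _, rot B h1, fun i => h4 _, ?_⟩
    rintro _ j j' h5 ⟨y, y', rfl, h6, h6'⟩
    exact t_val M M' B h5 hb hb' (by simp) (by simp) (by simp) (by simp) h6 h6' (h2 j) (h3 j')
  extVec' l h hl a' := by
    obtain ⟨a, n', n, h1, h2, h3, h4⟩ := t_vec M' M B.symm (B.swap h) (by simp; omega) hb' hb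
      (by simp) a'
    refine ⟨a, _, rot B (B.unswap h1), fun i => h4 _, ?_⟩
    rintro _ j j' h5 ⟨y, y', rfl, h6, h6'⟩
    exact t_val M M' B h5 hb hb' (by simp) (by simp) (by simp) (by simp) h6 h6' (h3 j) (h2 j')

omit [Finite V] [Finite V'] [Finite Q] [Finite Q'] in
theorem img_transfer {A A' : Type} [AddCommGroup A] [AddCommGroup A'] {m : J → ℕ}
    (f : A →+ ((j : J) → ZMod (m j))) (f' : A' →+ ((j : J) → ZMod (m j)))
    (h : ∀ i (c : (j : J) → ZMod (m j)),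
      (∃ x, DD i • x = 0 ∧ f x = c) → ∃ x, DD i • x = 0 ∧ f' x = c)
    (p r : ℕ) (hp : p.Prime) (c : (j : J) → ZMod (m j)) :
    (∃ x, p ^ r • x = 0 ∧ f x = c) → ∃ x, p ^ r • x = 0 ∧ f' x = c := by
  rintro ⟨x, hx, rfl⟩
  obtain ⟨u, hu, hu'⟩ := exists_unit p r hp
  obtain ⟨d, hd⟩ := dvd_DD (pow_pos hp.pos r)
  obtain ⟨y, hy, hy'⟩ := h (p ^ r) _ ⟨x, by rw [hd, mul_comm, mul_smul, hx, smul_zero], rfl⟩
  obtain ⟨d', hd'⟩ := hu'
  refine ⟨u • y, by rw [← mul_smul, mul_comm, hd', mul_comm, mul_smul, hy, smul_zero], ?_⟩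
  rw [map_nsmul, hy', ← map_nsmul, nsmul_eq_nsmul_of_modEq hu hx, one_smul]

theorem exists_alpha [Finite G] [Finite K]
    (h : B.E [(M.ι n0, M'.ι n0')]) (hb : M.Base n0 n1 g) (hb' : M'.Base n0' n1' g') (σ : J ≃ J')
    (hm : ∀ j, orderOf (M.χ j (g j)) = orderOf (M'.χ (σ j) (g' (σ j))))
    (hΛ : ∀ i (v : J' → ℤ), (fun j => v (σ j)) ∈ Lam M g i ↔ v ∈ Lam M' g' i) :
    ∃ α : Q ≃* Q', ∀ j q (a : ℤ), M.χ j q = M.χ j (g j) ^ a →
      M'.χ (σ j) (α q) = M'.χ (σ j) (g' (σ j)) ^ a := by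
  classical
  choose L hL using fun j => M.exists_log j (g j) (hb.gen j) _ rfl
  choose L' hL' using fun j => M'.exists_log (σ j) (g' (σ j)) (hb'.gen (σ j)) _ (hm j).symm
  let f : Additive Q →+ ((j : J) → ZMod (orderOf (M.χ j (g j)))) := Pi.addMonoidHom L
  let f' : Additive Q' →+ ((j : J) → ZMod (orderOf (M.χ j (g j)))) := Pi.addMonoidHom L'
  have himg : ∀ i (c : (j : J) → ZMod (orderOf (M.χ j (g j)))),
      (∃ x, DD i • x = 0 ∧ f x = c) ↔ ∃ x, DD i • x = 0 ∧ f' x = c := by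
    intro i c
    choose v hv using fun j => ZMod.intCast_surjective (c j)
    have h1 := hΛ i fun j' => v (σ.symm j')
    simp only [Equiv.symm_apply_apply] at h1
    have e1 : (∃ x, DD i • x = 0 ∧ f x = c) ↔ (fun j => v j) ∈ Lam M g i := by
      constructor
      · rintro ⟨x, hx, hc⟩
        exact ⟨x.toMul, hx, fun j => (hL j _ _).mpr (by rw [hv, ← hc]; rfl)⟩
      · rintro ⟨q, hq, hc⟩
        exact ⟨Additive.ofMul q, hq, funext fun j => by rw [← hv, ← (hL j _ _).mp (hc j)]; rfl⟩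
    have e2 : (∃ x, DD i • x = 0 ∧ f' x = c) ↔ (fun j' => v (σ.symm j')) ∈ Lam M' g' i := by
      constructor
      · rintro ⟨x, hx, hc⟩
        refine ⟨x.toMul, hx, fun j' => ?_⟩
        obtain ⟨j, rfl⟩ := σ.surjective j'
        simp only [Equiv.symm_apply_apply]
        exact (hL' j _ _).mpr (by rw [hv, ← hc]; rfl)
      · rintro ⟨q, hq, hc⟩
        refine ⟨Additive.ofMul q, hq, funext fun j => ?_⟩
        have := hc (σ j)
        simp only [Equiv.symm_apply_apply] at this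
        rw [← hv, ← (hL' j _ _).mp this]; rfl
    rw [e1, e2, h1]
  have hker : ∀ n : ℕ, Nat.card {x : Additive Q // n • x = 0 ∧ f x = 0} =
      Nat.card {x : Additive Q' // n • x = 0 ∧ f' x = 0} := by
    intro n
    obtain ⟨c, hc⟩ := qext M M' B h (by simpa using (by have := B.big; omega : 1 ≤ k))
    refine Nat.card_congr ((Additive.toMul.trans (c.trans Additive.ofMul)).subtypeEquiv
      fun x => ?_)
    obtain ⟨a, a', h1, h2, h3⟩ := hc x.toMul
    have e1 : f x = 0 ↔ M.ρ (M.π a) • n0 = n0 := by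
      rw [eq_comm (b := n0), ← M.at_all, h1, funext_iff]
      refine forall_congr' fun j => ?_
      have := hL j x.toMul 0
      rw [zpow_zero, Int.cast_zero] at this
      refine Iff.trans this.symm ?_
      rw [← map_one (M.χ j), (hb.full j).χ_iff, map_one, one_smul, Md.At, eq_comm]
    have e2 : f' (Additive.ofMul (c x.toMul)) = 0 ↔ M'.ρ (M'.π a') • n0' = n0' := by
      rw [eq_comm (b := n0'), ← M'.at_all, h2, funext_iff, σ.surjective.forall]
      refine forall_congr' fun j => ?_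
      have := hL' j (c x.toMul) 0
      rw [zpow_zero, Int.cast_zero] at this
      refine Iff.trans this.symm ?_
      rw [← map_one (M'.χ (σ j)), (hb'.full (σ j)).χ_iff, map_one, one_smul, Md.At, eq_comm]
    refine and_congr ?_ (e1.trans (Iff.trans ?_ e2.symm))
    · have := t_qpow M M' B n h3 (g := a) (g' := a') (by simp)
      rw [h1, h2] at this
      exact this
    · exact ⟨t_act M M' B h3 (by simp) (by simp) (by simp),
        t_act M' M B.symm (B.swap h3) (by simp) (by simp) (by simp)⟩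
  obtain ⟨α, hα⟩ := lovasz_abelian f f' fun p r c hp => by
    by_cases hc : ∃ x, p ^ r • x = 0 ∧ f x = c
    · obtain ⟨x', h1', h2'⟩ := img_transfer f f' (fun i c => (himg i c).mp) p r hp c hc
      obtain ⟨x, h1, h2⟩ := hc
      rw [card_fibre f _ c x h1 h2, card_fibre f' _ c x' h1' h2', hker]
    · have hc' : ¬ ∃ x, p ^ r • x = 0 ∧ f' x = c := fun h' =>
        hc (img_transfer f' f (fun i c => (himg i c).mpr) p r hp c h')
      haveI : IsEmpty {x : Additive Q // p ^ r • x = 0 ∧ f x = c} := ⟨fun x => hc ⟨x.1, x.2⟩⟩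
      haveI : IsEmpty {x : Additive Q' // p ^ r • x = 0 ∧ f' x = c} := ⟨fun x => hc' ⟨x.1, x.2⟩⟩
      rw [Nat.card_of_isEmpty, Nat.card_of_isEmpty]
  refine ⟨
    { toEquiv := Additive.ofMul.trans (α.toEquiv.trans Additive.toMul)
      map_mul' := fun x y => congrArg Additive.toMul
        (map_add α (Additive.ofMul x) (Additive.ofMul y)) }, fun j q a ha => ?_⟩
  refine (hL' j _ a).mpr ?_
  rw [← (hL j q a).mp ha]
  exact congrFun (hα (Additive.ofMul q)) j

omit [Finite Q] [Finite Q'] in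
theorem t_pair {l : List (G × K)} (α : Q ≃* Q') {j : J} {j' : J'} {y : V} {y' : V'}
    (h1 : M.IsS j y) (h1' : M'.IsS j' y') {a : G} {a' : K}
    (hα : ∀ q, ∃ n : ℤ, M.χ j q = M.χ j (M.π a) ^ n ∧ M'.χ j' (α q) = M'.χ j' (M'.π a') ^ n)
    (x : R × R')
    (hx : x ∈ AddSubgroup.closure (Set.range (M.ρ.prod (M'.ρ.comp α.toMonoidHom))))
    (h : B.E l) (hy : (M.ι y, M'.ι y') ∈ l) (ha : (a, a') ∈ l) {z' : V'}
    (hz : (M.ι (x.1 • y), M'.ι z') ∈ l) : x.2 • y' = z' := by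
  induction hx using AddSubgroup.closure_induction generalizing l z' with
  | mem x hx =>
    obtain ⟨q, rfl⟩ := hx
    obtain ⟨n, hn, hn'⟩ := hα q
    change (M.ι (M.ρ q • y), M'.ι z') ∈ l at hz
    change M'.ρ (α q) • y' = z'
    obtain ⟨c', hc⟩ := B.fw h [(M.ι y, M'.ι y'), (a, a'), (M.ι (M.ρ q • y), M'.ι z')]
      (by simp [*]) (by simp) (a ^ n)
    have h3 : a' ^ n = c' := B.zpow n hc (a := a) (b := a ^ n) (by simp) (by simp) rfl
    rw [← map_zpow, ← map_zpow, h1.χ_iff] at hn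
    rw [← map_zpow, ← map_zpow, h1'.χ_iff, h3] at hn'
    rw [hn']
    exact t_act M M' B hc (g := a ^ n) (v := y) (w := M.ρ q • y) (by simp) (by simp) (by simp)
      hn.symm
  | zero => rw [(t_zero M M' B h hz).mp (zero_smul _ _)]; exact zero_smul _ _
  | add b c _ _ ihb ihc =>
    obtain ⟨u', hu⟩ := vfw M M' B h [(M.ι y, M'.ι y'), (a, a'), (M.ι ((b + c).1 • y), M'.ι z')]
      (by simp only [List.cons_subset, hy, hz, ha, List.nil_subset, and_self]) (by simp) (b.1 • y)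
    obtain ⟨w', hw⟩ := vfw M M' B hu _ (List.Subset.refl _) (by simp) (c.1 • y)
    have hb := ihb hw (z' := u') (by simp) (by simp) (by simp)
    have hc := ihc hw (z' := w') (by simp) (by simp) (by simp)
    rw [Prod.snd_add, add_smul, hb, hc]
    exact (t_add M M' B hw (v := b.1 • y) (w := c.1 • y) (z := (b + c).1 • y) (by simp) (by simp)
      (by simp)).mp (add_smul _ _ _).symm
  | neg b _ ihb =>
    obtain ⟨u', hu⟩ := vfw M M' B h [(M.ι y, M'.ι y'), (a, a'), (M.ι ((-b).1 • y), M'.ι z')]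
      (by simp only [List.cons_subset, hy, hz, ha, List.nil_subset, and_self]) (by simp) (b.1 • y)
    have hb := ihb hu (z' := u') (by simp) (by simp) (by simp)
    rw [Prod.snd_neg, neg_smul, hb]
    exact t_neg M M' B hu (v := b.1 • y) (w := (-b).1 • y) (by simp) (by simp)
      (neg_smul _ _).symm

include M M' in
theorem iso_of_bf [Finite G] [Finite K] [Finite R]
    (κ : ℕ) (habs : SysThm κ) (hk : κ + 3 ≤ k) (h : B.E []) : Nonempty (G ≃* K) := by
  obtain ⟨n0, n1, g, hb⟩ := M.exists_base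
  obtain ⟨n1', h1⟩ := vfw M M' B h [] (by simp) (by simp) n1
  obtain ⟨n0', h0⟩ := vfw M M' B h1 _ (List.Subset.refl _) (by simp) n0
  obtain ⟨g', hb'⟩ := t_base M M' B h0 (n0' := n0') (n1' := n1') (by simp) (by simp) hb
  obtain ⟨σ, hσ, hΛ⟩ := habs J J' (G × K) (toSys M M' B κ hk hb hb') h0
  have hσ' : ∀ j, ∃ y y', M.IsS j y ∧ M'.IsS (σ j) y' ∧
      B.E [(M.ι n0, M'.ι n0'), (M.ι n1, M'.ι n1'), (M.ι y, M'.ι y')] := fun j => by
    obtain ⟨_, ⟨y, y', rfl, h2, h2'⟩, h3⟩ := hσ j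
    exact ⟨y, y', h2, h2', h3⟩
  obtain ⟨α, hα⟩ := exists_alpha M M' B (B.mono (by simp) h0) hb hb' σ (fun j => by
    obtain ⟨y, y', h2, h2', h3⟩ := hσ' j
    exact t_order M M' B h3 hb hb' (by simp) (by simp) (by simp) h2 h2') hΛ
  obtain ⟨β, hβ⟩ := M.glue M' α σ fun j => by
    obtain ⟨y, y', h2, h2', h3⟩ := hσ' j
    refine M.local_iso M' α j (σ j) (fun x hx => ?_) fun n => ?_
    · obtain ⟨a, a', ha, ha', h4⟩ := t_gen M M' B h3 hb hb' (by simp) (by simp) (by simp) h2 h2'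
        [] (by simp) (by simp)
      obtain ⟨z', h5⟩ := vfw M M' B h4 _ (List.Subset.refl _) (by simp) (x.1 • y)
      have h6 := t_pair M M' B α h2 h2' (a := a) (a' := a') (fun q => by
        obtain ⟨n, hn⟩ := hb.gen j q
        exact ⟨n, by rw [ha, hn], by rw [ha', hα j q n hn]⟩) x hx h5 (z' := z')
        (by simp) (by simp) (by simp)
      rw [← h2.ann, ← h2'.ann, h6]
      exact t_zero M M' B h5 (by simp)
    · obtain ⟨f, hf⟩ := vext M M' B h3 (by simpa using (by have := B.big; omega : 3 ≤ k))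
      refine Nat.card_congr (f.subtypeEquiv fun v => and_congr ⟨?_, ?_⟩ ?_)
      · exact t_block M M' B (hf v) (by simp) (by simp) h2 h2'
      · exact t_block M' M B.symm (B.swap (hf v)) (by simp) (by simp) h2' h2
      · exact t_nsmul M M' B n (hf v) (by simp)
  exact M.iso_of M' α β hβ

end GrL

theorem group_layer (κ : ℕ) (habs : SysThm κ) :
    ∃ k : ℕ, 1 ≤ k ∧ ∀ (H N : Type) [CommGroup H] [CommGroup N] [Finite H] [Finite N]
      (θ : H →* MulAut N), (Nat.card H).Coprime (Nat.card N) →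
      ∀ (K : Type) [Group K] [Finite K], Nat.card K = Nat.card (N ⋊[θ] H) →
        IsEmpty ((N ⋊[θ] H) ≃* K) →
        ∃ r, WinsIn r (fun _ : Fin (k + 1) => (none : Option ((N ⋊[θ] H) × K))) := by
  refine ⟨κ + 8, by omega, fun H N _ _ _ _ θ hc K _ _ _ hemp => ?_⟩
  by_contra hcon
  push Not at hcon
  haveI : Finite (N ⋊[θ] H) := Finite.of_equiv _ SemidirectProduct.equivProd.symm
  let B := GrL.ofGame (N ⋊[θ] H) K (κ + 8) (by omega)
  have h0 : B.E [] := ⟨_, hcon, by simp⟩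
  have hG := GrL.ctx_semidirect H N θ hc
  obtain ⟨V, R, Q, J, _, _, _, _, _, _, _, _, ⟨M⟩⟩ := GrL.exists_md _ hG
  obtain ⟨V', R', Q', J', _, _, _, _, _, _, _, _, ⟨M'⟩⟩ := GrL.exists_md _ (hG.transfer B h0)
  exact hemp.false (GrL.iso_of_bf M M' B κ habs (by omega) h0).some

end Pool.Agent.MP_88b4a2_lc
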