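import Mathlib
import Pool.Agent.MP_88b4a2_lc.Count

/-! Two-transitive groups not containing the alternating group have a rigid colouring with a
bounded number of colours. -/

namespace Pool.Agent.MP_88b4a2_lc

open Equiv Finset

namespace TwoTrans

variable {B : Type} [Fintype B] [DecidableEq B]

open Classical in
/-- The elements of a subgroup as a finset. -/
noncomputable def el (H : Subgroup (Perm B)) : Finset (Perm B) := univ.filter (· ∈ H)

@[simp] lemma mem_el {H : Subgroup (Perm B)} {g : Perm B} : g ∈ el H ↔ g ∈ H := by simp [el]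

lemma el_pos (H : Subgroup (Perm B)) : 0 < (el H).card :=
  card_pos.2 ⟨1, mem_el.2 H.one_mem⟩

lemma fiber_card {X : Type} [DecidableEq X] [MulAction (Perm B) X] (H : Subgroup (Perm B))
    (a b : X) (h : Perm B) (hh : h ∈ H) (hab : h • a = b) :
    ((el H).filter (fun g => g • a = b)).card = ((el H).filter (fun g => g • a = a)).card := by
  refine card_nbij' (fun g => h⁻¹ * g) (fun g => h * g) ?_ ?_ ?_ ?_
  · intro g hg
    simp only [coe_filter, mem_el, Set.mem_ofPred_eq] at hg ⊢
    exact ⟨H.mul_mem (H.inv_mem hh) hg.1, by rw [mul_smul, hg.2, ← hab, inv_smul_smul]⟩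
  · intro g hg
    simp only [coe_filter, mem_el, Set.mem_ofPred_eq] at hg ⊢
    exact ⟨H.mul_mem hh hg.1, by rw [mul_smul, hg.2, hab]⟩
  · intro g _; simp
  · intro g _; simp

lemma count {X : Type} [DecidableEq X] [MulAction (Perm B) X] (H : Subgroup (Perm B))
    (a : X) (R : Finset X) (hR : ∀ b ∈ R, ∃ h ∈ H, h • a = b) :
    ((el H).filter (fun g => g • a ∈ R)).card
      = R.card * ((el H).filter (fun g => g • a = a)).card := by
  rw [card_eq_sum_card_fiberwise (f := fun g : Perm B => g • a) (t := R)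
    (by intro g hg; simpa using (mem_filter.1 (mem_coe.1 hg)).2)]
  rw [← smul_eq_mul, ← sum_const]
  refine sum_congr rfl fun b hb => ?_
  obtain ⟨h, hh, hab⟩ := hR b hb
  rw [← fiber_card H a b h hh hab, filter_filter]
  congr 1
  refine filter_congr fun g _ => ⟨fun h => h.2, fun h => ⟨h ▸ hb, h⟩⟩

/-- Uniform distribution of the image of a point on an orbit. -/
lemma count_orbit {X : Type} [DecidableEq X] [MulAction (Perm B) X] (H : Subgroup (Perm B))
    (a : X) (O R : Finset X) (hO : ∀ b ∈ O, ∃ h ∈ H, h • a = b) (hO' : ∀ h ∈ H, h • a ∈ O)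
    (hR : R ⊆ O) :
    ((el H).filter (fun g => g • a ∈ R)).card * O.card = R.card * (el H).card := by
  have h1 := count H a R (fun b hb => hO b (hR hb))
  have h2 := count H a O hO
  rw [filter_true_of_mem (fun g hg => hO' g (mem_el.1 hg))] at h2
  rw [h1, h2]; ring

/-- The pointwise stabiliser of a finite set inside a subgroup. -/
def fixing (G : Subgroup (Perm B)) (A : Finset B) : Subgroup (Perm B) where
  carrier := {g | g ∈ G ∧ ∀ a ∈ A, g a = a}
  mul_mem' := by
    rintro g h ⟨hg, hg'⟩ ⟨hh, hh'⟩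
    exact ⟨G.mul_mem hg hh, fun a ha => by simp [hh' a ha, hg' a ha]⟩
  one_mem' := ⟨G.one_mem, by simp⟩
  inv_mem' := by
    rintro g ⟨hg, hg'⟩
    exact ⟨G.inv_mem hg, fun a ha => by rw [Perm.inv_eq_iff_eq]; exact (hg' a ha).symm⟩

omit [Fintype B] [DecidableEq B] in
lemma ai (g : Perm B) (x : B) : g (g⁻¹ x) = x := by simp

omit [Fintype B] [DecidableEq B] in
lemma mem_fixing {G : Subgroup (Perm B)} {A : Finset B} {g : Perm B} :
    g ∈ fixing G A ↔ g ∈ G ∧ ∀ a ∈ A, g a = a := Iff.rfl

lemma support_comm (g h : Perm B) :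
    (g * h * g⁻¹ * h⁻¹).support ⊆ (g.support ∩ h.support) ∪ (g.support ∩ h.support).image g
      ∪ (g.support ∩ h.support).image h := by
  intro z hz
  by_contra hcon
  simp only [mem_union, mem_image, mem_inter, Perm.mem_support, not_or, not_exists, not_and]
    at hcon
  obtain ⟨⟨h1, h2⟩, h3⟩ := hcon
  rw [Perm.mem_support] at hz
  apply hz
  simp only [Perm.mul_apply]
  by_cases hg : g z = z
  · have hg' : g (h⁻¹ z) = h⁻¹ z := by
      by_contra hne
      by_cases hh : h z = z
      · apply hne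
        have : h⁻¹ z = z := by rw [Perm.inv_eq_iff_eq]; exact hh.symm
        rw [this, hg]
      · refine h3 (h⁻¹ z) ⟨hne, ?_⟩ (by simp)
        simp only [ai]
        intro h4
        apply hh
        conv_lhs => rw [h4]
        simp
    have : g⁻¹ (h⁻¹ z) = h⁻¹ z := by rw [Perm.inv_eq_iff_eq]; exact hg'.symm
    rw [this]; simp [hg]
  · have hh : h z = z := by
      by_contra hne
      exact h1 hg hne
    have h5 : h⁻¹ z = z := by rw [Perm.inv_eq_iff_eq]; exact hh.symm
    have h6 : h (g⁻¹ z) = g⁻¹ z := by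
      by_contra hne
      refine h2 (g⁻¹ z) ⟨?_, hne⟩ (by simp)
      simp only [ai]
      intro h4
      apply hg
      conv_lhs => rw [h4]
      simp
    rw [h5, h6]; simp

lemma four_le (G : Subgroup (Perm B))
    (h2 : ∀ x y x' y' : B, x ≠ y → x' ≠ y' → ∃ g ∈ G, g x = x' ∧ g y = y')
    (hA : ¬ alternatingGroup B ≤ G) (g : Perm B) (hg : g ∈ G) (h1 : g ≠ 1) :
    4 ≤ g.support.card := by
  have hp : MulAction.IsPreprimitive G B := by
    apply MulAction.isPreprimitive_of_is_two_pretransitive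
    rw [MulAction.is_two_pretransitive_iff]
    intro a b c d hab hcd
    obtain ⟨k, hk, e1, e2⟩ := h2 a b c d hab hcd
    exact ⟨⟨k, hk⟩, e1, e2⟩
  have h3 := Perm.two_le_card_support_of_ne_one h1
  by_contra hlt
  rcases (by omega : g.support.card = 2 ∨ g.support.card = 3) with h | h
  · apply hA
    rw [Perm.subgroup_eq_top_of_isPreprimitive_of_isSwap_mem hp g
      (Perm.card_support_eq_two.1 h) hg]
    exact le_top
  · exact hA (Perm.alternatingGroup_le_of_isPreprimitive_of_isThreeCycle_mem hp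
      (card_support_eq_three_iff.1 h) hg)

/-- Bochert type bound for the minimal degree. -/
lemma min_degree (G : Subgroup (Perm B))
    (h2 : ∀ x y x' y' : B, x ≠ y → x' ≠ y' → ∃ g ∈ G, g x = x' ∧ g y = y')
    (hA : ¬ alternatingGroup B ≤ G) (g0 : Perm B) (hg0 : g0 ∈ G) (h10 : g0 ≠ 1) :
    Fintype.card B ≤ 7 * g0.support.card := by
  classical
  obtain ⟨g, hg, hmin⟩ := exists_min_image ((el G).filter (· ≠ 1)) (fun g => g.support.card)
    ⟨g0, by simp [hg0, h10]⟩
  simp only [mem_filter, mem_el] at hg hmin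
  obtain ⟨hg, h1⟩ := hg
  refine le_trans ?_ (Nat.mul_le_mul_left 7 (hmin g0 ⟨hg0, h10⟩))
  have h4 := four_le G h2 hA g hg h1
  obtain ⟨x, hx⟩ : g.support.Nonempty := card_pos.1 (by omega)
  set s := g.support.card with hs
  set H := fixing G {x} with hH
  set S := g.support.erase x with hS
  have hScard : S.card + 1 = s := card_erase_add_one hx
  set O := (univ : Finset B).erase x with hO
  have hOcard : O.card + 1 = Fintype.card B := card_erase_add_one (mem_univ x)
  have hcount : ∀ z ∈ S, ((el H).filter (fun a => a z ∈ S)).card * O.card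
      = S.card * (el H).card := by
    intro z hz
    have hzx : z ≠ x := ne_of_mem_erase hz
    refine count_orbit H z O S ?_ ?_ (erase_subset_erase x (subset_univ _))
    · intro b hb
      obtain ⟨k, hk, e1, e2⟩ := h2 z x b x hzx (ne_of_mem_erase hb)
      exact ⟨k, ⟨hk, by simpa using e2⟩, e1⟩
    · intro k hk
      have hkx : k x = x := hk.2 x (mem_singleton_self x)
      simp only [hO, mem_erase, mem_univ, and_true, Perm.smul_def]
      intro h
      exact hzx (k.injective (h.trans hkx.symm))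
  have hgx : g x ∈ S := by
    rw [hS, mem_erase]
    exact ⟨Perm.mem_support.1 hx, Perm.apply_mem_support.2 hx⟩
  -- the sum of the intersection sizes
  have hsum : (∑ a ∈ el H, (S.filter (fun z => a z ∈ S)).card) * O.card
      = S.card * (S.card * (el H).card) := by
    have : ∑ a ∈ el H, (S.filter (fun z => a z ∈ S)).card
        = ∑ z ∈ S, ((el H).filter (fun a => a z ∈ S)).card := by
      simp only [card_filter]
      exact sum_comm
    rw [this, sum_mul, sum_congr rfl hcount, sum_const, smul_eq_mul]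
  have hbig : ∀ a ∈ (el H).filter (fun a => ¬ a (g x) ∈ S),
      s ≤ 6 * (S.filter (fun z => a z ∈ S)).card := by
    intro a ha
    rw [mem_filter, mem_el] at ha
    obtain ⟨⟨haG, hax⟩, hna⟩ := ha
    have hax' : a x = x := hax x (mem_singleton_self x)
    have hax'' : a⁻¹ x = x := by rw [Perm.inv_eq_iff_eq]; exact hax'.symm
    set h := a * g * a⁻¹ with hh
    have hhG : h ∈ G := G.mul_mem (G.mul_mem haG hg) (G.inv_mem haG)
    have hhx : h x = a (g x) := by rw [hh, Perm.mul_apply, Perm.mul_apply, hax'']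
    have hc : g * h * g⁻¹ * h⁻¹ ≠ 1 := by
      intro hc
      have hcomm : g * h = h * g := by
        rw [mul_inv_eq_one, mul_inv_eq_iff_eq_mul] at hc; exact hc
      apply hna
      rw [← hhx, hS, mem_erase, Perm.mem_support]
      constructor
      · rw [hhx]
        intro h5
        exact Perm.mem_support.1 hx (a.injective (h5.trans hax'.symm))
      · intro h5
        have h6 : h (g x) = h x := by
          rw [← h5]; exact (congrArg (fun k : Perm B => k x) hcomm).symm
        exact Perm.mem_support.1 hx (h.injective h6)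
    have hcG : g * h * g⁻¹ * h⁻¹ ∈ G :=
      G.mul_mem (G.mul_mem (G.mul_mem hg hhG) (G.inv_mem hg)) (G.inv_mem hhG)
    have h7 := (hmin _ ⟨hcG, hc⟩).trans (card_le_card (support_comm g h))
    set I := g.support ∩ h.support with hI
    have h8 : (I ∪ I.image g ∪ I.image h).card ≤ 3 * I.card := by
      have e1 := card_union_le (I ∪ I.image g) (I.image h)
      have e2 := card_union_le I (I.image g)
      have e3 := card_image_le (s := I) (f := g)
      have e4 := card_image_le (s := I) (f := h)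
      omega
    have h9 : I.card ≤ (S.filter (fun z => a z ∈ S)).card + 1 := by
      have : I ⊆ insert x ((S.filter (fun z => a z ∈ S)).image a) := by
        intro w hw
        rw [hI, mem_inter] at hw
        by_cases hwx : w = x
        · simp [hwx]
        · refine mem_insert_of_mem (mem_image.2 ⟨a⁻¹ w, mem_filter.2 ⟨?_, ?_⟩, by simp⟩)
          · rw [hS, mem_erase, Perm.mem_support]
            constructor
            · intro h5
              apply hwx
              rw [Perm.inv_eq_iff_eq] at h5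
              rw [h5, hax']
            · intro h5
              apply Perm.mem_support.1 hw.2
              rw [hh, Perm.mul_apply, Perm.mul_apply, h5, ai]
          · simp only [ai, hS, mem_erase]
            exact ⟨hwx, hw.1⟩
      exact (card_le_card this).trans ((card_insert_le _ _).trans
        (by have := card_image_le (s := S.filter (fun z => a z ∈ S)) (f := a); omega))
    omega
  have hlow : s * ((el H).filter (fun a => ¬ a (g x) ∈ S)).card
      ≤ 6 * ∑ a ∈ el H, (S.filter (fun z => a z ∈ S)).card := by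
    rw [mul_comm, ← smul_eq_mul, ← sum_const, mul_sum]
    exact (sum_le_sum hbig).trans (sum_le_sum_of_subset (filter_subset _ _))
  have hsplit := card_filter_add_card_filter_not (s := el H) (fun a => a (g x) ∈ S)
  have hc := hcount _ hgx
  have hpos := el_pos H
  set N := (el H).card
  set u := ((el H).filter (fun a => a (g x) ∈ S)).card
  set v := ((el H).filter (fun a => ¬ a (g x) ∈ S)).card
  set T := ∑ a ∈ el H, (S.filter (fun z => a z ∈ S)).card
  set m := O.card
  set r := S.card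
  have key : s * (N * m) ≤ 6 * (r * (r * N)) + s * (r * N) := by
    calc s * (N * m) = s * v * m + s * (u * m) := by rw [← hsplit]; ring
      _ ≤ 6 * T * m + s * (u * m) := by gcongr
      _ = _ := by rw [hc, mul_assoc, hsum]
  have key2 : s * m ≤ 6 * (r * r) + s * r := by
    apply Nat.le_of_mul_le_mul_right _ hpos
    calc s * m * N = s * (N * m) := by ring
      _ ≤ _ := key
      _ = _ := by ring
  have key3 : s * m ≤ s * (7 * r) := by
    have : r * r ≤ s * r := Nat.mul_le_mul_right _ (by omega)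
    nlinarith
  have := Nat.le_of_mul_le_mul_left key3 (by omega)
  omega

open Classical in
/-- The orbit of a point under the pointwise stabiliser of a set. -/
noncomputable def orb (G : Subgroup (Perm B)) (A : Finset B) (z : B) : Finset B :=
  univ.filter (fun w => ∃ g ∈ fixing G A, g z = w)

lemma mem_orb {G : Subgroup (Perm B)} {A : Finset B} {z w : B} :
    w ∈ orb G A z ↔ ∃ g ∈ fixing G A, g z = w := by simp [orb]

lemma card_fixing_insert (G : Subgroup (Perm B)) (A : Finset B) (z : B) :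
    (el (fixing G A)).card = (orb G A z).card * (el (fixing G (insert z A))).card := by
  have h := count (fixing G A) z (orb G A z) (fun b hb => mem_orb.1 hb)
  rw [filter_true_of_mem (p := fun g : Perm B => g • z ∈ orb G A z)
    (fun g hg => mem_orb.2 ⟨g, mem_el.1 hg, rfl⟩)] at h
  rw [h]
  congr 2
  ext g
  simp only [mem_filter, mem_el, mem_fixing, mem_insert, forall_eq_or_imp, Perm.smul_def]
  tauto

lemma grow (G : Subgroup (Perm B)) (t : ℕ) (c : ℝ) (hc : 1 ≤ c)
    (h : ∀ A : Finset B, A.card ≤ t → ∃ z, c < (orb G A z).card) (j : ℕ) (hj : j ≤ t) :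
    ∃ A : Finset B, A.card = j ∧ c ^ j * (el (fixing G A)).card ≤ (el G).card := by
  induction j with
  | zero =>
    refine ⟨∅, rfl, ?_⟩
    simp only [pow_zero, one_mul, Nat.cast_le]
    exact card_le_card fun g hg => mem_el.2 (mem_el.1 hg).1
  | succ j ih =>
    obtain ⟨A, hA, hle⟩ := ih (by omega)
    obtain ⟨z, hz⟩ := h A (by omega)
    have hzA : z ∉ A := by
      intro hzA
      have : orb G A z ⊆ {z} := by
        intro w hw
        obtain ⟨g, hg, rfl⟩ := mem_orb.1 hw
        simp [hg.2 z hzA]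
      have h1 : ((orb G A z).card : ℝ) ≤ 1 := by exact_mod_cast (card_le_card this)
      linarith
    refine ⟨insert z A, by rw [card_insert_of_notMem hzA, hA], le_trans ?_ hle⟩
    rw [card_fixing_insert G A z, pow_succ, mul_assoc]
    push_cast
    gcongr

lemma realise (G : Subgroup (Perm B)) {ι : Type} [Fintype ι] [DecidableEq ι] (x : ι → B)
    (A : Finset B) (hA : ∀ g : Perm B, (∀ i, g (x i) = x i) → ∀ a ∈ A, g a = a)
    (h : Fintype.card B ^ Fintype.card ι * (el (fixing G A)).card < 2 * (el G).card)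
    (σ : ι → ι) (hσ : Function.Surjective σ) : ∃ g ∈ G, ∀ i, g (x i) = x (σ i) := by
  classical
  set O : Finset (ι → B) := (el G).image (fun g => g • x) with hO
  have h1 := count G x O (by
    intro b hb
    obtain ⟨g, hg, rfl⟩ := mem_image.1 hb
    exact ⟨g, mem_el.1 hg, rfl⟩)
  rw [filter_true_of_mem (fun g hg => mem_image_of_mem _ hg)] at h1
  have h2 : ((el G).filter (fun g => g • x = x)).card ≤ (el (fixing G A)).card := by
    refine card_le_card fun g hg => ?_
    rw [mem_filter, mem_el] at hg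
    exact mem_el.2 ⟨hg.1, hA g fun i => congrFun hg.2 i⟩
  have h3 : Fintype.card B ^ Fintype.card ι < 2 * O.card := by
    refine lt_of_mul_lt_mul_right (a := (el (fixing G A)).card) (h.trans_le ?_) (Nat.zero_le _)
    rw [h1, mul_assoc]
    gcongr
  set O' : Finset (ι → B) := O.image (fun w => w ∘ σ) with hO'
  have h4 : O'.card = O.card :=
    card_image_of_injective _ (fun w w' hw => hσ.injective_comp_right hw)
  have h5 : ¬ Disjoint O O' := by
    intro hd
    have := card_le_univ (O ∪ O')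
    rw [card_union_of_disjoint hd, Fintype.card_fun] at this
    omega
  obtain ⟨w, hw, hw'⟩ := not_disjoint_iff.1 h5
  obtain ⟨g, hg, rfl⟩ := mem_image.1 hw
  obtain ⟨w', hw'', he⟩ := mem_image.1 hw'
  obtain ⟨k, hk, rfl⟩ := mem_image.1 hw''
  refine ⟨k⁻¹ * g, G.mul_mem (G.inv_mem (mem_el.1 hk)) (mem_el.1 hg), fun i => ?_⟩
  have : k (x (σ i)) = g (x i) := congrFun he i
  rw [Perm.mul_apply, ← this]; simp

lemma exists_primes (y : ℕ) (hy : 0 < y) (k : ℕ) :
    ∃ P : Finset ℕ, P.card = k ∧ ∀ p ∈ P, p.Prime ∧ y < p ∧ p ≤ 2 ^ k * y := by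
  induction k with
  | zero => exact ⟨∅, rfl, by simp⟩
  | succ k ih =>
    obtain ⟨P, hP, h⟩ := ih
    obtain ⟨p, hp, h1, h2⟩ := Nat.exists_prime_lt_and_le_two_mul (2 ^ k * y) (by positivity)
    have h3 : y ≤ 2 ^ k * y := Nat.le_mul_of_pos_left _ (by positivity)
    have hpP : p ∉ P := fun hm => absurd (h p hm).2.2 (by omega)
    refine ⟨insert p P, by rw [card_insert_of_notMem hpP, hP], ?_⟩
    intro r hr
    rcases mem_insert.1 hr with rfl | hr
    · exact ⟨hp, by omega, by rw [pow_succ]; linarith⟩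
    · obtain ⟨e1, e2, e3⟩ := h r hr
      exact ⟨e1, e2, by rw [pow_succ]; linarith⟩

lemma no_cycles (G : Subgroup (Perm B))
    (hmin : ∀ g ∈ G, g ≠ 1 → Fintype.card B ≤ 7 * g.support.card) (y : ℕ)
    (hy : Fintype.card B < y ^ 3) (P : Finset ℕ) (hP : P.card = 15)
    (hP' : ∀ p ∈ P, p.Prime ∧ y < p) (g : Perm B) (hg : g ∈ G)
    (hcyc : ∀ p ∈ P, ∃ b : B, ∀ E : ℕ, (g ^ E) b = b → p ∣ E) : False := by
  classical
  set l : B → ℕ := fun b => Function.minimalPeriod g b with hl
  have hl0 : ∀ b, 0 < l b := fun b =>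
    Function.minimalPeriod_pos_of_mem_periodicPts (g.injective.mem_periodicPts b)
  have hln : ∀ b, l b ≤ Fintype.card B := fun b => Function.minimalPeriod_le_card
  have hfix : ∀ b E, l b ∣ E → (g ^ E) b = b := by
    intro b E hE
    have := Function.isPeriodicPt_iff_minimalPeriod_dvd.2 hE
    rw [Perm.coe_pow]
    exact this
  have h2 : ∀ b, (P.filter (fun p => p ∣ l b)).card ≤ 2 := by
    intro b
    by_contra hlt
    have e1 : ∏ p ∈ P.filter (fun p => p ∣ l b), p ∣ l b :=
      prod_primes_dvd _ (fun p hp => (hP' p (mem_filter.1 hp).1).1.prime)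
        (fun p hp => (mem_filter.1 hp).2)
    have e2 := Nat.le_of_dvd (hl0 b) e1
    have hy1 : 1 ≤ y := by
      rcases Nat.eq_zero_or_pos y with rfl | h
      · simp at hy
      · exact h
    have e3 : y ^ (P.filter (fun p => p ∣ l b)).card ≤ ∏ p ∈ P.filter (fun p => p ∣ l b), p :=
      pow_card_le_prod _ _ _ (fun p hp => (hP' p (mem_filter.1 hp).1).2.le)
    have e4 : y ^ 3 ≤ y ^ (P.filter (fun p => p ∣ l b)).card :=
      Nat.pow_le_pow_right hy1 (by omega)
    have := hln b
    omega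
  have hsum : ∑ p ∈ P, (univ.filter (fun b => p ∣ l b)).card ≤ 2 * Fintype.card B := by
    have : ∑ p ∈ P, (univ.filter (fun b => p ∣ l b)).card
        = ∑ b : B, (P.filter (fun p => p ∣ l b)).card := by
      simp only [card_filter]
      exact sum_comm
    rw [this]
    calc _ ≤ ∑ _b : B, 2 := sum_le_sum fun b _ => h2 b
      _ = _ := by simp [mul_comm]
  have hall : ∀ p ∈ P, Fintype.card B ≤ 7 * (univ.filter (fun b => p ∣ l b)).card ∧
      0 < Fintype.card B := by
    intro p hp
    obtain ⟨b, hb⟩ := hcyc p hp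
    set E := ∏ b ∈ univ.filter (fun b => ¬ p ∣ l b), l b with hE
    have hpE : ¬ p ∣ E := by
      rw [hE, (hP' p hp).1.prime.dvd_finsetProd_iff]
      rintro ⟨b, hb, hb'⟩
      exact (mem_filter.1 hb).2 hb'
    have hne : g ^ E ≠ 1 := fun h => hpE (hb E (by rw [h]; rfl))
    refine ⟨(hmin _ (G.pow_mem hg E) hne).trans (Nat.mul_le_mul_left 7 (card_le_card ?_)),
      Fintype.card_pos_iff.2 ⟨b⟩⟩
    intro w hw
    rw [mem_filter]
    refine ⟨mem_univ _, ?_⟩
    by_contra hn
    exact Perm.mem_support.1 hw (hfix w E (dvd_prod_of_mem _ (by simpa using hn)))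
  have h3 : ∑ _p ∈ P, Fintype.card B ≤ ∑ p ∈ P, 7 * (univ.filter (fun b => p ∣ l b)).card :=
    sum_le_sum fun p hp => (hall p hp).1
  rw [sum_const, hP, ← mul_sum, smul_eq_mul] at h3
  obtain ⟨p, hp⟩ : P.Nonempty := card_pos.1 (by omega)
  have := (hall p hp).2
  omega

/-- A small set whose pointwise stabiliser has no very long orbit. -/
lemma exists_small (G : Subgroup (Perm B))
    (hmin : ∀ g ∈ G, g ≠ 1 → Fintype.card B ≤ 7 * g.support.card) (y : ℕ) (hy0 : 0 < y)
    (hy : Fintype.card B < y ^ 3) (hn : 2 ≤ Fintype.card B) :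
    ∃ t : ℕ, 0 < t ∧ t ≤ 2 ^ 19 * y ∧ ∃ A : Finset B, A.card ≤ t ∧
      ∀ z, ((orb G A z).card : ℝ) ≤ (1 - 1 / (4 * t)) * Fintype.card B := by
  classical
  obtain ⟨P, hP, hP'⟩ := exists_primes y hy0 15
  have : ∀ p : P, NeZero (p : ℕ) := fun p => ⟨(hP' p p.2).1.ne_zero⟩
  let ι := (p : P) × ZMod p
  set t := Fintype.card ι with ht
  have hts : t = ∑ p ∈ P, p := by
    rw [ht, Fintype.card_sigma]
    simp only [ZMod.card]
    exact sum_coe_sort P (fun p => p)
  have htle : t ≤ 2 ^ 19 * y := by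
    rw [hts]
    calc _ ≤ ∑ _p ∈ P, 2 ^ 15 * y := sum_le_sum fun p hp => (hP' p hp).2.2
      _ = 15 * (2 ^ 15 * y) := by rw [sum_const, hP, smul_eq_mul]
      _ ≤ _ := by omega
  have ht0 : 0 < t := by
    obtain ⟨p, hp⟩ : P.Nonempty := card_pos.1 (by omega)
    rw [hts]
    exact lt_of_lt_of_le (hP' p hp).1.pos (single_le_sum (f := fun p => p) (by simp) hp)
  refine ⟨t, ht0, htle, ?_⟩
  by_contra hcon
  push Not at hcon
  have ht1 : (1 : ℝ) ≤ t := by exact_mod_cast ht0
  have hn' : (2 : ℝ) ≤ Fintype.card B := by exact_mod_cast hn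
  have hb : (1 : ℝ) / (4 * t) ≤ 1 / 4 := by
    apply one_div_le_one_div_of_le <;> linarith
  obtain ⟨A, hA, hle⟩ := grow G t _ (by nlinarith) hcon t le_rfl
  have hber : (3 : ℝ) / 4 ≤ (1 - 1 / (4 * t)) ^ t := by
    have := one_add_mul_le_pow (a := -(1 / (4 * (t : ℝ)))) (by linarith) t
    have e : 1 + (t : ℝ) * -(1 / (4 * t)) = 3 / 4 := by field_simp; ring
    rw [e, ← sub_eq_add_neg] at this
    exact this
  have hlt : Fintype.card B ^ Fintype.card ι * (el (fixing G A)).card < 2 * (el G).card := by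
    have hpos : (0 : ℝ) < (Fintype.card B : ℝ) ^ t * (el (fixing G A)).card := by
      have := el_pos (fixing G A)
      positivity
    rw [mul_pow, mul_assoc] at hle
    have : (Fintype.card B : ℝ) ^ t * (el (fixing G A)).card < 2 * (el G).card := by nlinarith
    exact_mod_cast this
  obtain ⟨e⟩ : Nonempty (ι ≃ A) := Fintype.card_eq.1 (by simp [hA, ht])
  obtain ⟨g, hg, hgx⟩ := realise G (fun i => (e i : B)) A
    (fun g hg a ha => by simpa using hg (e.symm ⟨a, ha⟩)) hlt
    (fun i => ⟨i.1, i.2 + 1⟩) (fun i => ⟨⟨i.1, i.2 - 1⟩, by simp⟩)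
  refine no_cycles G hmin y hy P hP (fun p hp => ⟨(hP' p hp).1, (hP' p hp).2.1⟩) g hg ?_
  intro p hp
  refine ⟨e ⟨⟨p, hp⟩, 0⟩, fun E hE => ?_⟩
  have hpow : ∀ E : ℕ, (g ^ E) (e ⟨⟨p, hp⟩, 0⟩) = e ⟨⟨p, hp⟩, (E : ZMod p)⟩ := by
    intro E
    induction E with
    | zero => simp
    | succ E ih => rw [pow_succ', Perm.mul_apply, ih, hgx]; simp
  rw [hpow] at hE
  have h1 := e.injective (Subtype.ext hE)
  have h2 : (E : ZMod p) = 0 := eq_of_heq (Sigma.mk.inj_iff.1 h1).2
  exact (ZMod.natCast_eq_zero_iff E p).1 h2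

open Classical in
/-- Ordered pairs of distinct points in one orbit of the pointwise stabiliser. -/
noncomputable def pairs (G : Subgroup (Perm B)) (A : Finset B) : Finset (B × B) :=
  univ.filter (fun p => p.1 ≠ p.2 ∧ ∃ g ∈ fixing G A, g p.1 = p.2)

lemma mem_pairs {G : Subgroup (Perm B)} {A : Finset B} {p : B × B} :
    p ∈ pairs G A ↔ p.1 ≠ p.2 ∧ ∃ g ∈ fixing G A, g p.1 = p.2 := by simp [pairs]

lemma card_pairs (G : Subgroup (Perm B)) (A : Finset B) (c : ℝ)
    (h : ∀ z, ((orb G A z).card : ℝ) ≤ c) :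
    ((pairs G A).card : ℝ) ≤ Fintype.card B * (c - 1) := by
  rw [card_eq_sum_card_fiberwise (f := Prod.fst) (t := univ) (by simp)]
  push_cast
  calc _ ≤ ∑ _z : B, (c - 1) := sum_le_sum fun z _ => ?_
    _ = _ := by simp [mul_sub]
  have hz : z ∈ orb G A z := mem_orb.2 ⟨1, one_mem _, rfl⟩
  have h1 : ((pairs G A).filter (fun p => p.1 = z)).card ≤ ((orb G A z).erase z).card := by
    refine card_le_card_of_injOn Prod.snd ?_ ?_
    · intro p hp
      rw [mem_coe, mem_filter, mem_pairs] at hp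
      obtain ⟨⟨h1, g, hg, h2⟩, rfl⟩ := hp
      exact mem_coe.2 (mem_erase.2 ⟨h1.symm, mem_orb.2 ⟨g, hg, h2⟩⟩)
    · intro p hp p' hp' he
      exact Prod.ext ((mem_filter.1 (mem_coe.1 hp)).2.trans (mem_filter.1 (mem_coe.1 hp')).2.symm)
        he
  have h2 := card_erase_add_one hz
  have h3 : (((pairs G A).filter (fun p => p.1 = z)).card : ℝ) + 1 ≤ (orb G A z).card := by
    exact_mod_cast (by omega)
  linarith [h z]

lemma shrink (G : Subgroup (Perm B))
    (h2 : ∀ x y x' y' : B, x ≠ y → x' ≠ y' → ∃ g ∈ G, g x = x' ∧ g y = y')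
    (hn : 2 ≤ Fintype.card B) (A : Finset B) (β : ℝ) (hβ : β ≤ 1)
    (h : ∀ z, ((orb G A z).card : ℝ) ≤ β * Fintype.card B) (S : Finset B) :
    ∃ S' : Finset B, S'.card ≤ S.card + A.card ∧
      ((pairs G S').card : ℝ) ≤ β * (pairs G S).card := by
  classical
  set O := (univ : Finset B).offDiag with hO
  have hOc : (O.card : ℝ) = Fintype.card B * (Fintype.card B - 1) := by
    rw [hO, offDiag_card, card_univ, Nat.cast_sub (Nat.le_mul_self _)]
    push_cast; ring
  have hn' : (2 : ℝ) ≤ Fintype.card B := by exact_mod_cast hn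
  have hOpos : (0 : ℝ) < O.card := by rw [hOc]; apply mul_pos <;> linarith
  have hA : ((pairs G A).card : ℝ) ≤ β * O.card := by
    refine (card_pairs G A _ h).trans ?_
    rw [hOc]; nlinarith
  have hcount : ∀ p ∈ pairs G S, (((el G).filter (fun g => g • p ∈ pairs G A)).card : ℝ)
      ≤ β * (el G).card := by
    intro p hp
    have hp1 := (mem_pairs.1 hp).1
    have := count_orbit G p O (pairs G A) (by
        intro b hb
        obtain ⟨k, hk, e1, e2⟩ := h2 p.1 p.2 b.1 b.2 hp1 (mem_offDiag.1 hb).2.2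
        exact ⟨k, hk, Prod.ext e1 e2⟩)
      (by
        intro k _
        exact mem_offDiag.2 ⟨mem_univ _, mem_univ _, fun he => hp1 (k.injective he)⟩)
      (by
        intro b hb
        exact mem_offDiag.2 ⟨mem_univ _, mem_univ _, (mem_pairs.1 hb).1⟩)
    have h3 : (((el G).filter (fun g => g • p ∈ pairs G A)).card : ℝ) * O.card
        = (pairs G A).card * (el G).card := by exact_mod_cast this
    refine le_of_mul_le_mul_right ?_ hOpos
    rw [h3]
    calc _ ≤ β * O.card * (el G).card := by gcongr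
      _ = _ := by ring
  have hsum : ∑ g ∈ el G, (((pairs G S).filter (fun p => g • p ∈ pairs G A)).card : ℝ)
      ≤ ∑ _g ∈ el G, β * (pairs G S).card := by
    have : ∑ g ∈ el G, ((pairs G S).filter (fun p => g • p ∈ pairs G A)).card
        = ∑ p ∈ pairs G S, ((el G).filter (fun g => g • p ∈ pairs G A)).card := by
      simp only [card_filter]
      exact sum_comm
    rw [← Nat.cast_sum, this, Nat.cast_sum]
    calc _ ≤ ∑ _p ∈ pairs G S, β * (el G).card := sum_le_sum hcount
      _ = _ := by simp only [sum_const, nsmul_eq_mul]; ring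
  obtain ⟨g, hg, hle⟩ := exists_le_of_sum_le (card_pos.1 (el_pos G)) hsum
  have hg := mem_el.1 hg
  refine ⟨S ∪ A.image (⇑g⁻¹), (card_union_le _ _).trans (Nat.add_le_add_left card_image_le _),
    le_trans ?_ hle⟩
  refine Nat.cast_le.2 (card_le_card fun p hp => ?_)
  obtain ⟨h1, k, hk, h3⟩ := mem_pairs.1 hp
  refine mem_filter.2 ⟨mem_pairs.2 ⟨h1, k, ⟨hk.1, fun a ha => hk.2 a (mem_union_left _ ha)⟩, h3⟩,
    mem_pairs.2 ⟨fun he => h1 (g.injective he), g * k * g⁻¹,
      ⟨G.mul_mem (G.mul_mem hg hk.1) (G.inv_mem hg), fun a ha => ?_⟩, ?_⟩⟩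
  · rw [Perm.mul_apply, Perm.mul_apply, hk.2 _ (mem_union_right _ (mem_image_of_mem _ ha)), ai]
  · simp [h3]

lemma card_le_of_base (G : Subgroup (Perm B)) (S : Finset B) :
    (el G).card ≤ Fintype.card B ^ S.card * (el (fixing G S)).card := by
  induction S using Finset.induction_on with
  | empty =>
    simp only [card_empty, pow_zero, one_mul]
    exact card_le_card fun g hg => mem_el.2 ⟨mem_el.1 hg, by simp⟩
  | insert z S hz ih =>
    rw [card_insert_of_notMem hz, pow_succ, mul_assoc]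
    refine ih.trans (Nat.mul_le_mul_left _ ?_)
    rw [card_fixing_insert G S z]
    exact Nat.mul_le_mul_right _ (card_le_univ _)

lemma sq_le_two_pow (u : ℕ) : u ^ 2 ≤ 2 * 2 ^ u := by
  induction u with
  | zero => simp
  | succ u ih =>
    rcases Nat.lt_or_ge u 3 with h | h
    · interval_cases u <;> simp
    · rw [pow_succ 2 u]; nlinarith

lemma card_bound : ∃ K : ℕ, ∀ (B : Type) [Fintype B] [DecidableEq B] (G : Subgroup (Perm B)),
    (∀ x y x' y' : B, x ≠ y → x' ≠ y' → ∃ g ∈ G, g x = x' ∧ g y = y') →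
    ¬ alternatingGroup B ≤ G → 2 ≤ Fintype.card B →
    (el G).card ≤ 2 ^ (K * Fintype.card B) := by
  refine ⟨72 * 2 ^ 42, fun B _ _ G h2 hA hn => ?_⟩
  set n := Fintype.card B with hnn
  set u := Nat.log 8 n + 1 with hu
  have hu1 : n < 8 ^ u := Nat.lt_pow_succ_log_self (by norm_num) n
  have hu2 : 8 ^ u ≤ 8 * n := by
    rw [hu, pow_succ, mul_comm]
    exact Nat.mul_le_mul_left 8 (Nat.pow_log_le_self 8 (by omega))
  have hy3 : (2 ^ u) ^ 3 = 8 ^ u := by rw [← pow_mul, mul_comm, pow_mul]; norm_num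
  obtain ⟨t, ht0, htle, A, hAt, hA'⟩ := exists_small G (min_degree G h2 hA) (2 ^ u)
    (by positivity) (by rw [hy3]; exact hu1) hn
  set β : ℝ := 1 - 1 / (4 * t) with hβ
  have ht1 : (1 : ℝ) ≤ t := by exact_mod_cast ht0
  have hb : (1 : ℝ) / (4 * t) ≤ 1 / 4 := by
    apply one_div_le_one_div_of_le <;> linarith
  have hb0 : (0 : ℝ) < 1 / (4 * t) := by positivity
  have hβ0 : 0 ≤ β := by linarith
  have hiter : ∀ k : ℕ, ∃ S : Finset B, S.card ≤ k * t ∧
      ((pairs G S).card : ℝ) ≤ β ^ k * (n : ℝ) ^ 2 := by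
    intro k
    induction k with
    | zero =>
      refine ⟨∅, by simp, ?_⟩
      have := card_le_univ (pairs G ∅)
      rw [Fintype.card_prod, ← sq] at this
      rw [pow_zero, one_mul]
      exact_mod_cast this
    | succ k ih =>
      obtain ⟨S, hS, hS'⟩ := ih
      obtain ⟨S', e1, e2⟩ := shrink G h2 hn A β (by linarith) hA' S
      refine ⟨S', by nlinarith, e2.trans ?_⟩
      rw [pow_succ', mul_assoc]
      gcongr
  have hhalf : β ^ (4 * t) ≤ 1 / 2 := by
    have e1 := one_add_mul_le_pow (a := (1 / (4 * (t : ℝ)))) (by linarith) (4 * t)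
    have e2 : 1 + ((4 * t : ℕ) : ℝ) * (1 / (4 * t)) = 2 := by push_cast; field_simp; ring
    rw [e2] at e1
    have e3 : β ^ (4 * t) * (1 + 1 / (4 * (t : ℝ))) ^ (4 * t) ≤ 1 := by
      rw [← mul_pow]
      apply pow_le_one₀
      · positivity
      · rw [hβ]; nlinarith
    have e4 : 0 ≤ β ^ (4 * t) := by positivity
    nlinarith
  obtain ⟨S, hS, hS'⟩ := hiter (4 * t * (6 * u))
  have hempty : pairs G S = ∅ := by
    rw [← card_eq_zero]
    have e1 : β ^ (4 * t * (6 * u)) ≤ (1 / 2) ^ (6 * u) := by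
      rw [pow_mul]; gcongr
    have e2 : (n : ℝ) ^ 2 < 2 ^ (6 * u) := by
      have : n ^ 2 < 2 ^ (6 * u) := by
        calc n ^ 2 < (8 ^ u) ^ 2 := Nat.pow_lt_pow_left hu1 (by norm_num)
          _ = 2 ^ (6 * u) := by rw [← hy3, ← pow_mul, ← pow_mul]; congr 1; ring
      exact_mod_cast this
    have e3 : ((1 : ℝ) / 2) ^ (6 * u) * 2 ^ (6 * u) = 1 := by rw [← mul_pow]; norm_num
    have e4 : ((pairs G S).card : ℝ) < 1 := by
      calc _ ≤ β ^ (4 * t * (6 * u)) * (n : ℝ) ^ 2 := hS'
        _ ≤ (1 / 2) ^ (6 * u) * (n : ℝ) ^ 2 := by gcongr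
        _ < (1 / 2) ^ (6 * u) * 2 ^ (6 * u) := by gcongr
        _ = 1 := e3
    have : (pairs G S).card < 1 := by exact_mod_cast e4
    omega
  have hone : (el (fixing G S)).card ≤ 1 := by
    refine card_le_one.2 fun g hg g' hg' => ?_
    have : ∀ g ∈ el (fixing G S), g = 1 := by
      intro g hg
      ext z
      by_contra hne
      have : (z, g z) ∈ pairs G S :=
        mem_pairs.2 ⟨fun he => hne he.symm, g, mem_el.1 hg, rfl⟩
      simp [hempty] at this
    rw [this g hg, this g' hg']
  have hn8 : n ≤ 2 ^ (3 * u) := by rw [mul_comm, pow_mul, hy3]; exact hu1.le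
  calc (el G).card ≤ n ^ S.card * (el (fixing G S)).card := card_le_of_base G S
    _ ≤ (2 ^ (3 * u)) ^ S.card * 1 := by gcongr
    _ = 2 ^ (3 * u * S.card) := by rw [mul_one, ← pow_mul]
    _ ≤ _ := Nat.pow_le_pow_right (by norm_num) ?_
  have hu3 := sq_le_two_pow u
  generalize 2 ^ u = y at *
  calc 3 * u * S.card ≤ 3 * u * (4 * t * (6 * u) * t) := by gcongr
    _ = 72 * u ^ 2 * t ^ 2 := by ring
    _ ≤ 72 * (2 * y) * (2 ^ 19 * y) ^ 2 := by gcongr
    _ = 72 * 2 ^ 39 * y ^ 3 := by ring
    _ ≤ 72 * 2 ^ 39 * (8 * n) := by rw [hy3]; gcongr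
    _ = _ := by ring

end TwoTrans

open TwoTrans in
theorem rigid_two_trans : ∃ q : ℕ, ∀ (B : Type) [Fintype B] [DecidableEq B]
    (G : Subgroup (Perm B)),
    (∀ x y x' y' : B, x ≠ y → x' ≠ y' → ∃ g ∈ G, g x = x' ∧ g y = y') →
    ¬ alternatingGroup B ≤ G →
    ∃ M : B → ℕ, (∀ x, M x < q) ∧ ∀ g ∈ G, (∀ x, M (g x) = M x) → g = 1 := by
  classical
  obtain ⟨K, hK⟩ := card_bound
  refine ⟨(2 ^ (7 * (K + 1))) ^ 3, fun B _ _ G h2 hA => ?_⟩
  rcases Nat.lt_or_ge (Fintype.card B) 2 with hn | hn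
  · refine ⟨fun _ => 0, fun _ => by positivity, fun g _ _ => ?_⟩
    have : Subsingleton B := Fintype.card_le_one_iff_subsingleton.1 (by omega)
    exact Subsingleton.elim _ _
  refine rigid_of_sum G _ (by positivity) ?_
  have h1 : ((el G).card : ℝ) ≤ 2 ^ (K * Fintype.card B) := by exact_mod_cast hK B G h2 hA hn
  have hterm : ∀ g ∈ univ.filter (fun g : Perm B => g ∈ G ∧ g ≠ 1),
      (((2 ^ (7 * (K + 1)) : ℕ) : ℝ) ^ g.support.card)⁻¹
        ≤ ((2 : ℝ) ^ ((K + 1) * Fintype.card B))⁻¹ := by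
    intro g hg
    obtain ⟨hg, hg1⟩ := (mem_filter.1 hg).2
    have := min_degree G h2 hA g hg hg1
    push_cast
    rw [← pow_mul]
    apply inv_anti₀ (by positivity)
    apply pow_le_pow_right₀ (by norm_num)
    nlinarith
  refine lt_of_le_of_lt (sum_le_sum hterm) ?_
  rw [sum_const, nsmul_eq_mul, ← div_eq_mul_inv, div_lt_one (by positivity)]
  have h3 : ((univ.filter (fun g : Perm B => g ∈ G ∧ g ≠ 1)).card : ℝ) ≤ (el G).card :=
    Nat.cast_le.2 (card_le_card fun g hg => mem_el.2 (mem_filter.1 hg).2.1)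
  refine (h3.trans h1).trans_lt (pow_lt_pow_right₀ (by norm_num) ?_)
  nlinarith

end Pool.Agent.MP_88b4a2_lc
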