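import Mathlib
import Pool.Agent.MP_88b4a2_lc.Count

/-! Primitive permutation groups that are not doubly transitive have a colouring with boundedly
many colours that is fixed by no non-identity element (elementary, after Babai). -/

namespace Pool.Agent.MP_88b4a2_lc

open Equiv Finset

namespace UniPrim

variable {B : Type} [Fintype B] [DecidableEq B]

/-- A nonempty set closed under an invariant relation with an off-diagonal pair is everything. -/
theorem closed_eq_univ (G : Subgroup (Perm B)) (hG : MulAction.IsPreprimitive G B)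
    (E : B → B → Prop) (hE : ∀ g ∈ G, ∀ x y, E x y → E (g x) (g y))
    (a b : B) (hab : a ≠ b) (hEab : E a b)
    (S : B → Prop) (s : B) (hs : S s) (hS : ∀ x y, S x → E x y → S y) (t : B) : S t := by
  have htr : ∀ x y : B, ∃ g ∈ G, g x = y := by
    intro x y
    obtain ⟨g, hg⟩ := hG.toIsPretransitive.exists_smul_eq x y
    exact ⟨g.1, g.2, hg⟩
  have hinv : ∀ g ∈ G, ∀ x y, Relation.ReflTransGen E x y →
      Relation.ReflTransGen E (g x) (g y) := by
    intro g hg x y h
    induction h with
    | refl => exact Relation.ReflTransGen.refl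
    | tail _ h2 ih => exact ih.tail (hE g hg _ _ h2)
  have hstep : ∀ x y, E x y → Relation.ReflTransGen E y x := by
    intro x y hxy
    obtain ⟨g, hg, rfl⟩ := htr x y
    have key : ∀ k : ℕ, Relation.ReflTransGen E (g x) ((g ^ (k + 1)) x) := by
      intro k
      induction k with
      | zero => simpa using Relation.ReflTransGen.refl
      | succ k ih =>
        refine ih.tail ?_
        have := hE (g ^ (k + 1)) (G.pow_mem hg _) x (g x) hxy
        rw [pow_succ g (k + 1), Perm.mul_apply]
        exact this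
    have h1 := key (orderOf g - 1)
    rw [Nat.sub_add_cancel (orderOf_pos g), pow_orderOf_eq_one] at h1
    simpa using h1
  have hsymm : ∀ x y, Relation.ReflTransGen E x y → Relation.ReflTransGen E y x := by
    intro x y h
    induction h with
    | refl => exact Relation.ReflTransGen.refl
    | tail _ h2 ih => exact (hstep _ _ h2).trans ih
  have hblock : MulAction.IsBlock G {y | Relation.ReflTransGen E a y} := by
    rw [MulAction.isBlock_iff_smul_eq_of_mem]
    intro g c hc hgc
    have hc' : Relation.ReflTransGen E a c := hc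
    have hgc' : Relation.ReflTransGen E a (g.1 c) := hgc
    have hga : Relation.ReflTransGen E a (g.1 a) :=
      hgc'.trans (hsymm _ _ (hinv g.1 g.2 _ _ hc'))
    ext y
    rw [Set.mem_smul_set_iff_inv_smul_mem]
    constructor
    · intro h
      have h1 : Relation.ReflTransGen E a ((g.1)⁻¹ y) := h
      have h2 := hinv g.1 g.2 _ _ h1
      simp only [Perm.coe_inv, Equiv.apply_symm_apply] at h2
      exact hga.trans h2
    · intro h
      have h1 : Relation.ReflTransGen E a y := h
      have h2 := hinv (g.1)⁻¹ (G.inv_mem g.2) _ _ ((hsymm _ _ hga).trans h1)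
      have h3 : (g.1)⁻¹ (g.1 a) = a := by simp
      rw [h3] at h2
      exact h2
  have hall : ∀ y, Relation.ReflTransGen E a y := by
    rcases hG.isTrivialBlock_of_isBlock hblock with h | h
    · exact absurd (h (show a ∈ {y | Relation.ReflTransGen E a y} from Relation.ReflTransGen.refl)
        (show b ∈ {y | Relation.ReflTransGen E a y} from Relation.ReflTransGen.single hEab)) hab
    · intro y
      have : y ∈ {y | Relation.ReflTransGen E a y} := h ▸ Set.mem_univ y
      exact this
  have hst : Relation.ReflTransGen E s t := (hsymm _ _ (hall s)).trans (hall t)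
  induction hst with
  | refl => exact hs
  | tail _ h2 ih => exact hS _ _ ih h2

open Classical in
/-- The points `z` whose stabiliser does not move `x` to `y`. -/
noncomputable def dset (G : Subgroup (Perm B)) (x y : B) : Finset B :=
  univ.filter (fun z => ¬ ∃ g ∈ G, g x = y ∧ g z = z)

theorem mem_dset {G : Subgroup (Perm B)} {x y z : B} :
    z ∈ dset G x y ↔ ¬ ∃ g ∈ G, g x = y ∧ g z = z := by
  simp [dset]

theorem dset_self (G : Subgroup (Perm B)) (x : B) : dset G x x = ∅ := by
  ext z
  simp only [mem_dset, notMem_empty, iff_false, not_not]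
  exact ⟨1, G.one_mem, rfl, rfl⟩

theorem dset_symm (G : Subgroup (Perm B)) (x y : B) : dset G x y = dset G y x := by
  have : ∀ x y z : B, (∃ g ∈ G, g x = y ∧ g z = z) → ∃ g ∈ G, g y = x ∧ g z = z := by
    rintro x y z ⟨g, hg, rfl, h2⟩
    refine ⟨g⁻¹, G.inv_mem hg, by simp, ?_⟩
    rw [Perm.inv_eq_iff_eq, h2]
  ext z
  simp only [mem_dset]
  exact not_congr ⟨this _ _ _, this _ _ _⟩

theorem dset_tri (G : Subgroup (Perm B)) (x w y : B) :
    (dset G x y).card ≤ (dset G x w).card + (dset G w y).card := by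
  refine le_trans (card_le_card ?_) (card_union_le _ _)
  intro z hz
  by_contra hcon
  simp only [mem_union, mem_dset, not_or, not_not] at hcon hz
  obtain ⟨⟨g, hg, h1, h2⟩, ⟨h, hh, h3, h4⟩⟩ := hcon
  exact hz ⟨h * g, G.mul_mem hh hg, by simp [h1, h3], by simp [h2, h4]⟩

theorem dset_inv (G : Subgroup (Perm B)) (g : Perm B) (hg : g ∈ G) (x y : B) :
    (dset G (g x) (g y)).card ≤ (dset G x y).card := by
  refine card_le_card_of_injOn (fun z => g⁻¹ z) ?_ (fun a _ b _ h => (g⁻¹).injective h)
  intro z hz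
  simp only [mem_coe, mem_dset] at hz ⊢
  rintro ⟨h, hh, h1, h2⟩
  refine hz ⟨g * h * g⁻¹, G.mul_mem (G.mul_mem hg hh) (G.inv_mem hg), by simp [h1], ?_⟩
  simp only [Perm.mul_apply, h2]
  simp

open Classical in
/-- Every other point distinguishes `x` from one of its neighbours. -/
theorem card_le_sum (G : Subgroup (Perm B)) (hG : MulAction.IsPreprimitive G B)
    (E : B → B → Prop) (hE : ∀ g ∈ G, ∀ x y, E x y → E (g x) (g y))
    (a b : B) (hab : a ≠ b) (hEab : E a b) (x : B) (K : ℕ)
    (hK : ∀ w, E x w → (dset G x w).card ≤ K) :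
    Fintype.card B - 1 ≤ (univ.filter (fun w => E x w)).card * K := by
  have hsub : univ.erase x ⊆ (univ.filter (fun w => E x w)).biUnion (fun w => dset G x w) := by
    intro z hz
    by_contra hcon
    simp only [mem_biUnion, mem_filter, mem_univ, true_and, mem_dset, not_exists, not_and,
      not_forall, not_not] at hcon
    have hz' : z ≠ x := (mem_erase.mp hz).1
    have := closed_eq_univ G hG E hE a b hab hEab (fun y => ∃ g ∈ G, g x = y ∧ g z = z) x
      ⟨1, G.one_mem, rfl, rfl⟩ (by
        rintro u v ⟨g, hg, rfl, h2⟩ huv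
        have h3 := hE g⁻¹ (G.inv_mem hg) _ _ huv
        have h4 : g⁻¹ (g x) = x := by simp
        rw [h4] at h3
        obtain ⟨h, hh, h5, h6⟩ := hcon _ h3
        exact ⟨g * h, G.mul_mem hg hh, by simp [h5], by simp [h6, h2]⟩) z
    obtain ⟨g, _, h1, h2⟩ := this
    exact hz' (g.injective (h2.trans h1.symm))
  have h1 := (card_le_card hsub).trans card_biUnion_le
  rw [card_erase_of_mem (mem_univ x), card_univ] at h1
  refine h1.trans ?_
  have := sum_le_card_nsmul (univ.filter (fun w => E x w)) (fun w => (dset G x w).card) K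
    (fun w hw => hK w (mem_filter.mp hw).2)
  simpa using this

/-- All distinguishing sets are at most quadratic in the smallest one. -/
theorem dset_le (G : Subgroup (Perm B)) (hG : MulAction.IsPreprimitive G B)
    (a b : B) (hab : a ≠ b) (d : ℕ) (hd : (dset G a b).card ≤ d) (x y : B) :
    (dset G x y).card ≤ 3 * (2 * d + 1) * d := by
  classical
  have hE : ∀ g ∈ G, ∀ x y : B, (dset G x y).card ≤ d → (dset G (g x) (g y)).card ≤ d :=
    fun g hg x y h => (dset_inv G g hg x y).trans h
  have hn : 2 ≤ Fintype.card B := Fintype.one_lt_card_iff.mpr ⟨a, b, hab⟩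
  have key : ∀ s : ℕ, (∀ y, (dset G x y).card ≤ 3 * s * d) ∨
      s * (Fintype.card B - 1) ≤ (univ.filter (fun y => (dset G x y).card ≤ 3 * s * d)).card * d := by
    intro s
    induction s with
    | zero => right; simp
    | succ s ih =>
      rcases ih with ih | ih
      · left
        intro y
        exact (ih y).trans (by gcongr; omega)
      by_cases hall : ∀ y, (dset G x y).card ≤ (3 * s + 1) * d
      · left
        intro y
        exact (hall y).trans (by gcongr; omega)
      right
      have hex : ∃ u v, (dset G x u).card ≤ (3 * s + 1) * d ∧ (dset G u v).card ≤ d ∧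
          ¬ (dset G x v).card ≤ (3 * s + 1) * d := by
        by_contra hcon
        push Not at hcon
        exact hall (fun t => closed_eq_univ G hG (fun x y => (dset G x y).card ≤ d) hE a b hab hd
          (fun y => (dset G x y).card ≤ (3 * s + 1) * d) x (by simp [dset_self])
          (fun u v h1 h2 => hcon u v h1 h2) t)
      obtain ⟨u, v, hu, huv, hv⟩ := hex
      have hv1 := card_le_sum G hG (fun x y => (dset G x y).card ≤ d) hE a b hab hd v d
        (fun w hw => hw)
      have hdisj : Disjoint (univ.filter (fun y => (dset G x y).card ≤ 3 * s * d))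
          (univ.filter (fun w => (dset G v w).card ≤ d)) := by
        rw [disjoint_left]
        intro w h1 h2
        simp only [mem_filter, mem_univ, true_and] at h1 h2
        have h3 := dset_tri G x w v
        rw [dset_symm G w v] at h3
        apply hv
        nlinarith
      have hsub : (univ.filter (fun y => (dset G x y).card ≤ 3 * s * d)) ∪
          (univ.filter (fun w => (dset G v w).card ≤ d)) ⊆
          univ.filter (fun y => (dset G x y).card ≤ 3 * (s + 1) * d) := by
        intro w hw
        simp only [mem_union, mem_filter, mem_univ, true_and] at hw ⊢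
        rcases hw with hw | hw
        · nlinarith
        · have h1 := dset_tri G x u w
          have h2 := dset_tri G u v w
          nlinarith
      have h1 := card_le_card hsub
      rw [card_union_of_disjoint hdisj] at h1
      have h2 := Nat.mul_le_mul_right d h1
      have hv2 : Fintype.card B - 1 ≤ (univ.filter (fun w => (dset G v w).card ≤ d)).card * d := by
        refine hv1.trans (Nat.mul_le_mul_right d (card_le_card fun w hw => ?_))
        simpa using hw
      nlinarith
  rcases key (2 * d + 1) with h | h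
  · exact h y
  · exfalso
    have h1 : (univ.filter (fun y => (dset G x y).card ≤ 3 * (2 * d + 1) * d)).card
        ≤ Fintype.card B := card_le_univ _
    have h2 := Nat.mul_le_mul_right d h1
    obtain ⟨m, hm⟩ : ∃ m, Fintype.card B = m + 2 := ⟨Fintype.card B - 2, by omega⟩
    rw [hm] at h h2
    have h3 : m + 2 - 1 = m + 1 := by omega
    rw [h3] at h
    nlinarith

/-- If all distinguishing sets are small then the degree is small. -/
theorem card_le_sq (G : Subgroup (Perm B)) (hG : MulAction.IsPreprimitive G B)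
    (h2 : ¬ (∀ x y x' y' : B, x ≠ y → x' ≠ y' → ∃ g ∈ G, g x = x' ∧ g y = y'))
    (K : ℕ) (hK : ∀ x y, (dset G x y).card ≤ K) : Fintype.card B - 1 ≤ K * K := by
  classical
  push Not at h2
  obtain ⟨x, y, x', y', hxy, hxy', hno⟩ := h2
  have hz : ∃ z : B, (univ.filter (fun w => z ∈ dset G x w)).card ≤ K := by
    by_contra hcon
    push Not at hcon
    have h1 : ∑ z : B, (univ.filter (fun w => z ∈ dset G x w)).card
        = ∑ w : B, (dset G x w).card := by
      simp only [card_filter]
      rw [sum_comm]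
      refine sum_congr rfl fun w _ => ?_
      rw [← card_filter]
      simp
    have h3 : ∑ w : B, (dset G x w).card ≤ ∑ _w : B, K := sum_le_sum fun w _ => hK x w
    have h4 : ∑ _w : B, K < ∑ z : B, (univ.filter (fun w => z ∈ dset G x w)).card :=
      sum_lt_sum_of_nonempty ⟨x, mem_univ x⟩ fun z _ => hcon z
    omega
  obtain ⟨z, hz⟩ := hz
  have hE : ∀ g ∈ G, ∀ u v : B, (¬ ∃ h ∈ G, h z = u ∧ h x = v) →
      ¬ ∃ h ∈ G, h z = g u ∧ h x = g v := by
    rintro g hg u v h1 ⟨h, hh, h3, h4⟩
    exact h1 ⟨g⁻¹ * h, G.mul_mem (G.inv_mem hg) hh, by simp [h3], by simp [h4]⟩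
  have hex : ∃ a b : B, a ≠ b ∧ ¬ ∃ h ∈ G, h z = a ∧ h x = b := by
    by_contra hcon
    push Not at hcon
    obtain ⟨g, hg, h1, h2⟩ := hcon x y hxy
    obtain ⟨h, hh, h3, h4⟩ := hcon x' y' hxy'
    refine hno (h * g⁻¹) (G.mul_mem hh (G.inv_mem hg)) ?_ ?_
    · rw [← h3, Perm.mul_apply]
      congr 1
      rw [Perm.inv_eq_iff_eq, h1]
    · rw [← h4, Perm.mul_apply]
      congr 1
      rw [Perm.inv_eq_iff_eq, h2]
  obtain ⟨a, b, hab, hEab⟩ := hex
  have h1 := card_le_sum G hG (fun u v => ¬ ∃ h ∈ G, h z = u ∧ h x = v) hE a b hab hEab z K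
    (fun w _ => hK z w)
  refine h1.trans (Nat.mul_le_mul_right K (le_trans (le_of_eq ?_) hz))
  congr 1
  ext w
  simp only [mem_filter, mem_univ, true_and, mem_dset]
  exact not_congr ⟨fun ⟨h, hh, h3, h4⟩ => ⟨h, hh, h4, h3⟩, fun ⟨h, hh, h3, h4⟩ => ⟨h, hh, h4, h3⟩⟩

theorem two_mul_pow_le (m : ℕ) : 2 * m ^ (m + 1) ≤ (m + 1) ^ (m + 1) := by
  have key : ∀ k : ℕ, m ^ (k + 1) + (k + 1) * m ^ k ≤ (m + 1) ^ (k + 1) := by
    intro k
    induction k with
    | zero => simp
    | succ k ih =>
      have h1 := Nat.mul_le_mul_right (m + 1) ih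
      rw [← pow_succ] at h1
      refine le_trans ?_ h1
      have : 0 ≤ (k + 1) * m ^ k := Nat.zero_le _
      simp only [pow_succ] at *
      nlinarith
  have h := key m
  have : m ^ (m + 1) ≤ (m + 1) * m ^ m := by
    rw [pow_succ, mul_comm]
    gcongr
    omega
  omega

/-- A colouring all of whose classes meet all sets of a small family of large sets. -/
theorem exists_psi (D : B → B → Finset B) (m : ℕ) (hn : Fintype.card B < 2 ^ (m + 1))
    (hD : ∀ x y, x ≠ y → 3 * (m + 1) ^ 2 ≤ (D x y).card) :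
    ∃ ψ : B → Fin (m + 1), ∀ i x y, x ≠ y → ∃ z ∈ D x y, ψ z = i := by
  classical
  by_contra hcon
  push Not at hcon
  have hcover : (univ : Finset (B → Fin (m + 1))) ⊆
      (univ.filter (fun p : Fin (m + 1) × B × B => p.2.1 ≠ p.2.2)).biUnion
        (fun p => Fintype.piFinset (fun z => if z ∈ D p.2.1 p.2.2 then univ.erase p.1 else univ)) := by
    intro ψ _
    obtain ⟨i, x, y, hxy, h⟩ := hcon ψ
    simp only [mem_biUnion, mem_filter, mem_univ, true_and, Fintype.mem_piFinset]
    refine ⟨(i, x, y), hxy, fun z => ?_⟩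
    split_ifs with hz
    · simpa using h z hz
    · simp
  have h1 := (card_le_card hcover).trans card_biUnion_le
  have h2 : ∀ p ∈ univ.filter (fun p : Fin (m + 1) × B × B => p.2.1 ≠ p.2.2),
      (Fintype.piFinset (fun z => if z ∈ D p.2.1 p.2.2 then univ.erase p.1 else
        (univ : Finset (Fin (m + 1))))).card * 8 ^ (m + 1) ≤ (m + 1) ^ Fintype.card B := by
    rintro ⟨i, x, y⟩ hp
    have hxy : x ≠ y := by simpa using hp
    have hc : (Fintype.piFinset (fun z => if z ∈ D x y then univ.erase i else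
        (univ : Finset (Fin (m + 1))))).card
        = m ^ (D x y).card * (m + 1) ^ (Fintype.card B - (D x y).card) := by
      rw [Fintype.card_piFinset]
      simp only [apply_ite Finset.card, card_erase_of_mem (mem_univ i), card_univ,
        Fintype.card_fin, Nat.add_sub_cancel]
      rw [prod_ite]
      simp only [prod_const, filter_mem_eq_inter, univ_inter]
      congr 2
      rw [← card_compl]
      congr 1
      ext z
      simp
    simp only
    rw [hc]
    obtain ⟨e, he⟩ := Nat.exists_eq_add_of_le (hD x y hxy)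
    have hle : (D x y).card ≤ Fintype.card B := card_le_univ _
    have h3 : m ^ (D x y).card * 8 ^ (m + 1) ≤ (m + 1) ^ (D x y).card := by
      have h4 := Nat.pow_le_pow_left (two_mul_pow_le m) (3 * (m + 1))
      rw [mul_pow, ← pow_mul, ← pow_mul, pow_mul 2 3] at h4
      have h5 : (m + 1) * (3 * (m + 1)) = 3 * (m + 1) ^ 2 := by ring
      rw [h5] at h4
      rw [he, pow_add, pow_add (m + 1)]
      have h6 : m ^ e ≤ (m + 1) ^ e := Nat.pow_le_pow_left (by omega) e
      calc m ^ (3 * (m + 1) ^ 2) * m ^ e * 8 ^ (m + 1)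
          = ((2 ^ 3) ^ (m + 1) * m ^ (3 * (m + 1) ^ 2)) * m ^ e := by norm_num; ring
        _ ≤ _ := Nat.mul_le_mul h4 h6
    calc m ^ (D x y).card * (m + 1) ^ (Fintype.card B - (D x y).card) * 8 ^ (m + 1)
        = m ^ (D x y).card * 8 ^ (m + 1) * (m + 1) ^ (Fintype.card B - (D x y).card) := by ring
      _ ≤ (m + 1) ^ (D x y).card * (m + 1) ^ (Fintype.card B - (D x y).card) := by gcongr
      _ = _ := by rw [← pow_add, Nat.add_sub_cancel' hle]
  have h3 := Nat.mul_le_mul_right (8 ^ (m + 1)) h1
  rw [sum_mul] at h3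
  have h4 := h3.trans (sum_le_card_nsmul _ _ _ h2)
  have h5 : (univ.filter (fun p : Fin (m + 1) × B × B => p.2.1 ≠ p.2.2)).card
      ≤ (m + 1) * (Fintype.card B * Fintype.card B) := by
    refine (card_le_univ _).trans ?_
    simp
  simp only [card_univ, Fintype.card_fun, Fintype.card_fin, smul_eq_mul] at h4
  have hpos : 0 < (m + 1) ^ Fintype.card B := by positivity
  have h6 : 8 ^ (m + 1) ≤ (m + 1) * (Fintype.card B * Fintype.card B) := by
    have h7 := h4.trans (Nat.mul_le_mul_right _ h5)
    rw [mul_comm] at h7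
    exact Nat.le_of_mul_le_mul_right h7 hpos
  have h8 : m + 1 < 2 ^ (m + 1) := Nat.lt_two_pow_self
  have h9 : (m + 1) * (Fintype.card B * Fintype.card B)
      < 2 ^ (m + 1) * (2 ^ (m + 1) * 2 ^ (m + 1)) :=
    Nat.mul_lt_mul'' h8 (Nat.mul_lt_mul'' hn hn)
  rw [← mul_pow, ← mul_pow] at h9
  norm_num at h9
  omega

open Classical in
/-- The weighted count of group elements by their behaviour on a base. -/
theorem sum_base (G : Subgroup (Perm B)) (A : B → Prop)
    (hA : ∀ g ∈ G, (∀ z, A z → g z = z) → g = 1) (t : ℝ) (ht : 0 ≤ t) :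
    ∑ g ∈ univ.filter (fun g : Perm B => g ∈ G ∧ g ≠ 1), t ^ (g.support.filter A).card
      ≤ (1 + t) ^ (Fintype.card B * Fintype.card B) - 1 := by
  let F : Perm B → Finset (B × B) := fun g => (g.support.filter A).image (fun z => (z, g z))
  have hcard : ∀ g, (F g).card = (g.support.filter A).card := fun g =>
    card_image_of_injective _ (fun a b h => congrArg Prod.fst h)
  have hmem : ∀ g z w, (z, w) ∈ F g ↔ g z ≠ z ∧ A z ∧ g z = w := by
    intro g z w
    simp only [F, mem_image, mem_filter, Perm.mem_support, Prod.mk.injEq]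
    constructor
    · rintro ⟨a, ⟨h1, h2⟩, rfl, rfl⟩
      exact ⟨h1, h2, rfl⟩
    · rintro ⟨h1, h2, rfl⟩
      exact ⟨z, ⟨h1, h2⟩, rfl, rfl⟩
  have hinj : Set.InjOn F (univ.filter (fun g : Perm B => g ∈ G ∧ g ≠ 1) : Finset _) := by
    intro g hg h hh hF
    simp only [coe_filter, mem_univ, true_and, Set.mem_setOf_eq] at hg hh
    have : h⁻¹ * g = 1 := by
      refine hA _ (G.mul_mem (G.inv_mem hh.1) hg.1) fun z hz => ?_
      rw [Perm.mul_apply, Perm.inv_eq_iff_eq]
      by_cases h1 : g z = z
      · by_contra h2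
        have h3 : (z, h z) ∈ F h := (hmem h z _).mpr ⟨fun h4 => h2 (h1.trans h4.symm), hz, rfl⟩
        rw [← hF] at h3
        exact ((hmem g z _).mp h3).1 h1
      · have h3 : (z, g z) ∈ F g := (hmem g z _).mpr ⟨h1, hz, rfl⟩
        rw [hF] at h3
        exact ((hmem h z _).mp h3).2.2.symm
    exact (inv_mul_eq_one.mp this).symm
  have hsub : (univ.filter (fun g : Perm B => g ∈ G ∧ g ≠ 1)).image F ⊆
      (univ : Finset (B × B)).powerset.erase ∅ := by
    intro S hS
    simp only [mem_image, mem_filter, mem_univ, true_and] at hS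
    obtain ⟨g, ⟨hg, hg1⟩, rfl⟩ := hS
    simp only [mem_erase, mem_powerset, subset_univ, and_true]
    intro h0
    refine hg1 (hA g hg fun z hz => ?_)
    by_contra h1
    have : (z, g z) ∈ F g := (hmem g z _).mpr ⟨h1, hz, rfl⟩
    simp [h0] at this
  have h1 : ∑ g ∈ univ.filter (fun g : Perm B => g ∈ G ∧ g ≠ 1), t ^ (g.support.filter A).card
      = ∑ S ∈ (univ.filter (fun g : Perm B => g ∈ G ∧ g ≠ 1)).image F, t ^ S.card := by
    rw [sum_image hinj]
    simp only [hcard]
  have h2 : (1 + t) ^ (Fintype.card B * Fintype.card B)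
      = ∑ S ∈ (univ : Finset (B × B)).powerset, t ^ S.card := by
    have := prod_one_add (f := fun _ : B × B => t) univ
    simpa using this
  rw [h1, h2, ← add_sum_erase _ _ (empty_mem_powerset _)]
  have := sum_le_sum_of_subset_of_nonneg hsub (f := fun S => t ^ S.card)
    (fun _ _ _ => by positivity)
  simp only [card_empty, pow_zero]
  linarith

open Classical in
theorem sum_lt_one (G : Subgroup (Perm B)) (m : ℕ) (hn : Fintype.card B < 2 ^ (m + 1))
    (ψ : B → Fin (m + 1)) (hψ : ∀ i, ∀ g ∈ G, (∀ z, ψ z = i → g z = z) → g = 1) :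
    ∑ g ∈ univ.filter (fun g : Perm B => g ∈ G ∧ g ≠ 1), (((8 : ℕ) : ℝ) ^ g.support.card)⁻¹
      < 1 := by
  set t : ℝ := ((8 : ℝ) ^ (m + 1))⁻¹ with ht
  have ht0 : 0 < t := by positivity
  have h1 : ∀ g : Perm B, (((8 : ℕ) : ℝ) ^ g.support.card)⁻¹
      ≤ ∑ i : Fin (m + 1), t ^ (g.support.filter (fun z => ψ z = i)).card := by
    intro g
    have hex : ∃ i : Fin (m + 1),
        (m + 1) * (g.support.filter (fun z => ψ z = i)).card ≤ g.support.card := by
      by_contra hcon
      push Not at hcon
      have h2 := card_eq_sum_card_fiberwise (f := ψ) (s := g.support) (t := univ) (by simp)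
      have h3 : ∑ _i : Fin (m + 1), g.support.card
          < ∑ i : Fin (m + 1), (m + 1) * (g.support.filter (fun z => ψ z = i)).card :=
        sum_lt_sum_of_nonempty univ_nonempty fun i _ => hcon i
      rw [← mul_sum, ← h2] at h3
      simp at h3
    obtain ⟨i, hi⟩ := hex
    refine le_trans ?_ (single_le_sum (f := fun i => t ^ (g.support.filter (fun z => ψ z = i)).card)
      (fun _ _ => by positivity) (mem_univ i))
    simp only [ht, inv_pow, ← pow_mul]
    push_cast
    exact inv_anti₀ (by positivity) (pow_le_pow_right₀ (by norm_num) hi)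
  refine lt_of_le_of_lt (sum_le_sum fun g _ => h1 g) ?_
  rw [sum_comm]
  set N := Fintype.card B * Fintype.card B with hN
  have hNlt : (N : ℝ) < 4 ^ (m + 1) := by
    have : N < 2 ^ (m + 1) * 2 ^ (m + 1) := Nat.mul_lt_mul'' hn hn
    rw [← mul_pow] at this
    exact_mod_cast this
  have hm : (2 : ℝ) * (m + 1) ≤ 2 ^ (m + 1) := by
    have : m + 1 ≤ 2 ^ m := Nat.lt_two_pow_self
    have h2 : ((m + 1 : ℕ) : ℝ) ≤ ((2 ^ m : ℕ) : ℝ) := Nat.cast_le.mpr this
    push_cast at h2
    rw [pow_succ]
    linarith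
  have h8 : (8 : ℝ) ^ (m + 1) = 2 ^ (m + 1) * 4 ^ (m + 1) := by rw [← mul_pow]; norm_num
  have hkey : 2 * (m + 1) * (N * t) < 1 := by
    rw [ht, ← mul_assoc, ← div_eq_mul_inv, div_lt_one (by positivity), h8]
    exact mul_lt_mul' hm hNlt (by positivity) (by positivity)
  have hNt : 0 ≤ N * t := by positivity
  have hNt1 : N * t ≤ 1 := by nlinarith
  have h2 : (1 + t) ^ N - 1 ≤ 2 * (N * t) := by
    have h3 : (1 + t) ^ N ≤ Real.exp (N * t) := by
      rw [Real.exp_nat_mul]
      exact pow_le_pow_left₀ (by positivity) (by linarith [Real.add_one_le_exp t]) N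
    have h4 := Real.abs_exp_sub_one_le (x := N * t) (by rwa [abs_of_nonneg hNt])
    rw [abs_of_nonneg hNt] at h4
    linarith [le_abs_self (Real.exp (N * t) - 1)]
  have h3 : ∑ i : Fin (m + 1), ∑ g ∈ univ.filter (fun g : Perm B => g ∈ G ∧ g ≠ 1),
      t ^ (g.support.filter (fun z => ψ z = i)).card ≤ ∑ _i : Fin (m + 1), 2 * (N * t) := by
    refine sum_le_sum fun i _ => le_trans ?_ h2
    have := sum_base G (fun z => ψ z = i) (hψ i) t ht0.le
    refine le_trans (le_of_eq ?_) this
    refine sum_congr rfl fun g _ => ?_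
    congr 3
  refine lt_of_le_of_lt h3 ?_
  simp only [sum_const, card_univ, Fintype.card_fin, nsmul_eq_mul]
  push_cast
  linarith

theorem growth (r : ℕ) (hr : 64 ≤ r) : 2 * (6561 * r ^ 8 + 1) < 2 ^ r := by
  induction r, hr using Nat.le_induction with
  | base => norm_num
  | succ r hr ih =>
    have h1 : (64 * (r + 1)) ^ 8 ≤ (65 * r) ^ 8 := Nat.pow_le_pow_left (by omega) 8
    rw [mul_pow, mul_pow] at h1
    rw [pow_succ 2 r]
    norm_num at h1
    omega

end UniPrim

open UniPrim in
theorem rigid_uniprimitive : ∃ q : ℕ, ∀ (B : Type) [Fintype B] [DecidableEq B]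
    (G : Subgroup (Perm B)),
    MulAction.IsPreprimitive G B →
    ¬ (∀ x y x' y' : B, x ≠ y → x' ≠ y' → ∃ g ∈ G, g x = x' ∧ g y = y') →
    ∃ M : B → ℕ, (∀ x, M x < q) ∧ ∀ g ∈ G, (∀ x, M (g x) = M x) → g = 1 := by
  refine ⟨2 ^ 64, fun B _ _ G hG h2 => ?_⟩
  by_cases hn : Fintype.card B ≤ 2 ^ 64
  · refine ⟨fun x => (Fintype.equivFin B x : ℕ), fun x => lt_of_lt_of_le (Fin.is_lt _) hn, ?_⟩
    intro g _ h
    ext x
    exact (Fintype.equivFin B).injective (Fin.ext (h x))
  push Not at hn
  set m := Nat.log 2 (Fintype.card B) with hm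
  have hlt : Fintype.card B < 2 ^ (m + 1) := Nat.lt_pow_succ_log_self (by norm_num) _
  have hge : 2 ^ m ≤ Fintype.card B := Nat.pow_log_le_self 2 (by omega)
  have hm64 : 64 ≤ m + 1 :=
    le_of_lt ((Nat.pow_lt_pow_iff_right (by norm_num : 1 < 2)).mp (hn.trans hlt))
  have hD : ∀ x y : B, x ≠ y → 3 * (m + 1) ^ 2 ≤ (dset G x y).card := by
    intro x y hxy
    by_contra hcon
    push Not at hcon
    obtain ⟨d, hd⟩ : ∃ d, d + 1 = 3 * (m + 1) ^ 2 := ⟨3 * (m + 1) ^ 2 - 1, by omega⟩
    have h1 := card_le_sq G hG h2 _ (dset_le G hG x y hxy d (by omega))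
    have h3 : 3 * (2 * d + 1) * d ≤ 81 * (m + 1) ^ 4 := by
      have : 81 * (m + 1) ^ 4 = 9 * (d + 1) ^ 2 := by rw [hd]; ring
      rw [this]
      nlinarith
    have h4 := h1.trans (Nat.mul_le_mul h3 h3)
    have h5 : 81 * (m + 1) ^ 4 * (81 * (m + 1) ^ 4) = 6561 * (m + 1) ^ 8 := by ring
    have h6 := growth (m + 1) hm64
    rw [h5] at h4
    rw [pow_succ 2 m] at h6
    omega
  obtain ⟨ψ, hψ⟩ := exists_psi (dset G) m hlt hD
  have hbase : ∀ i, ∀ g ∈ G, (∀ z, ψ z = i → g z = z) → g = 1 := by
    intro i g hg h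
    ext x
    by_contra hx
    obtain ⟨z, hz, hzi⟩ := hψ i x (g x) (fun h1 => hx (by simpa using h1.symm))
    exact mem_dset.mp hz ⟨g, hg, rfl, h z hzi⟩
  obtain ⟨M, hM, hrig⟩ := rigid_of_sum G 8 (by norm_num) (sum_lt_one G m hlt ψ hbase)
  exact ⟨M, fun x => (hM x).trans (by norm_num), hrig⟩

end Pool.Agent.MP_88b4a2_lc
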